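import Pool.Agent.Q87.Cox.Exchange

set_option autoImplicit false

/-! Bruhat order of a Coxeter system: lifting and subword properties. -/

namespace Pool.Agent.Q87.Cox

open CoxeterSystem

universe u v

variable {B : Type u} {W : Type v} [Group W] {M : CoxeterMatrix B} (cs : CoxeterSystem M W)

/-- `w = v t` with `t` a reflection and `ℓ v < ℓ w`. -/
def Step (v w : W) : Prop := ∃ t, cs.IsReflection t ∧ w = v * t ∧ cs.length v < cs.length w

/-- Bruhat order. -/
def Br (v w : W) : Prop := Relation.ReflTransGen (Step cs) v w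

variable {cs}

theorem Br.refl (v : W) : Br cs v v := Relation.ReflTransGen.refl

theorem Br.trans {a b c : W} (h : Br cs a b) (k : Br cs b c) : Br cs a c :=
  Relation.ReflTransGen.trans h k

theorem Step.br {v w : W} (h : Step cs v w) : Br cs v w := Relation.ReflTransGen.single h

theorem Br.length_le {v w : W} (h : Br cs v w) : cs.length v ≤ cs.length w := by
  induction h with
  | refl => exact le_refl _
  | tail _ h ih =>
    obtain ⟨t, _, _, h⟩ := h
    omega

theorem Step.inv {v w : W} (h : Step cs v w) : Step cs v⁻¹ w⁻¹ := by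
  obtain ⟨t, ht, rfl, h⟩ := h
  refine ⟨v * t * v⁻¹, ht.conj v, ?_, ?_⟩
  · rw [mul_inv_rev, ht.inv]; group
  · rw [cs.length_inv, cs.length_inv]; exact h

theorem Br.inv {v w : W} (h : Br cs v w) : Br cs v⁻¹ w⁻¹ := by
  induction h with
  | refl => exact Br.refl _
  | tail _ h ih => exact ih.trans h.inv.br

theorem step_right {w : W} {i : B} (h : cs.length w < cs.length (w * cs.simple i)) :
    Step cs w (w * cs.simple i) := ⟨cs.simple i, cs.isReflection_simple i, rfl, h⟩

theorem step_right' {w : W} {i : B} (h : cs.length (w * cs.simple i) < cs.length w) :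
    Step cs (w * cs.simple i) w :=
  ⟨cs.simple i, cs.isReflection_simple i, by simp, h⟩

theorem step_mul_simple {v w : W} (h : Step cs v w) (i : B) :
    v * cs.simple i = w ∨ Step cs (v * cs.simple i) (w * cs.simple i) := by
  by_cases h0 : v * cs.simple i = w
  · exact Or.inl h0
  right
  obtain ⟨t, ht, hw, hl⟩ := h
  have hrefl : cs.IsReflection (cs.simple i * t * cs.simple i) := by
    have := ht.conj (cs.simple i)
    simpa using this
  have hws : w * cs.simple i = v * cs.simple i * (cs.simple i * t * cs.simple i) := by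
    rw [hw]; simp [mul_assoc]
  refine ⟨cs.simple i * t * cs.simple i, hrefl, hws, ?_⟩
  have hne := hrefl.length_mul_left_ne (v * cs.simple i)
  rw [← hws] at hne
  by_contra hlt
  have hv := cs.length_mul_simple v i
  have hw' := cs.length_mul_simple w i
  have h1 : cs.length (v * cs.simple i) = cs.length v + 1 := by omega
  have h2 : cs.length (w * cs.simple i) + 1 = cs.length w := by omega
  have h3 : cs.length w = cs.length v + 1 := by omega
  obtain ⟨ω', hω', hp⟩ := cs.exists_isReduced (w * cs.simple i)
  have hw2 : cs.wordProd (ω' ++ [i]) = w := by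
    rw [cs.wordProd_append, ← hp]; simp
  have hvt : w * t = v := by rw [hw, mul_assoc, ht.mul_self, mul_one]
  have hlen' : ω'.length = cs.length (w * cs.simple i) := by rw [hp]; exact hω'.symm
  obtain ⟨j, hj, hjp⟩ := strong_exchange cs (ω' ++ [i]) ht (by rw [hw2, hvt]; omega)
  rw [hw2, hvt] at hjp
  rw [List.length_append, List.length_singleton] at hj
  by_cases hj2 : j < ω'.length
  · rw [List.eraseIdx_append_of_lt_length hj2, cs.wordProd_append, cs.wordProd_singleton] at hjp
    have h4 : v * cs.simple i = cs.wordProd (ω'.eraseIdx j) := by rw [← hjp]; simp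
    have h5 := cs.length_wordProd_le (ω'.eraseIdx j)
    rw [← h4] at h5
    have h6 := List.length_eraseIdx_add_one hj2
    omega
  · have hj3 : j = ω'.length := by omega
    subst hj3
    rw [List.eraseIdx_append_of_length_le (le_refl _)] at hjp
    simp only [Nat.sub_self, List.eraseIdx_cons_zero, List.append_nil] at hjp
    rw [← hp] at hjp
    exact h0 (by rw [← hjp]; simp)

/-- Lifting: if `v ≤ w`, `ws < w`, `vs > v` then `v ≤ ws`. -/
theorem Br.lift {v w : W} {i : B} (h : Br cs v w)
    (h1 : cs.length (w * cs.simple i) < cs.length w)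
    (h2 : cs.length v < cs.length (v * cs.simple i)) : Br cs v (w * cs.simple i) := by
  induction h with
  | refl => omega
  | @tail x w hx hxw ih =>
    rcases step_mul_simple hxw i with h | h
    · have : w * cs.simple i = x := by rw [← h]; simp
      rw [this]; exact hx
    · rcases cs.length_mul_simple x i with h3 | h3
      · exact (Br.trans hx (step_right (by omega)).br).trans h.br
      · exact (ih (by omega)).trans h.br

theorem Br.mul_simple_of_gt {v w : W} {i : B} (h : Br cs v w)
    (h1 : cs.length (w * cs.simple i) < cs.length w) : Br cs (v * cs.simple i) w := by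
  induction h using Relation.ReflTransGen.head_induction_on with
  | refl => exact (step_right' h1).br
  | head hvx hxw ih =>
    rcases step_mul_simple hvx i with h | h
    · rw [h]; exact hxw
    · exact h.br.trans ih

theorem Br.mul_simple_of_lt {v w : W} {i : B} (h : Br cs v w)
    (h1 : cs.length w < cs.length (w * cs.simple i)) :
    Br cs (v * cs.simple i) (w * cs.simple i) := by
  induction h using Relation.ReflTransGen.head_induction_on with
  | refl => exact Br.refl _
  | head hvx hxw ih =>
    rcases step_mul_simple hvx i with h | h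
    · rw [h]; exact Br.trans hxw (step_right h1).br
    · exact h.br.trans ih

theorem Br.simple_mul_of_gt {v w : W} {i : B} (h : Br cs v w)
    (h1 : cs.length (cs.simple i * w) < cs.length w) : Br cs (cs.simple i * v) w := by
  have h2 : cs.length (w⁻¹ * cs.simple i) < cs.length w⁻¹ := by
    have e : w⁻¹ * cs.simple i = (cs.simple i * w)⁻¹ := by simp [mul_inv_rev]
    rw [e, cs.length_inv, cs.length_inv]; exact h1
  have h3 := (h.inv.mul_simple_of_gt h2).inv
  simpa [mul_inv_rev] using h3

theorem Br.simple_mul_of_lt {v w : W} {i : B} (h : Br cs v w)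
    (h1 : cs.length w < cs.length (cs.simple i * w)) :
    Br cs (cs.simple i * v) (cs.simple i * w) := by
  have e : w⁻¹ * cs.simple i = (cs.simple i * w)⁻¹ := by simp [mul_inv_rev]
  have h2 : cs.length w⁻¹ < cs.length (w⁻¹ * cs.simple i) := by
    rw [e, cs.length_inv, cs.length_inv]; exact h1
  have h3 := (h.inv.mul_simple_of_lt h2).inv
  simpa [mul_inv_rev] using h3

theorem step_left {w : W} {i : B} (h : cs.length w < cs.length (cs.simple i * w)) :
    Step cs w (cs.simple i * w) := by
  have e : w⁻¹ * cs.simple i = (cs.simple i * w)⁻¹ := by simp [mul_inv_rev]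
  have h2 : cs.length w⁻¹ < cs.length (w⁻¹ * cs.simple i) := by
    rw [e, cs.length_inv, cs.length_inv]; exact h
  have h3 := (step_right h2).inv
  simpa [mul_inv_rev] using h3

/-- Elements below `π ω` are products of sublists of `ω`. -/
theorem Br.exists_sublist {v : W} {ω : List B} (h : Br cs v (cs.wordProd ω)) :
    ∃ ω' : List B, ω'.Sublist ω ∧ cs.wordProd ω' = v := by
  induction h using Relation.ReflTransGen.head_induction_on with
  | refl => exact ⟨ω, List.Sublist.refl _, rfl⟩
  | @head v x hvx _ ih =>
    obtain ⟨ω', hs, hp⟩ := ih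
    obtain ⟨t, ht, hx, hl⟩ := hvx
    have hv : x * t = v := by rw [hx, mul_assoc, ht.mul_self, mul_one]
    obtain ⟨j, _, hjp⟩ := strong_exchange cs ω' ht (by rw [hp, hv]; exact hl)
    exact ⟨ω'.eraseIdx j, (List.eraseIdx_sublist _ _).trans hs, by rw [hjp, hp, hv]⟩

theorem IsReduced_tail {i : B} {ω : List B} (h : cs.IsReduced (i :: ω)) : cs.IsReduced ω :=
  h.drop 1

theorem length_cons_of_reduced {i : B} {ω : List B} (h : cs.IsReduced (i :: ω)) :
    cs.length (cs.simple i * cs.wordProd ω) = cs.length (cs.wordProd ω) + 1 := by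
  have h1 := h.eq
  have h2 := (IsReduced_tail h).eq
  rw [cs.wordProd_cons, List.length_cons] at h1
  omega

/-- Products of sublists of a reduced word are below its product. -/
theorem br_of_sublist {ω : List B} (h : cs.IsReduced ω) {ω' : List B} (hs : ω'.Sublist ω) :
    Br cs (cs.wordProd ω') (cs.wordProd ω) := by
  induction hs with
  | slnil => exact Br.refl _
  | @cons ω' ω i _ ih =>
    have h1 := length_cons_of_reduced h
    rw [cs.wordProd_cons]
    exact (ih (IsReduced_tail h)).trans (step_left (by omega)).br
  | @cons_cons ω' ω i _ ih =>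
    have h1 := length_cons_of_reduced h
    rw [cs.wordProd_cons, cs.wordProd_cons]
    exact (ih (IsReduced_tail h)).simple_mul_of_lt (by omega)

theorem exists_reduced (w : W) : ∃ ω : List B, cs.IsReduced ω ∧ cs.wordProd ω = w := by
  obtain ⟨ω, h, hp⟩ := cs.exists_isReduced w
  exact ⟨ω, h, hp.symm⟩

theorem isReduced_append {ω₁ ω₂ : List B} (h₁ : cs.IsReduced ω₁) (h₂ : cs.IsReduced ω₂)
    (h : cs.length (cs.wordProd ω₁ * cs.wordProd ω₂) =
      cs.length (cs.wordProd ω₁) + cs.length (cs.wordProd ω₂)) :
    cs.IsReduced (ω₁ ++ ω₂) := by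
  unfold CoxeterSystem.IsReduced
  rw [cs.wordProd_append, h, h₁.eq, h₂.eq, List.length_append]

/-- Monotonicity of length-additive products. -/
theorem Br.mul {v₁ v₂ w₁ w₂ : W} (h₁ : Br cs v₁ w₁) (h₂ : Br cs v₂ w₂)
    (h : cs.length (w₁ * w₂) = cs.length w₁ + cs.length w₂) : Br cs (v₁ * v₂) (w₁ * w₂) := by
  obtain ⟨ω₁, r₁, rfl⟩ := exists_reduced (cs := cs) w₁
  obtain ⟨ω₂, r₂, rfl⟩ := exists_reduced (cs := cs) w₂
  obtain ⟨σ₁, s₁, rfl⟩ := h₁.exists_sublist
  obtain ⟨σ₂, s₂, rfl⟩ := h₂.exists_sublist
  rw [← cs.wordProd_append, ← cs.wordProd_append]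
  exact br_of_sublist (isReduced_append r₁ r₂ h) (s₁.append s₂)

/-- Deletion property: every word has a reduced sublist with the same product. -/
theorem exists_reduced_sublist (ω : List B) :
    ∃ ω' : List B, ω'.Sublist ω ∧ cs.IsReduced ω' ∧ cs.wordProd ω' = cs.wordProd ω := by
  induction ω with
  | nil => exact ⟨[], List.Sublist.refl _, by simp [CoxeterSystem.IsReduced], rfl⟩
  | cons i ω ih =>
    obtain ⟨ω', hs, hr, hp⟩ := ih
    rcases cs.length_simple_mul (cs.wordProd ω') i with h | h
    · refine ⟨i :: ω', hs.cons_cons i, ?_, ?_⟩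
      · unfold CoxeterSystem.IsReduced
        rw [cs.wordProd_cons, h, hr.eq, List.length_cons]
      · rw [cs.wordProd_cons, cs.wordProd_cons, hp]
    · -- `s_i π ω' = π ω' t` with `t` a reflection
      have ht : cs.IsReflection ((cs.wordProd ω')⁻¹ * cs.simple i * cs.wordProd ω') := by
        have := (cs.isReflection_simple i).conj (cs.wordProd ω')⁻¹
        simpa using this
      have e : cs.wordProd ω' * ((cs.wordProd ω')⁻¹ * cs.simple i * cs.wordProd ω') =
          cs.simple i * cs.wordProd ω' := by group
      obtain ⟨j, hj, hjp⟩ := strong_exchange cs ω' ht (by rw [e]; omega)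
      rw [e] at hjp
      refine ⟨ω'.eraseIdx j, (List.eraseIdx_sublist _ _).trans (hs.cons i), ?_, ?_⟩
      · unfold CoxeterSystem.IsReduced
        rw [hjp]
        have h1 := List.length_eraseIdx_add_one hj
        have h2 := hr.eq
        omega
      · rw [hjp, hp, cs.wordProd_cons]

end Pool.Agent.Q87.Cox
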