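import Pool.Agent.Q87.Cox.Twist

set_option autoImplicit false

/-! The non-definite case: explicit chains in a dihedral reflection subgroup. -/

namespace Pool.Agent.Q87.Cox.Geo

open CoxeterSystem Pool.Agent.Q87.Cox Real

variable {B : Type*} {M : CoxeterMatrix B} {W : Type*} [Group W] {cs : CoxeterSystem M W}

/-- Height. -/
noncomputable def ht : (B →₀ ℝ) →ₗ[ℝ] ℝ := Finsupp.linearCombination ℝ (fun _ => (1 : ℝ))

lemma ht_pos {v : B →₀ ℝ} (h : 0 ≤ v) (h0 : v ≠ 0) : 0 < ht v := by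
  unfold ht
  rw [Finsupp.linearCombination_apply, Finsupp.sum]
  simp only [smul_eq_mul, mul_one]
  apply Finset.sum_pos
  · intro i hi
    have h1 : 0 ≤ v i := by simpa using h i
    exact lt_of_le_of_ne h1 (Ne.symm (Finsupp.mem_support_iff.1 hi))
  · rw [Finset.nonempty_iff_ne_empty]
    intro he
    exact h0 (Finsupp.support_eq_empty.1 he)

lemma Rt.ht_pos {t : W} {v : B →₀ ℝ} (h : Rt cs t v) (hv : 0 ≤ v) : 0 < ht v :=
  Geo.ht_pos hv h.ne_zero

lemma Rt.nonneg_of_ht {t : W} {v : B →₀ ℝ} (h : Rt cs t v) (hv : 0 < ht v) : 0 ≤ v := by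
  rcases h.sign with h1 | h1
  · exact h1
  · exfalso
    have := h.neg.ht_pos (neg_nonneg.2 h1)
    rw [map_neg] at this
    linarith

/-- Solutions of `u (n+2) = 2c u (n+1) - u n`. -/
noncomputable def sq (c : ℝ) (u₀ u₁ : B →₀ ℝ) : ℕ → (B →₀ ℝ)
  | 0 => u₀
  | 1 => u₁
  | (n + 2) => (2 * c) • sq c u₀ u₁ (n + 1) - sq c u₀ u₁ n

@[simp] lemma sq_zero (c : ℝ) (u₀ u₁ : B →₀ ℝ) : sq c u₀ u₁ 0 = u₀ := rfl
@[simp] lemma sq_one (c : ℝ) (u₀ u₁ : B →₀ ℝ) : sq c u₀ u₁ 1 = u₁ := rfl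
lemma sq_add_two (c : ℝ) (u₀ u₁ : B →₀ ℝ) (n : ℕ) : sq c u₀ u₁ (n + 2) =
    (2 * c) • sq c u₀ u₁ (n + 1) - sq c u₀ u₁ n := rfl

lemma map_sq {c : ℝ} {u₀ u₁ v₀ v₁ : B →₀ ℝ} (f : (B →₀ ℝ) →ₗ[ℝ] (B →₀ ℝ)) (ε : ℝ)
    (h0 : f u₀ = ε • v₀) (h1 : f u₁ = ε • v₁) (n : ℕ) :
    f (sq c u₀ u₁ n) = ε • sq c v₀ v₁ n ∧ f (sq c u₀ u₁ (n + 1)) = ε • sq c v₀ v₁ (n + 1) := by
  induction n with
  | zero => exact ⟨h0, h1⟩
  | succ n ih =>
    refine ⟨ih.2, ?_⟩
    rw [sq_add_two, sq_add_two, map_sub, map_smul, ih.1, ih.2]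
    module

/-- The reflections in the vectors of the sequence. -/
def sqF (a b : W) : ℕ → W
  | 0 => a
  | 1 => b
  | (n + 2) => sqF a b (n + 1) * sqF a b n * sqF a b (n + 1)

lemma sqF_rt {a b : W} {u₀ u₁ : B →₀ ℝ} (ha : Rt cs a u₀) (hb : Rt cs b u₁) {c : ℝ}
    (hc : bil M u₀ u₁ = c) (n : ℕ) :
    Rt cs (sqF a b n) (sq c u₀ u₁ n) ∧ Rt cs (sqF a b (n + 1)) (sq c u₀ u₁ (n + 1)) ∧
      bil M (sq c u₀ u₁ n) (sq c u₀ u₁ (n + 1)) = c ∧
      sqF a b (n + 1) * sqF a b n = b * a := by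
  induction n with
  | zero => exact ⟨ha, hb, hc, rfl⟩
  | succ n ih =>
    obtain ⟨h1, h2, h3, h4⟩ := ih
    refine ⟨h2, ?_, ?_, ?_⟩
    · have h5 := (h1.conj (sqF a b (n + 1))).neg
      rw [h2.apply, bil_symm, h3, h2.isReflection.inv] at h5
      have e : sq c u₀ u₁ (n + 1 + 1) = -(sq c u₀ u₁ n - (2 * c) • sq c u₀ u₁ (n + 1)) := by
        rw [sq_add_two]; abel
      rw [e]
      exact h5
    · rw [sq_add_two, map_sub, map_smul, h2.norm, bil_symm _ (sq c u₀ u₁ n), h3]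
      simp only [smul_eq_mul]; ring
    · change sqF a b (n + 1) * sqF a b n * sqF a b (n + 1) * sqF a b (n + 1) = b * a
      rw [mul_assoc, h2.mul_self, mul_one, h4]

lemma sq_shift (c : ℝ) (u₀ u₁ : B →₀ ℝ) (n : ℕ) :
    sq c (sq c u₀ u₁ 1) (sq c u₀ u₁ 2) n = sq c u₀ u₁ (n + 1) ∧
      sq c (sq c u₀ u₁ 1) (sq c u₀ u₁ 2) (n + 1) = sq c u₀ u₁ (n + 2) := by
  induction n with
  | zero => exact ⟨rfl, rfl⟩
  | succ n ih =>
    refine ⟨ih.2, ?_⟩
    rw [sq_add_two, ih.1, ih.2, sq_add_two c u₀ u₁ (n + 1)]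

lemma sq_ht {c : ℝ} (hc : 1 ≤ c) {u₀ u₁ : B →₀ ℝ} (h0 : 0 < ht u₀) (h1 : ht u₀ ≤ ht u₁) (n : ℕ) :
    0 < ht (sq c u₀ u₁ n) ∧ ht (sq c u₀ u₁ n) ≤ ht (sq c u₀ u₁ (n + 1)) := by
  induction n with
  | zero => exact ⟨h0, h1⟩
  | succ n ih =>
    have hp : 0 < ht (sq c u₀ u₁ (n + 1)) := lt_of_lt_of_le ih.1 ih.2
    refine ⟨hp, ?_⟩
    rw [sq_add_two, map_sub, map_smul, smul_eq_mul]
    nlinarith [ih.2, mul_le_mul_of_nonneg_right hc hp.le]

lemma sq_inj {a b : W} {u₀ u₁ : B →₀ ℝ} (ha : Rt cs a u₀) (hb : Rt cs b u₁) {c : ℝ}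
    (hbc : bil M u₀ u₁ = c) (hc : 1 ≤ c) (h0 : 0 < ht u₀) (h1 : ht u₀ ≤ ht u₁) (hne : u₀ ≠ u₁) :
    Function.Injective (sq c u₀ u₁) := by
  have hmono : Monotone (fun n => ht (sq c u₀ u₁ n)) :=
    monotone_nat_of_le_succ (fun n => (sq_ht hc h0 h1 n).2)
  have key : ∀ n m, n < m → sq c u₀ u₁ n ≠ sq c u₀ u₁ m := by
    intro n m hnm he
    have hc1 : c = 1 := by
      rcases Nat.lt_or_ge (n + 1) m with h | h
      · have e1 : ht (sq c u₀ u₁ n) ≤ ht (sq c u₀ u₁ (n + 1)) := hmono (by omega)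
        have e2 : ht (sq c u₀ u₁ (n + 1)) ≤ ht (sq c u₀ u₁ (n + 2)) := hmono (by omega)
        have e3 : ht (sq c u₀ u₁ (n + 2)) ≤ ht (sq c u₀ u₁ m) := hmono (by omega)
        rw [← he] at e3
        have e4 : ht (sq c u₀ u₁ (n + 1)) = ht (sq c u₀ u₁ n) := by linarith
        have e5 : ht (sq c u₀ u₁ (n + 2)) = ht (sq c u₀ u₁ n) := by linarith
        rw [sq_add_two, map_sub, map_smul, smul_eq_mul, e4] at e5
        have e6 := (sq_ht hc h0 h1 n).1
        have : (c - 1) * ht (sq c u₀ u₁ n) = 0 := by linarith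
        rcases mul_eq_zero.1 this with h | h
        · linarith
        · linarith
      · have hm : m = n + 1 := by omega
        subst hm
        obtain ⟨h2, _, h3, _⟩ := sqF_rt ha hb hbc n
        rw [← he, h2.norm] at h3
        exact h3.symm
    subst hc1
    have hform : ∀ k : ℕ, sq 1 u₀ u₁ k = u₀ + (k : ℝ) • (u₁ - u₀) ∧
        sq 1 u₀ u₁ (k + 1) = u₀ + ((k : ℝ) + 1) • (u₁ - u₀) := by
      intro k
      induction k with
      | zero => constructor <;> simp
      | succ k ih =>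
        refine ⟨by rw [ih.2]; push_cast; rfl, ?_⟩
        rw [sq_add_two, ih.1, ih.2]
        push_cast
        module
    rw [(hform n).1, (hform m).1] at he
    have h2 : ((m : ℝ) - (n : ℝ)) • (u₁ - u₀) = 0 := by
      have h3 := add_left_cancel he
      rw [sub_smul, h3, sub_self]
    rcases smul_eq_zero.1 h2 with h | h
    · have : (n : ℝ) < (m : ℝ) := by exact_mod_cast hnm
      linarith
    · exact hne (sub_eq_zero.1 h).symm
  intro n m he
  rcases Nat.lt_trichotomy n m with h | h | h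
  · exact (key n m h he).elim
  · exact h
  · exact (key m n h he.symm).elim

namespace Tw

variable (T : Tw cs)

/-- The linear action of the twisted element `(x, θ)`. -/
noncomputable def X (x : W) : (B →₀ ℝ) →ₗ[ℝ] (B →₀ ℝ) := (geo cs x).comp T.Th

lemma X_apply (x : W) (v : B →₀ ℝ) : T.X x v = geo cs x (T.Th v) := rfl

lemma X_X {x : W} (hx : T.θ x = x⁻¹) (v : B →₀ ℝ) : T.X x (T.X x v) = v := by
  rw [X_apply, X_apply, T.Th_geo, T.Th_Th, hx, geo_apply_inv]

lemma geo_inv_eq {x : W} (hx : T.θ x = x⁻¹) (v : B →₀ ℝ) : geo cs x⁻¹ v = T.Th (T.X x v) := by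
  have h := T.X_X hx v
  conv_lhs => rw [← h]
  rw [X_apply, geo_inv_apply]

lemma θ_conj {x r : W} (hx : T.θ x = x⁻¹) (hr : r * r = 1) :
    T.θ (r * x * T.θ r) = (r * x * T.θ r)⁻¹ := by
  have h1 : r⁻¹ = r := inv_eq_of_mul_eq_one_left hr
  rw [map_mul, map_mul, hx, T.θθ, mul_inv_rev, mul_inv_rev, ← map_inv, h1, mul_assoc]

lemma X_conj {x r : W} (v : B →₀ ℝ) : T.X (r * x * T.θ r) v = geo cs r (T.X x (geo cs r v)) := by
  rw [X_apply, X_apply, T.Th_geo, map_mul, map_mul, Module.End.mul_apply, Module.End.mul_apply]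

lemma X_rt {x r : W} {v : B →₀ ℝ} (h : Rt cs r v) : Rt cs (x * T.θ r * x⁻¹) (T.X x v) :=
  (T.rt h).conj x

/-- The chain lemma. -/
lemma chain_oriented {x : W} (hx : T.θ x = x⁻¹) {r s : W} {β γ : B →₀ ℝ} {ε : ℝ}
    (hr : Rt cs r β) (hβ : 0 ≤ β) (hs : Rt cs s γ) (hγ : 0 ≤ γ) (hε : ε = 1 ∨ ε = -1)
    (hX : T.X x β = ε • γ) (hc : 1 ≤ bil M β γ) (hδ : geo cs r γ ≤ 0) (hne : γ ≠ β)
    (hht : ht β ≤ ht (-(geo cs r γ))) :
    Br cs x (r * x * T.θ r) ∨ Br cs (r * x * T.θ r) x := by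
  set c := bil M β γ with hcdef
  set δ : B →₀ ℝ := -(geo cs r γ) with hδdef
  have hεε : ε * ε = 1 := by rcases hε with rfl | rfl <;> norm_num
  have hrr : r * r = 1 := hr.mul_self
  have hrinv : r⁻¹ = r := hr.isReflection.inv
  have hδ0 : 0 ≤ δ := neg_nonneg.2 hδ
  have hδe : δ = (2 * c) • β - γ := by rw [hδdef, hr.apply]; abel
  have hrδ : Rt cs (r * s * r) δ := by
    have := (hs.conj r).neg
    rwa [hrinv] at this
  have hβδ : bil M β δ = c := by
    rw [hδe, map_sub, map_smul, hr.norm]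
    simp only [smul_eq_mul]; ring
  have hneδ : β ≠ δ := by
    intro h
    apply hne
    have h1 : geo cs r (geo cs r γ) = γ := by
      rw [← Module.End.mul_apply, ← map_mul, hrr, map_one, Module.End.one_apply]
    have h2 : geo cs r γ = -β := by rw [h, hδdef, neg_neg]
    rw [h2, map_neg, hr.apply_self, neg_neg] at h1
    exact h1.symm
  -- identification of `s`
  have hs' : s = x * T.θ r * x⁻¹ := by
    have h1 := T.X_rt (x := x) hr
    rw [hX] at h1
    rcases hε with rfl | rfl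
    · rw [one_smul] at h1; exact hs.unique h1
    · rw [neg_one_smul] at h1; exact hs.unique_neg h1
  have hy : r * x * T.θ r = r * s * x := by rw [hs']; group
  have hXγ : T.X x γ = ε • β := by
    have h1 := T.X_X hx β
    rw [hX, map_smul] at h1
    calc T.X x γ = (ε * ε) • T.X x γ := by rw [hεε, one_smul]
      _ = ε • β := by rw [mul_smul, h1]
  set y := r * x * T.θ r with hydef
  have hyθ : T.θ y = y⁻¹ := T.θ_conj hx hrr
  set f := sq c β δ with hf
  set b := sq c β γ with hb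
  set F := sqF r (r * s * r) with hF
  have hf0 : f 0 = β := rfl
  have hf1 : f 1 = δ := rfl
  have hb0 : b 0 = β := rfl
  have hb1 : b 1 = γ := rfl
  have hFf : ∀ n, Rt cs (F n) (f n) := fun n => (sqF_rt hr hrδ hβδ n).1
  have hbF : ∀ n, bil M (f n) (f (n + 1)) = c := fun n => (sqF_rt hr hrδ hβδ n).2.2.1
  have hFF : ∀ n, F (n + 1) * F n = r * s := by
    intro n
    rw [(sqF_rt hr hrδ hβδ n).2.2.2, mul_assoc (r * s), hrr, mul_one]
  have hFinv : ∀ n, (F n)⁻¹ = F n := fun n => (hFf n).isReflection.inv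
  have hFF' : ∀ n, F n * F (n + 1) = s * r := by
    intro n
    have h1 := congrArg (·⁻¹) (hFF n)
    simp only [mul_inv_rev, hFinv, hrinv, hs.isReflection.inv] at h1
    exact h1
  have hhtβ : 0 < ht β := hr.ht_pos hβ
  have hfpos : ∀ n, 0 ≤ f n := fun n => (hFf n).nonneg_of_ht (sq_ht hc hhtβ hht n).1
  have hrf : ∀ n, geo cs r (f n) = -(b n) := by
    intro n
    have h1 := (map_sq (c := c) (geo cs r) (-1) (u₀ := β) (u₁ := δ) (v₀ := β) (v₁ := γ)
      (by rw [hr.apply_self]; module)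
      (by
        rw [hδdef, map_neg, ← Module.End.mul_apply, ← map_mul, hrr, map_one,
          Module.End.one_apply]; module) n).1
    rw [neg_one_smul] at h1
    exact h1
  have hrb : ∀ n, geo cs r (b n) = -(f n) := by
    intro n
    have h1 := hrf n
    have h2 : geo cs r (geo cs r (f n)) = f n := by
      rw [← Module.End.mul_apply, ← map_mul, hrr, map_one, Module.End.one_apply]
    rw [h1, map_neg] at h2
    rw [← h2, neg_neg]
  have hbrt : ∀ n, Rt cs (r * F n * r) (b n) := by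
    intro n
    have h1 := ((hFf n).conj r).neg
    rwa [hrf, neg_neg, hrinv] at h1
  have hXf : ∀ n, T.X x (f n) = ε • b (n + 1) := by
    intro n
    have h1 := (map_sq (c := c) (T.X x) ε (u₀ := β) (u₁ := δ) (v₀ := b 1) (v₁ := b 2)
      hX (by
        rw [hδe, map_sub, map_smul, hX, hXγ, hb, sq_add_two, sq_zero, sq_one]
        module) n).1
    rw [(sq_shift c β γ n).1] at h1
    exact h1
  have hXb : ∀ n, T.X x (b (n + 1)) = ε • f n := by
    intro n
    have h1 := T.X_X hx (f n)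
    rw [hXf, map_smul] at h1
    calc T.X x (b (n + 1)) = (ε * ε) • T.X x (b (n + 1)) := by rw [hεε, one_smul]
      _ = ε • f n := by rw [mul_smul, h1]
  have hYf : ∀ n, T.X y (f (n + 1)) = ε • b n := by
    intro n
    rw [hydef, T.X_conj, hrf, map_neg, hXb, map_neg, map_smul, hrf]
    module
  -- some `b n` is negative
  have hex : ∃ n, ¬ (0 ≤ b n) := by
    by_contra hall
    push Not at hall
    have hinj := sq_inj hr hrδ hβδ hc hhtβ hht hneδ
    have hfin := finite_neg (cs := cs) r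
    have hsub : Set.range f ⊆
        {v : B →₀ ℝ | (∃ t, Rt cs t v) ∧ 0 ≤ v ∧ geo cs r v ≤ 0} := by
      rintro _ ⟨n, rfl⟩
      refine ⟨⟨_, hFf n⟩, hfpos n, ?_⟩
      rw [hrf]
      exact neg_nonpos.2 (hall n)
    exact (Set.infinite_range_of_injective hinj) (hfin.subset hsub)
  classical
  let q := Nat.find hex
  have hq : ¬ (0 ≤ b q) := Nat.find_spec hex
  have hqmin : ∀ m, m < q → 0 ≤ b m := fun m hm => not_not.1 (Nat.find_min hex hm)
  have hq1 : q ≠ 0 := by intro h; rw [h] at hq; exact hq hβ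
  have hq2 : q ≠ 1 := by intro h; rw [h] at hq; exact hq hγ
  obtain ⟨k, hk⟩ : ∃ k, q = k + 2 := ⟨q - 2, by omega⟩
  rw [hk] at hq
  have hbk2 : b (k + 2) ≤ 0 := (hbrt (k + 2)).sign.resolve_left hq
  have hbk1 : 0 ≤ b (k + 1) := hqmin _ (by omega)
  have hrefl : ∀ n, geo cs (F n) (f (n + 1)) = f (n + 1) - (2 * c) • f n := by
    intro n; rw [(hFf n).apply, hbF]
  have hrefl' : ∀ n, geo cs (F (n + 1)) (f n) = f n - (2 * c) • f (n + 1) := by
    intro n; rw [(hFf (n + 1)).apply, bil_symm, hbF]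
  have hrec : ∀ n, f (n + 2) = (2 * c) • f (n + 1) - f n := fun n => rfl
  rcases hε with hε | hε
  · -- peak : `y < x`
    right
    rw [hε] at hYf
    simp only [one_smul] at hYf
    have s1 : Step cs y (F (k + 2) * y) := by
      apply (hFf _).step_left (hfpos _)
      rw [T.geo_inv_eq hyθ, hYf]
      exact T.Th_nonneg hbk1
    have s2 : Step cs (F (k + 2) * y) (F (k + 1) * (F (k + 2) * y)) := by
      apply (hFf _).step_left (hfpos _)
      rw [mul_inv_rev, hFinv, map_mul, Module.End.mul_apply, hrefl' (k + 1),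
        show f (k + 1) - (2 * c) • f (k + 1 + 1) = -(f (k + 3)) by rw [hrec (k + 1)]; abel,
        map_neg, T.geo_inv_eq hyθ, hYf]
      exact neg_nonneg.2 (T.Th_nonpos hbk2)
    have e : F (k + 1) * (F (k + 2) * y) = x := by
      rw [← mul_assoc, hFF' (k + 1), hy]
      have hss : s * s = 1 := hs.mul_self
      calc s * r * (r * s * x) = s * (r * r) * s * x := by group
        _ = x := by rw [hrr, mul_one, hss, one_mul]
    rw [e] at s2
    exact s1.br.trans s2.br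
  · -- valley : `x < y`
    left
    rw [hε] at hXf
    simp only [neg_one_smul] at hXf
    have s1 : Step cs x (F (k + 1) * x) := by
      apply (hFf _).step_left (hfpos _)
      rw [T.geo_inv_eq hx, hXf, map_neg]
      exact neg_nonneg.2 (T.Th_nonpos hbk2)
    have s2 : Step cs (F (k + 1) * x) (F (k + 2) * (F (k + 1) * x)) := by
      apply (hFf _).step_left (hfpos _)
      rw [mul_inv_rev, hFinv, map_mul, Module.End.mul_apply, hrefl (k + 1),
        show f (k + 1 + 1) - (2 * c) • f (k + 1) = -(f k) by rw [hrec k]; abel,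
        map_neg, T.geo_inv_eq hx, hXf, map_neg, neg_neg]
      exact T.Th_nonneg hbk1
    have e : F (k + 2) * (F (k + 1) * x) = y := by
      rw [← mul_assoc, hFF (k + 1), hy]
    rw [e] at s2
    exact s1.br.trans s2.br

/-- The indefinite case, unoriented. -/
lemma chain {x : W} (hx : T.θ x = x⁻¹) {r s : W} {β γ : B →₀ ℝ} {ε : ℝ}
    (hr : Rt cs r β) (hβ : 0 ≤ β) (hs : Rt cs s γ) (hγ : 0 ≤ γ) (hε : ε = 1 ∨ ε = -1)
    (hX : T.X x β = ε • γ) (hc : 1 ≤ bil M β γ) (hδ : geo cs r γ ≤ 0) (hne : γ ≠ β) :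
    Br cs x (r * x * T.θ r) ∨ Br cs (r * x * T.θ r) x := by
  rcases le_total (ht β) (ht (-(geo cs r γ))) with h | h
  · exact T.chain_oriented hx hr hβ hs hγ hε hX hc hδ hne h
  · have hrr : r * r = 1 := hr.mul_self
    have hrinv : r⁻¹ = r := hr.isReflection.inv
    have hgg : geo cs r (geo cs r γ) = γ := by
      rw [← Module.End.mul_apply, ← map_mul, hrr, map_one, Module.End.one_apply]
    have hy := T.θ_conj hx hrr
    have hrδ : Rt cs (r * s * r) (-(geo cs r γ)) := by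
      have := (hs.conj r).neg
      rwa [hrinv] at this
    have hXy : T.X (r * x * T.θ r) β = ε • (-(geo cs r γ)) := by
      rw [T.X_conj, hr.apply_self, map_neg, hX, map_neg, map_smul]
      module
    have hcy : bil M β (-(geo cs r γ)) = bil M β γ := by
      rw [hr.apply, map_neg, map_sub, map_smul, hr.norm]
      simp only [smul_eq_mul]; ring
    have hney : -(geo cs r γ) ≠ β := by
      intro h1
      apply hne
      have h2 : geo cs r γ = -β := by rw [← h1, neg_neg]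
      rw [h2, map_neg, hr.apply_self, neg_neg] at hgg
      exact hgg.symm
    have hht : ht β ≤ ht (-(geo cs r (-(geo cs r γ)))) := by
      have e0 : geo cs r (-(geo cs r γ)) = -γ := by rw [map_neg, hgg]
      rw [e0, neg_neg]
      rw [hr.apply, map_neg, map_sub, map_smul, smul_eq_mul] at h
      have hp := hr.ht_pos hβ
      nlinarith
    have hres := T.chain_oriented hy hr hβ hrδ (neg_nonneg.2 hδ) hε hXy (by rw [hcy]; exact hc)
      (by rw [map_neg, hgg]; exact neg_nonpos.2 hγ) hney hht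
    have e : r * (r * x * T.θ r) * T.θ r = x := by
      have h1 : T.θ r * T.θ r = 1 := by rw [← map_mul, hrr, map_one]
      calc r * (r * x * T.θ r) * T.θ r = (r * r) * x * (T.θ r * T.θ r) := by group
        _ = x := by rw [hrr, h1]; simp
    rw [e] at hres
    exact hres.symm

end Tw

end Pool.Agent.Q87.Cox.Geo
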