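import Mathlib

set_option autoImplicit false

/-! The strong exchange property for Coxeter systems, by the action on `W × ZMod 2`. -/

namespace Pool.Agent.Q87.Cox

open CoxeterSystem

universe u v

variable {B : Type u} {W : Type v} [Group W] {M : CoxeterMatrix B} (cs : CoxeterSystem M W)

open Classical in
/-- One simple reflection acting on `W × ZMod 2`. -/
noncomputable def eta (i : B) : Equiv.Perm (W × ZMod 2) where
  toFun p := (cs.simple i * p.1 * cs.simple i, p.2 + if p.1 = cs.simple i then 1 else 0)
  invFun p := (cs.simple i * p.1 * cs.simple i, p.2 + if p.1 = cs.simple i then 1 else 0)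
  left_inv := by
    rintro ⟨t, z⟩
    have h : cs.simple i * t * cs.simple i = cs.simple i ↔ t = cs.simple i := by
      constructor
      · intro h
        have h2 : cs.simple i * t = 1 := by
          have := congrArg (· * cs.simple i) h
          simpa [mul_assoc] using this
        have h3 := congrArg (cs.simple i * ·) h2
        simpa using h3
      · rintro rfl; simp
    ext
    · simp [mul_assoc]
    · simp only [h]
      split_ifs
      · have : (1 : ZMod 2) + 1 = 0 := by decide
        simp [add_assoc, this]
      · simp
  right_inv := by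
    rintro ⟨t, z⟩
    have h : cs.simple i * t * cs.simple i = cs.simple i ↔ t = cs.simple i := by
      constructor
      · intro h
        have h2 : cs.simple i * t = 1 := by
          have := congrArg (· * cs.simple i) h
          simpa [mul_assoc] using this
        have h3 := congrArg (cs.simple i * ·) h2
        simpa using h3
      · rintro rfl; simp
    ext
    · simp [mul_assoc]
    · simp only [h]
      split_ifs
      · have : (1 : ZMod 2) + 1 = 0 := by decide
        simp [add_assoc, this]
      · simp

open Classical in
theorem eta_apply (i : B) (t : W) (z : ZMod 2) :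
    eta cs i (t, z) = (cs.simple i * t * cs.simple i,
      z + if t = cs.simple i then 1 else 0) := rfl

open Classical in
theorem eta_mul_pow (i j : B) (t : W) (z : ZMod 2) (k : ℕ) :
    ((eta cs i * eta cs j) ^ k) (t, z) =
      ((cs.simple i * cs.simple j) ^ k * t * (cs.simple j * cs.simple i) ^ k,
        z + ∑ r ∈ Finset.range (2 * k),
          if t = (cs.simple j * cs.simple i) ^ r * cs.simple j then 1 else 0) := by
  induction k with
  | zero => simp
  | succ k ih =>
    rw [pow_succ', Equiv.Perm.mul_apply, ih, Equiv.Perm.mul_apply, eta_apply, eta_apply]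
    have hji : ∀ n : ℕ, (cs.simple i * cs.simple j) ^ n * (cs.simple j * cs.simple i) ^ n = 1 := by
      intro n
      have h1 : (cs.simple j * cs.simple i) = (cs.simple i * cs.simple j)⁻¹ := by
        simp [mul_inv_rev]
      rw [h1, inv_pow, mul_inv_cancel]
    have hij : ∀ n : ℕ, (cs.simple j * cs.simple i) ^ n * (cs.simple i * cs.simple j) ^ n = 1 := by
      intro n
      have h1 : (cs.simple j * cs.simple i) = (cs.simple i * cs.simple j)⁻¹ := by
        simp [mul_inv_rev]
      rw [h1, inv_pow, inv_mul_cancel]
    have hsj : ∀ n : ℕ, cs.simple j * (cs.simple i * cs.simple j) ^ n =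
        (cs.simple j * cs.simple i) ^ n * cs.simple j := by
      intro n
      induction n with
      | zero => simp
      | succ n ihn =>
        rw [pow_succ', pow_succ', ← mul_assoc, ← mul_assoc, mul_assoc _ (cs.simple j), ihn]
        simp only [mul_assoc]
    have key : ∀ (x y : W) (n : ℕ), (cs.simple i * cs.simple j) ^ n * x *
        (cs.simple j * cs.simple i) ^ n = y ↔
        x = (cs.simple j * cs.simple i) ^ n * y * (cs.simple i * cs.simple j) ^ n := by
      intro x y n
      constructor
      · rintro rfl
        have := hij n
        calc x = ((cs.simple j * cs.simple i) ^ n * (cs.simple i * cs.simple j) ^ n) * x *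
              ((cs.simple j * cs.simple i) ^ n * (cs.simple i * cs.simple j) ^ n) := by
                rw [this]; simp
          _ = _ := by simp only [mul_assoc]
      · rintro rfl
        have := hji n
        calc _ = ((cs.simple i * cs.simple j) ^ n * (cs.simple j * cs.simple i) ^ n) * y *
              ((cs.simple i * cs.simple j) ^ n * (cs.simple j * cs.simple i) ^ n) := by
                simp only [mul_assoc]
          _ = y := by rw [this]; simp
    have e1 : ((cs.simple i * cs.simple j) ^ k * t * (cs.simple j * cs.simple i) ^ k =
        cs.simple j) ↔ t = (cs.simple j * cs.simple i) ^ (2 * k) * cs.simple j := by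
      rw [key, mul_assoc, hsj, ← mul_assoc, ← pow_add, two_mul]
    have e2 : (cs.simple j * ((cs.simple i * cs.simple j) ^ k * t *
        (cs.simple j * cs.simple i) ^ k) * cs.simple j = cs.simple i) ↔
        t = (cs.simple j * cs.simple i) ^ (2 * k + 1) * cs.simple j := by
      have h1 : (cs.simple j * ((cs.simple i * cs.simple j) ^ k * t *
        (cs.simple j * cs.simple i) ^ k) * cs.simple j = cs.simple i) ↔
        ((cs.simple i * cs.simple j) ^ k * t * (cs.simple j * cs.simple i) ^ k =
          cs.simple j * cs.simple i * cs.simple j) := by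
        constructor
        · intro h
          have h' := congrArg (fun x => cs.simple j * x * cs.simple j) h
          simpa [mul_assoc] using h'
        · intro h
          rw [h]; simp [mul_assoc]
      rw [h1, key, mul_assoc, mul_assoc _ (cs.simple j) ((cs.simple i * cs.simple j) ^ k), hsj,
        ← mul_assoc, ← mul_assoc, ← pow_succ, ← pow_add]
      congr! 3
      ring
    ext
    · simp only [pow_succ' (cs.simple i * cs.simple j), pow_succ (cs.simple j * cs.simple i)]
      simp only [mul_assoc]
    · simp only [e1, e2]
      rw [show 2 * (k + 1) = 2 * k + 1 + 1 by ring, Finset.sum_range_succ, Finset.sum_range_succ]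
      ring

theorem eta_liftable : M.IsLiftable (eta cs) := by
  classical
  intro i j
  ext1 ⟨t, z⟩
  rw [eta_mul_pow]
  have h1 : (cs.simple i * cs.simple j) ^ M i j = 1 := cs.simple_mul_simple_pow i j
  have h2 : (cs.simple j * cs.simple i) ^ M i j = 1 := cs.simple_mul_simple_pow' i j
  rw [h1, h2, two_mul, Finset.sum_range_add]
  have h3 : ∀ r : ℕ, (cs.simple j * cs.simple i) ^ (M i j + r) = (cs.simple j * cs.simple i) ^ r := by
    intro r
    rw [pow_add, h2, one_mul]
  simp only [h3]
  have h4 : ∀ a : ZMod 2, a + a = 0 := by decide
  rw [h4]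
  simp

/-- The action of `W` on `W × ZMod 2`. -/
noncomputable def phi : W →* Equiv.Perm (W × ZMod 2) := cs.lift ⟨eta cs, eta_liftable cs⟩

theorem phi_simple (i : B) : phi cs (cs.simple i) = eta cs i :=
  cs.lift_apply_simple (eta_liftable cs) i

/-- The parity function. -/
noncomputable def par (w t : W) : ZMod 2 := (phi cs w (t, 0)).2

theorem phi_apply (w t : W) (z : ZMod 2) : phi cs w (t, z) = (w * t * w⁻¹, z + par cs w t) := by
  classical
  induction w using cs.simple_induction_left generalizing t z with
  | one => simp [par]
  | mul_simple_left w i ih =>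
    have h : phi cs (cs.simple i * w) (t, 0) = (cs.simple i * (w * t * w⁻¹) * cs.simple i,
        0 + par cs w t + if w * t * w⁻¹ = cs.simple i then 1 else 0) := by
      rw [map_mul, Equiv.Perm.mul_apply, ih, phi_simple, eta_apply]
    rw [map_mul, Equiv.Perm.mul_apply, ih, phi_simple, eta_apply]
    ext
    · simp [mul_assoc]
    · unfold par
      rw [h]
      simp only [par]
      ring

theorem par_mul (w w' t : W) : par cs (w * w') t = par cs w' t + par cs w (w' * t * w'⁻¹) := by
  have h : phi cs (w * w') (t, 0) = phi cs w (phi cs w' (t, 0)) := by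
    rw [map_mul, Equiv.Perm.mul_apply]
  rw [phi_apply, phi_apply, phi_apply] at h
  have h2 := congrArg Prod.snd h
  simpa using h2

theorem par_one (t : W) : par cs 1 t = 0 := by simp [par]

open Classical in
theorem par_simple (i : B) (t : W) : par cs (cs.simple i) t =
    if t = cs.simple i then 1 else 0 := by
  unfold par
  rw [phi_simple, eta_apply]
  simp

theorem par_self {t : W} (ht : cs.IsReflection t) : par cs t t = 1 := by
  classical
  obtain ⟨w, i, rfl⟩ := ht
  rw [par_mul, par_mul]
  have h1 : w⁻¹ * (w * cs.simple i * w⁻¹) * w⁻¹⁻¹ = cs.simple i := by group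
  rw [h1, par_simple]
  have h2 : cs.simple i * cs.simple i * (cs.simple i)⁻¹ = cs.simple i := by group
  rw [h2]
  have h3 : par cs (w * w⁻¹) (w * cs.simple i * w⁻¹) = 0 := by
    rw [mul_inv_cancel, par_one]
  rw [par_mul, h1] at h3
  rw [if_pos rfl]
  linear_combination h3

theorem mem_rightInvSeq_of_par (ω : List B) (t : W) (h : par cs (cs.wordProd ω) t ≠ 0) :
    t ∈ cs.rightInvSeq ω := by
  classical
  induction ω with
  | nil => simp [par_one] at h
  | cons i ω ih =>
    rw [cs.wordProd_cons, par_mul] at h
    rw [CoxeterSystem.rightInvSeq, List.mem_cons]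
    by_cases h1 : par cs (cs.wordProd ω) t = 0
    · left
      rw [h1, zero_add, par_simple] at h
      split_ifs at h with h2
      · rw [← h2]; group
      · exact absurd rfl h
    · right; exact ih h1

/-- Strong exchange property. -/
theorem strong_exchange (ω : List B) {t : W} (ht : cs.IsReflection t)
    (h : cs.length (cs.wordProd ω * t) < cs.length (cs.wordProd ω)) :
    ∃ j, j < ω.length ∧ cs.wordProd (ω.eraseIdx j) = cs.wordProd ω * t := by
  have key : t ∈ cs.rightInvSeq ω := by
    by_contra hn
    have h0 : par cs (cs.wordProd ω) t = 0 := by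
      by_contra h0
      exact hn (mem_rightInvSeq_of_par cs ω t h0)
    have h1 : par cs (cs.wordProd ω * t) t = 1 := by
      rw [par_mul, par_self cs ht]
      have : t * t * t⁻¹ = t := by group
      rw [this, h0, add_zero]
    obtain ⟨ω', hω', hp⟩ := cs.exists_isReduced (cs.wordProd ω * t)
    have h2 : t ∈ cs.rightInvSeq ω' := by
      apply mem_rightInvSeq_of_par
      rw [← hp, h1]
      decide
    have h3 := (cs.isRightInversion_of_mem_rightInvSeq hω' h2).2
    rw [← hp, mul_assoc, ht.mul_self, mul_one] at h3
    omega
  obtain ⟨j, hj, hjt⟩ := List.mem_iff_getElem.mp key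
  rw [cs.length_rightInvSeq] at hj
  refine ⟨j, hj, ?_⟩
  rw [← cs.wordProd_mul_getD_rightInvSeq]
  congr 1
  rw [List.getD_eq_getElem _ _ (by rw [cs.length_rightInvSeq]; exact hj)]
  exact hjt

end Pool.Agent.Q87.Cox
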