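import Mathlib

set_option autoImplicit false

/-! A lexicographic positivity notion on `B →₀ ℝ`. -/

namespace Pool.Agent.Q87.Cox.Geo

variable {B : Type*}

/-- Lexicographically positive. -/
def LPos (v : B →₀ ℝ) : Prop := ∃ i, 0 < v i ∧ ∀ j, WellOrderingRel j i → v j = 0

lemma LPos.ne_zero {v : B →₀ ℝ} (h : LPos v) : v ≠ 0 := by
  rintro rfl
  obtain ⟨i, hi, _⟩ := h
  simp at hi

lemma lpos_or {v : B →₀ ℝ} (h : v ≠ 0) : LPos v ∨ LPos (-v) := by
  have hne : {i | v i ≠ 0}.Nonempty := by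
    by_contra hcon
    rw [Set.not_nonempty_iff_eq_empty] at hcon
    apply h
    ext i
    by_contra hi
    have : i ∈ {i | v i ≠ 0} := hi
    rw [hcon] at this
    exact this
  have wf : WellFounded (WellOrderingRel (α := B)) := IsWellFounded.wf
  set i := wf.min {i | v i ≠ 0} hne with hi
  have h1 : v i ≠ 0 := wf.min_mem {i | v i ≠ 0} hne
  have h2 : ∀ j, WellOrderingRel j i → v j = 0 := by
    intro j hj
    by_contra hcon
    exact wf.not_lt_min {i | v i ≠ 0} hcon hj
  rcases lt_or_gt_of_ne h1 with h3 | h3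
  · right
    exact ⟨i, by simpa using h3, fun j hj => by simp [h2 j hj]⟩
  · left
    exact ⟨i, h3, h2⟩

lemma LPos.add {v w : B →₀ ℝ} (h : LPos v) (k : LPos w) : LPos (v + w) := by
  obtain ⟨i, hi, hi'⟩ := h
  obtain ⟨j, hj, hj'⟩ := k
  rcases trichotomous_of (WellOrderingRel (α := B)) i j with hij | hij | hij
  · refine ⟨i, ?_, ?_⟩
    · rw [Finsupp.add_apply, hj' i hij]; linarith
    · intro l hl
      rw [Finsupp.add_apply, hi' l hl, hj' l (_root_.trans hl hij), add_zero]
  · subst hij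
    refine ⟨i, ?_, ?_⟩
    · rw [Finsupp.add_apply]; linarith
    · intro l hl
      rw [Finsupp.add_apply, hi' l hl, hj' l hl, add_zero]
  · refine ⟨j, ?_, ?_⟩
    · rw [Finsupp.add_apply, hi' j hij]; linarith
    · intro l hl
      rw [Finsupp.add_apply, hj' l hl, hi' l (_root_.trans hl hij), add_zero]

lemma LPos.smul {v : B →₀ ℝ} (h : LPos v) {a : ℝ} (ha : 0 < a) : LPos (a • v) := by
  obtain ⟨i, hi, hi'⟩ := h
  refine ⟨i, ?_, ?_⟩
  · rw [Finsupp.smul_apply, smul_eq_mul]; positivity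
  · intro j hj
    rw [Finsupp.smul_apply, hi' j hj, smul_zero]

lemma LPos.not_neg {v : B →₀ ℝ} (h : LPos v) : ¬ LPos (-v) := by
  intro k
  have := (h.add k).ne_zero
  simp at this

lemma lpos_of_nonneg {v : B →₀ ℝ} (h : 0 ≤ v) (h0 : v ≠ 0) : LPos v := by
  rcases lpos_or h0 with h1 | h1
  · exact h1
  · obtain ⟨i, hi, _⟩ := h1
    have h2 : 0 ≤ v i := by simpa using h i
    simp only [Finsupp.coe_neg, Pi.neg_apply] at hi
    linarith

/-- Lexicographically nonnegative. -/
def LNonneg (v : B →₀ ℝ) : Prop := v = 0 ∨ LPos v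

lemma LNonneg.add {v w : B →₀ ℝ} (h : LNonneg v) (k : LNonneg w) : LNonneg (v + w) := by
  rcases h with rfl | h
  · rw [zero_add]; exact k
  · rcases k with rfl | k
    · rw [add_zero]; exact Or.inr h
    · exact Or.inr (h.add k)

lemma LNonneg.smul {v : B →₀ ℝ} (h : LNonneg v) {a : ℝ} (ha : 0 ≤ a) : LNonneg (a • v) := by
  rcases h with rfl | h
  · left; simp
  · rcases ha.eq_or_lt with ha | ha
    · left; rw [← ha, zero_smul]
    · exact Or.inr (h.smul ha)

lemma lnonneg_of_nonneg {v : B →₀ ℝ} (h : 0 ≤ v) : LNonneg v := by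
  by_cases h0 : v = 0
  · exact Or.inl h0
  · exact Or.inr (lpos_of_nonneg h h0)

lemma LNonneg.not_neg {v : B →₀ ℝ} (h : LNonneg v) : ¬ LPos (-v) := by
  rcases h with rfl | h
  · intro k; exact k.ne_zero (by simp)
  · exact h.not_neg

lemma lnonneg_of_not_neg {v : B →₀ ℝ} (h : ¬ LPos (-v)) : LNonneg v := by
  by_cases h0 : v = 0
  · exact Or.inl h0
  · exact Or.inr ((lpos_or h0).resolve_right h)

lemma lnonneg_sum {ι : Type*} (s : Finset ι) (f : ι → (B →₀ ℝ)) (h : ∀ i ∈ s, LNonneg (f i)) :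
    LNonneg (∑ i ∈ s, f i) := by
  classical
  induction s using Finset.induction_on with
  | empty => left; simp
  | insert a s ha ih =>
    rw [Finset.sum_insert ha]
    exact (h a (by simp)).add (ih (fun i hi => h i (by simp [hi])))

/-- If a sum of lexicographically nonnegative vectors vanishes, so do the terms. -/
lemma eq_zero_of_sum {ι : Type*} (s : Finset ι) (f : ι → (B →₀ ℝ)) (h : ∀ i ∈ s, LNonneg (f i))
    (h0 : ∑ i ∈ s, f i = 0) : ∀ i ∈ s, f i = 0 := by
  classical
  intro i hi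
  rcases h i hi with h1 | h1
  · exact h1
  · exfalso
    rw [← Finset.add_sum_erase s f hi] at h0
    have h2 := lnonneg_sum (s.erase i) f (fun j hj => h j (Finset.mem_of_mem_erase hj))
    have h3 : LPos (f i + ∑ j ∈ s.erase i, f j) := by
      rcases h2 with h2 | h2
      · rw [h2, add_zero]; exact h1
      · exact h1.add h2
    exact h3.ne_zero h0

end Pool.Agent.Q87.Cox.Geo
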