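import Pool.Agent.Q87.Cox.Bruhat

set_option autoImplicit false

/-! Standard parabolic subgroups, minimal coset representatives. -/

namespace Pool.Agent.Q87.Cox

open CoxeterSystem

universe u v

variable {B : Type u} {W : Type v} [Group W] {M : CoxeterMatrix B} (cs : CoxeterSystem M W)

/-- `u` is of minimal length in its left coset of `W_J`: `ℓ(us) > ℓ(u)` for `s ∈ J`. -/
def IsMin (J : Set W) (u : W) : Prop := ∀ s ∈ J, cs.length u < cs.length (u * s)

variable {cs}

theorem br_one (v : W) : Br cs 1 v := by
  obtain ⟨ω, r, rfl⟩ := exists_reduced (cs := cs) v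
  have := br_of_sublist r (List.nil_sublist ω)
  simpa using this

theorem exists_word_of_mem {J : Set W} (hJ : J ⊆ Set.range cs.simple) {v : W}
    (hv : v ∈ Subgroup.closure J) :
    ∃ ω : List B, (∀ i ∈ ω, cs.simple i ∈ J) ∧ cs.wordProd ω = v := by
  induction hv using Subgroup.closure_induction with
  | mem x hx =>
    obtain ⟨i, rfl⟩ := hJ hx
    exact ⟨[i], by simpa using hx, by simp⟩
  | one => exact ⟨[], by simp, by simp⟩
  | mul x y _ _ ihx ihy =>
    obtain ⟨ω₁, h₁, rfl⟩ := ihx
    obtain ⟨ω₂, h₂, rfl⟩ := ihy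
    refine ⟨ω₁ ++ ω₂, ?_, by rw [cs.wordProd_append]⟩
    intro i hi
    rcases List.mem_append.1 hi with hi | hi
    · exact h₁ i hi
    · exact h₂ i hi
  | inv x _ ih =>
    obtain ⟨ω, h, rfl⟩ := ih
    refine ⟨ω.reverse, ?_, by rw [cs.wordProd_reverse]⟩
    intro i hi
    exact h i (List.mem_reverse.1 hi)

theorem wordProd_mem {J : Set W} {ω : List B} (h : ∀ i ∈ ω, cs.simple i ∈ J) :
    cs.wordProd ω ∈ Subgroup.closure J := by
  induction ω with
  | nil => simp [Subgroup.one_mem]
  | cons i ω ih =>
    rw [cs.wordProd_cons]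
    exact Subgroup.mul_mem _ (Subgroup.subset_closure (h i (by simp)))
      (ih (fun j hj => h j (by simp [hj])))

/-- The simple reflections occurring in a reduced word are those below its product. -/
theorem letter_of_br {ω : List B} {i : B} (h : Br cs (cs.simple i) (cs.wordProd ω)) :
    ∃ j ∈ ω, cs.simple j = cs.simple i := by
  obtain ⟨ω₁, hs, hp⟩ := h.exists_sublist
  obtain ⟨ω₂, hs₂, hr, hp₂⟩ := exists_reduced_sublist (cs := cs) ω₁
  have hl := hr.eq
  rw [hp₂, hp, cs.length_simple] at hl
  obtain ⟨j, rfl⟩ := List.length_eq_one_iff.1 hl.symm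
  refine ⟨j, (hs₂.trans hs).subset (by simp), ?_⟩
  rw [← hp, ← hp₂]; simp

theorem letter_br {ω : List B} (hr : cs.IsReduced ω) {i : B} (hi : i ∈ ω) :
    Br cs (cs.simple i) (cs.wordProd ω) := by
  have := br_of_sublist hr (List.singleton_sublist.2 hi)
  simpa using this

/-- Letters of reduced words of elements of `W_J` are in `J`. -/
theorem letters_mem {J : Set W} (hJ : J ⊆ Set.range cs.simple) {ω : List B}
    (hr : cs.IsReduced ω) (hv : cs.wordProd ω ∈ Subgroup.closure J) :
    ∀ i ∈ ω, cs.simple i ∈ J := by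
  intro i hi
  obtain ⟨σ, hσ, hp⟩ := exists_word_of_mem hJ hv
  have h := letter_br hr hi
  rw [← hp] at h
  obtain ⟨j, hj, he⟩ := letter_of_br h
  rw [← he]; exact hσ j hj

theorem add_of_coset_min {J : Set W} {u : W}
    (hu : ∀ v ∈ Subgroup.closure J, cs.length u ≤ cs.length (u * v)) (ω : List B)
    (hr : cs.IsReduced ω) (hJω : ∀ i ∈ ω, cs.simple i ∈ J) :
    cs.length (u * cs.wordProd ω) = cs.length u + ω.length := by
  obtain ⟨α, hα, hαu⟩ := exists_reduced (cs := cs) u
  induction ω using List.reverseRecOn with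
  | nil => simp
  | append_singleton ω i ih =>
    have hr' : cs.IsReduced ω := by
      have := hr.take ω.length
      simpa using this
    have hω : ∀ j ∈ ω, cs.simple j ∈ J := fun j hj => hJω j (by simp [hj])
    have hi : cs.simple i ∈ J := hJω i (by simp)
    have ih' := ih hr' hω
    rw [cs.wordProd_append, cs.wordProd_singleton, ← mul_assoc, List.length_append,
      List.length_singleton]
    rcases cs.length_mul_simple (u * cs.wordProd ω) i with h | h
    · omega
    · exfalso
      have hw : cs.wordProd (α ++ ω) = u * cs.wordProd ω := by rw [cs.wordProd_append, hαu]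
      obtain ⟨j, hj, hjp⟩ := strong_exchange cs (α ++ ω) (cs.isReflection_simple i)
        (by rw [hw]; omega)
      rw [hw] at hjp
      by_cases hj2 : j < α.length
      · rw [List.eraseIdx_append_of_lt_length hj2, cs.wordProd_append] at hjp
        have h4 : cs.wordProd (α.eraseIdx j) =
            u * (cs.wordProd ω * cs.simple i * (cs.wordProd ω)⁻¹) := by
          rw [← mul_assoc, ← mul_assoc, ← hjp]; simp
        have hm : cs.wordProd ω * cs.simple i * (cs.wordProd ω)⁻¹ ∈ Subgroup.closure J :=
          Subgroup.mul_mem _ (Subgroup.mul_mem _ (wordProd_mem hω)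
            (Subgroup.subset_closure hi)) (Subgroup.inv_mem _ (wordProd_mem hω))
        have h5 := hu _ hm
        rw [← h4] at h5
        have h6 := cs.length_wordProd_le (α.eraseIdx j)
        have h7 := List.length_eraseIdx_add_one hj2
        have h8 := hα.eq
        rw [hαu] at h8
        omega
      · rw [List.eraseIdx_append_of_length_le (by omega), cs.wordProd_append, hαu,
          mul_assoc] at hjp
        have h4 := mul_left_cancel hjp
        have h5 := cs.length_wordProd_le (ω.eraseIdx (j - α.length))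
        have hj3 : j - α.length < ω.length := by
          rw [List.length_append] at hj; omega
        have h6 := List.length_eraseIdx_add_one hj3
        have h7 := hr.eq
        rw [cs.wordProd_append, cs.wordProd_singleton, List.length_append,
          List.length_singleton] at h7
        rw [h4, h7] at h5
        omega

theorem exists_fact' (J : Set W) (w : W) : ∃ u v : W,
    (∀ x ∈ Subgroup.closure J, cs.length u ≤ cs.length (u * x)) ∧ v ∈ Subgroup.closure J ∧
      u * v = w := by
  classical
  let P : ℕ → Prop := fun n => ∃ v ∈ Subgroup.closure J, cs.length (w * v) = n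
  have hP : ∃ n, P n := ⟨cs.length (w * 1), 1, Subgroup.one_mem _, rfl⟩
  obtain ⟨v, hv, hl⟩ := Nat.find_spec hP
  refine ⟨w * v, v⁻¹, ?_, Subgroup.inv_mem _ hv, by simp⟩
  intro x hx
  rw [hl]
  exact Nat.find_min' hP ⟨v * x, Subgroup.mul_mem _ hv hx, by rw [mul_assoc]⟩

/-- Length additivity for `u` minimal, `v ∈ W_J`. -/
theorem IsMin.length_mul {J : Set W} (hJ : J ⊆ Set.range cs.simple) {u v : W}
    (hu : IsMin cs J u) (hv : v ∈ Subgroup.closure J) :
    cs.length (u * v) = cs.length u + cs.length v := by
  obtain ⟨u₀, v₀, hu₀, hv₀, hp⟩ := exists_fact' (cs := cs) J u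
  have add0 : ∀ x ∈ Subgroup.closure J, cs.length (u₀ * x) = cs.length u₀ + cs.length x := by
    intro x hx
    obtain ⟨ω, r, rfl⟩ := exists_reduced (cs := cs) x
    rw [add_of_coset_min hu₀ ω r (letters_mem hJ r hx), r.eq]
  have h1 : v₀ = 1 := by
    by_contra hne
    obtain ⟨ω, r, hω⟩ := exists_reduced (cs := cs) v₀
    rcases List.eq_nil_or_concat ω with rfl | ⟨σ, i, rfl⟩
    · exact hne (by rw [← hω]; simp)
    · rw [List.concat_eq_append] at r hω
      have hmem := letters_mem hJ r (by rw [hω]; exact hv₀)
      have hi : cs.simple i ∈ J := hmem i (by simp)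
      have h2 := hu _ hi
      rw [← hp, mul_assoc, add0 v₀ hv₀, add0 (v₀ * cs.simple i)
        (Subgroup.mul_mem _ hv₀ (Subgroup.subset_closure hi))] at h2
      have h3 : v₀ * cs.simple i = cs.wordProd σ := by
        rw [← hω, cs.wordProd_append]; simp
      have h4 := cs.length_wordProd_le σ
      have h5 := r.eq
      rw [hω, List.length_append, List.length_singleton] at h5
      rw [h3] at h2
      omega
  rw [h1, mul_one] at hp
  rw [← hp]
  exact add0 v hv

theorem simple_mul_ne {i : B} (w : W) : cs.length (w * cs.simple i) ≠ cs.length w :=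
  cs.length_mul_simple_ne w i

/-- Existence of the parabolic factorisation. -/
theorem exists_fact {J : Set W} (hJ : J ⊆ Set.range cs.simple) (w : W) : ∃ u v : W,
    IsMin cs J u ∧ v ∈ Subgroup.closure J ∧ u * v = w := by
  obtain ⟨u, v, hu, hv, hp⟩ := exists_fact' (cs := cs) J w
  refine ⟨u, v, ?_, hv, hp⟩
  intro s hs
  obtain ⟨i, rfl⟩ := hJ hs
  have h1 := hu _ (Subgroup.subset_closure hs)
  have h2 := cs.length_mul_simple_ne u i
  omega

/-- Uniqueness of the parabolic factorisation. -/
theorem fact_unique {J : Set W} (hJ : J ⊆ Set.range cs.simple) {u v u' v' : W}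
    (hu : IsMin cs J u) (hv : v ∈ Subgroup.closure J) (hu' : IsMin cs J u')
    (hv' : v' ∈ Subgroup.closure J) (h : u * v = u' * v') : u = u' ∧ v = v' := by
  have e1 : u' = u * (v * v'⁻¹) := by rw [← mul_assoc, h]; simp
  have e2 : u = u' * (v' * v⁻¹) := by rw [← mul_assoc, ← h]; simp
  have m1 : v * v'⁻¹ ∈ Subgroup.closure J := Subgroup.mul_mem _ hv (Subgroup.inv_mem _ hv')
  have m2 : v' * v⁻¹ ∈ Subgroup.closure J := Subgroup.mul_mem _ hv' (Subgroup.inv_mem _ hv)
  have l1 := hu.length_mul hJ m1
  have l2 := hu'.length_mul hJ m2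
  rw [← e1] at l1
  rw [← e2] at l2
  have h0 : cs.length (v * v'⁻¹) = 0 := by omega
  rw [cs.length_eq_zero_iff] at h0
  have hv2 : v = v' := by
    have := mul_inv_eq_one.1 h0
    exact this
  refine ⟨?_, hv2⟩
  rw [hv2] at h
  exact mul_right_cancel h

/-- If `u` is `J`-minimal and `u ≤ ab` with `a` `J`-minimal, `b ∈ W_J`, then `u ≤ a`. -/
theorem IsMin.br_of_br {J : Set W} (hJ : J ⊆ Set.range cs.simple) {u a b : W}
    (hu : IsMin cs J u) (ha : IsMin cs J a) (hb : b ∈ Subgroup.closure J)
    (h : Br cs u (a * b)) : Br cs u a := by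
  obtain ⟨ω, r, hω⟩ := exists_reduced (cs := cs) b
  induction ω using List.reverseRecOn generalizing b with
  | nil =>
    have : b = 1 := by rw [← hω]; simp
    rw [this, mul_one] at h
    exact h
  | append_singleton ω i ih =>
    have hmem := letters_mem hJ r (by rw [hω]; exact hb)
    have hi : cs.simple i ∈ J := hmem i (by simp)
    have hr' : cs.IsReduced ω := by
      have := r.take ω.length
      simpa using this
    have hω' : ∀ j ∈ ω, cs.simple j ∈ J := fun j hj => hmem j (by simp [hj])
    have hbs : b * cs.simple i = cs.wordProd ω := by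
      rw [← hω, cs.wordProd_append]; simp
    have hm : cs.wordProd ω ∈ Subgroup.closure J := wordProd_mem hω'
    refine ih hm ?_ hr' rfl
    rw [← hbs, ← mul_assoc]
    apply h.lift
    · rw [mul_assoc, hbs, ha.length_mul hJ hm, ha.length_mul hJ hb, ← hω, hr'.eq, r.eq,
        List.length_append, List.length_singleton]
      omega
    · exact hu _ hi

end Pool.Agent.Q87.Cox
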