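import Pool.Agent.Q87.Cox.TwMain

set_option autoImplicit false

/-! The extended group `W⁺ = W ⋊ Aut(W, S)` and its twisted involutions. -/

namespace Pool.Agent.Q87.Cox

open CoxeterSystem

universe u v

variable {B : Type u} {W : Type v} [Group W] {M : CoxeterMatrix B} (cs : CoxeterSystem M W)

/-- `Aut(W, S)`: the automorphisms of `W` mapping `S` onto itself. -/
def AutWS : Subgroup (MulAut W) where
  carrier := {θ | (fun w => θ w) '' Set.range cs.simple = Set.range cs.simple}
  one_mem' := by simp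
  mul_mem' := by
    intro a b ha hb
    simp only [Set.mem_ofPred_eq] at ha hb ⊢
    have : (fun w => (a * b) w) = (fun w => a w) ∘ (fun w => b w) := rfl
    rw [this, Set.image_comp, hb, ha]
  inv_mem' := by
    intro a ha
    simp only [Set.mem_ofPred_eq] at ha ⊢
    conv_lhs => rw [← ha]
    rw [← Set.image_comp]
    have : (fun w => a⁻¹ w) ∘ (fun w => a w) = id := by
      funext w; simp
    rw [this, Set.image_id]

/-- `W⁺ = W ⋊ Aut(W, S)`. -/
abbrev Wplus : Type v := W ⋊[(AutWS cs).subtype] (AutWS cs)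

variable {cs}

/-- The length of `(w, θ)` is the length of `w`. -/
noncomputable def Wplus.len (x : Wplus cs) : ℕ := cs.length x.left

/-- The inclusion of `W` in `W⁺`. -/
def Wplus.emb (w : W) : Wplus cs := SemidirectProduct.inl w

/-- The Bruhat order on `W`: generated by `v < vt` for reflections `t` with `ℓ(v) < ℓ(vt)`. -/
def Bruhat (cs : CoxeterSystem M W) (v w : W) : Prop :=
  Relation.ReflTransGen (fun a b => ∃ t, cs.IsReflection t ∧ b = a * t ∧
    cs.length a < cs.length b) v w

/-- The Bruhat order on `W⁺`. -/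
def Wplus.le (x y : Wplus cs) : Prop := x.right = y.right ∧ Bruhat cs x.left y.left

/-- The `W`-conjugacy class of `x₀` in `W⁺`. -/
def Wplus.cls (x₀ : Wplus cs) : Set (Wplus cs) :=
  {x | ∃ u : W, x = Wplus.emb u * x₀ * (Wplus.emb u)⁻¹}

/-- (QP1) for `K`: if `ℓ(rwr) = ℓ(w)` then `rwr = w`, for reflections `r` and `w ∈ K`. -/
def Wplus.QP1 (K : Set (Wplus cs)) : Prop :=
  ∀ r : W, cs.IsReflection r → ∀ w ∈ K,
    (Wplus.emb r * w * Wplus.emb r).len = w.len → Wplus.emb r * w * Wplus.emb r = w

namespace Wplus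

lemma left_conj (u : W) (x : Wplus cs) :
    (emb u * x * (emb u)⁻¹).left = u * x.left * (x.right.1 u)⁻¹ ∧
      (emb u * x * (emb u)⁻¹).right = x.right := by
  unfold emb
  constructor
  · rw [← map_inv]
    simp [SemidirectProduct.mul_left, SemidirectProduct.mul_right]
  · rw [← map_inv]
    simp [SemidirectProduct.mul_right]

lemma left_conj' {r : W} (hr : r * r = 1) (x : Wplus cs) :
    (emb r * x * emb r).left = r * x.left * (x.right.1 r) ∧
      (emb r * x * emb r).right = x.right := by
  have h1 : (emb r : Wplus cs)⁻¹ = emb r := by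
    unfold emb
    rw [← map_inv, inv_eq_of_mul_eq_one_left hr]
  have h2 := left_conj r x
  rw [h1] at h2
  refine ⟨?_, h2.2⟩
  rw [h2.1]
  have h3 : (x.right.1 r)⁻¹ = x.right.1 r := by
    rw [← map_inv, inv_eq_of_mul_eq_one_left hr]
  rw [h3]

/-- The comparability theorem in `W⁺`. -/
theorem comparable {x₀ : Wplus cs} (h0 : x₀ * x₀ = 1) (hQ : QP1 (cls x₀)) {r : W}
    (hr : cs.IsReflection r) {w : Wplus cs} (hw : w ∈ cls x₀) :
    Br cs w.left (emb r * w * emb r).left ∨ Br cs (emb r * w * emb r).left w.left := by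
  have hrr : r * r = 1 := hr.mul_self
  obtain ⟨u, rfl⟩ := hw
  set w : Wplus cs := emb u * x₀ * (emb u)⁻¹ with hwdef
  have hww : w * w = 1 := by
    rw [hwdef]
    calc emb u * x₀ * (emb u)⁻¹ * (emb u * x₀ * (emb u)⁻¹) = emb u * (x₀ * x₀) * (emb u)⁻¹ := by
          group
      _ = 1 := by rw [h0]; group
  have hr1 : w.right * w.right = 1 := by
    have := congrArg SemidirectProduct.right hww
    simpa [SemidirectProduct.mul_right] using this
  have hθθ : ∀ z, w.right.1 (w.right.1 z) = z := by
    intro z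
    have h1 : (w.right * w.right).1 z = z := by rw [hr1]; rfl
    exact h1
  obtain ⟨T, hT⟩ := Geo.exists_tw (cs := cs) w.right.1 w.right.2 hθθ
  have hx : T.θ w.left = w.left⁻¹ := by
    have h1 := congrArg SemidirectProduct.left hww
    rw [SemidirectProduct.mul_left, SemidirectProduct.one_left] at h1
    have h2 : w.left * w.right.1 w.left = 1 := h1
    rw [hT]
    exact (inv_eq_of_mul_eq_one_right h2).symm
  have hleft : (emb r * w * emb r).left = r * w.left * T.θ r := by
    rw [(left_conj' hrr w).1, hT]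
  rw [hleft]
  apply T.comparable hx hr
  intro z hz
  have hmem : emb z * w * (emb z)⁻¹ ∈ cls x₀ := by
    refine ⟨z * u, ?_⟩
    rw [hwdef]
    unfold emb
    rw [map_mul]
    group
  have hr' : cs.IsReflection (z * r * z⁻¹) := hr.conj z
  have hrr' : (z * r * z⁻¹) * (z * r * z⁻¹) = 1 := hr'.mul_self
  have e1 : (emb z * w * (emb z)⁻¹).left = z * w.left * (T.θ z)⁻¹ := by
    rw [(left_conj z w).1, hT]
  have e0 : (emb z * w * (emb z)⁻¹).right = w.right := (left_conj z w).2
  have e2 : (emb (z * r * z⁻¹) * (emb z * w * (emb z)⁻¹) * emb (z * r * z⁻¹)).left =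
      z * (r * w.left * T.θ r) * (T.θ z)⁻¹ := by
    rw [(left_conj' hrr' _).1, e1, e0]
    have : w.right.1 (z * r * z⁻¹) = T.θ z * T.θ r * (T.θ z)⁻¹ := by
      rw [← hT, map_mul, map_mul, map_inv]
    rw [this]
    group
  have h1 := hQ _ hr' _ hmem (by
    unfold len
    rw [e2, e1]
    exact hz)
  have h2 := congrArg SemidirectProduct.left h1
  rw [e2, e1] at h2
  exact h2

end Wplus

end Pool.Agent.Q87.Cox
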