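import Pool.Agent.Q87.Cox.Chain
import Pool.Agent.Q87.Cox.LexPos

set_option autoImplicit false

/-! The positive definite case: transport of a rank two root subsystem to standard position. -/

namespace Pool.Agent.Q87.Cox.Geo

open CoxeterSystem Pool.Agent.Q87.Cox Real

variable {B : Type*} {M : CoxeterMatrix B} {W : Type*} [Group W] {cs : CoxeterSystem M W}

/-- Orthogonal projection away from the plane of `β, γ` (with `c = (β, γ)`). -/
noncomputable def proj (M : CoxeterMatrix B) (c : ℝ) (β γ : B →₀ ℝ) :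
    (B →₀ ℝ) →ₗ[ℝ] (B →₀ ℝ) :=
  LinearMap.id - ((1 / (1 - c ^ 2)) • (bil M β - c • bil M γ)).smulRight β
    - ((1 / (1 - c ^ 2)) • (bil M γ - c • bil M β)).smulRight γ

lemma proj_apply (c : ℝ) (β γ v : B →₀ ℝ) : proj M c β γ v =
    v - (1 / (1 - c ^ 2) * (bil M β v - c * bil M γ v)) • β
      - (1 / (1 - c ^ 2) * (bil M γ v - c * bil M β v)) • γ := by
  simp [proj]

/-- The iterated traces. -/
noncomputable def tau (t : ℝ) : ℕ → ℝ
  | 0 => t
  | (k + 1) => (tau t k) ^ 2 - 2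

lemma exists_tau_neg {t : ℝ} (ht : t < 2) : ∃ k, tau t k < 0 := by
  by_contra hcon
  push Not at hcon
  have h : ∀ k : ℕ, (2 : ℝ) ^ k * (2 - t) ≤ 2 - tau t k := by
    intro k
    induction k with
    | zero => simp [tau]
    | succ k ih =>
      have h1 := hcon k
      have h2 : 0 ≤ 2 - tau t k := le_trans (by
        have : (0 : ℝ) < 2 - t := by linarith
        positivity) ih
      have h3 : tau t (k + 1) = (tau t k) ^ 2 - 2 := rfl
      rw [h3, pow_succ]
      nlinarith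
  obtain ⟨k, hk⟩ := pow_unbounded_of_one_lt (2 / (2 - t)) (one_lt_two (α := ℝ))
  have h1 := h k
  have h2 := hcon k
  have h3 : (0 : ℝ) < 2 - t := by linarith
  rw [div_lt_iff₀ h3] at hk
  linarith

section plane

variable {r s : W} {β γ : B →₀ ℝ} {c : ℝ}

lemma proj_left (hr : Rt cs r β) (hc : bil M β γ = c) (hc1 : c ^ 2 < 1) :
    proj M c β γ β = 0 := by
  have h : (1 : ℝ) - c ^ 2 ≠ 0 := by linarith
  rw [proj_apply, hr.norm, bil_symm γ β, hc]
  have e1 : 1 / (1 - c ^ 2) * (1 - c * c) = 1 := by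
    rw [← pow_two]; field_simp
  have e2 : 1 / (1 - c ^ 2) * (c - c * 1) = 0 := by ring
  rw [e1, e2]; simp

lemma proj_right (hs : Rt cs s γ) (hc : bil M β γ = c) (hc1 : c ^ 2 < 1) :
    proj M c β γ γ = 0 := by
  have h : (1 : ℝ) - c ^ 2 ≠ 0 := by linarith
  rw [proj_apply, hs.norm, hc]
  have e1 : 1 / (1 - c ^ 2) * (1 - c * c) = 1 := by
    rw [← pow_two]; field_simp
  have e2 : 1 / (1 - c ^ 2) * (c - c * 1) = 0 := by ring
  rw [e1, e2]; simp

lemma proj_of_mem (hr : Rt cs r β) (hs : Rt cs s γ) (hc : bil M β γ = c) (hc1 : c ^ 2 < 1)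
    {v : B →₀ ℝ} (hv : v ∈ Submodule.span ℝ {β, γ}) : proj M c β γ v = 0 := by
  obtain ⟨a, b, rfl⟩ := Submodule.mem_span_pair.1 hv
  rw [map_add, map_smul, map_smul, proj_left hr hc hc1, proj_right hs hc hc1]
  simp

lemma mem_of_proj {v : B →₀ ℝ} (hv : proj M c β γ v = 0) : v ∈ Submodule.span ℝ {β, γ} := by
  rw [proj_apply] at hv
  rw [Submodule.mem_span_pair]
  refine ⟨1 / (1 - c ^ 2) * (bil M β v - c * bil M γ v),
    1 / (1 - c ^ 2) * (bil M γ v - c * bil M β v), ?_⟩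
  rw [sub_sub, sub_eq_zero] at hv
  exact hv.symm

lemma bil_proj_left (hr : Rt cs r β) (hc : bil M β γ = c) (hc1 : c ^ 2 < 1) (v : B →₀ ℝ) :
    bil M β (proj M c β γ v) = 0 := by
  have h : (1 : ℝ) - c ^ 2 ≠ 0 := by linarith
  rw [proj_apply, map_sub, map_sub, map_smul, map_smul, hr.norm, hc]
  simp only [smul_eq_mul]
  field_simp
  ring

lemma bil_proj_right (hs : Rt cs s γ) (hc : bil M β γ = c) (hc1 : c ^ 2 < 1) (v : B →₀ ℝ) :
    bil M γ (proj M c β γ v) = 0 := by
  have h : (1 : ℝ) - c ^ 2 ≠ 0 := by linarith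
  rw [proj_apply, map_sub, map_sub, map_smul, map_smul, hs.norm, bil_symm γ β, hc]
  simp only [smul_eq_mul]
  field_simp
  ring

lemma geo_r_proj (hr : Rt cs r β) (hc : bil M β γ = c) (hc1 : c ^ 2 < 1) (v : B →₀ ℝ) :
    geo cs r (proj M c β γ v) = proj M c β γ v := by
  rw [hr.apply, bil_proj_left hr hc hc1]; simp

lemma geo_s_proj (hs : Rt cs s γ) (hc : bil M β γ = c) (hc1 : c ^ 2 < 1) (v : B →₀ ℝ) :
    geo cs s (proj M c β γ v) = proj M c β γ v := by
  rw [hs.apply, bil_proj_right hs hc hc1]; simp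

lemma geo_fix {w : W} {v : B →₀ ℝ} (h : geo cs w v = v) : geo cs w⁻¹ v = v := by
  conv_lhs => rw [← h]
  rw [geo_inv_apply]

lemma geo_pow_fix {w : W} {v : B →₀ ℝ} (h : geo cs w v = v) (n : ℕ) : geo cs (w ^ n) v = v := by
  induction n with
  | zero => simp
  | succ n ih => rw [pow_succ, map_mul, Module.End.mul_apply, h, ih]

lemma sub_proj_mem (v : B →₀ ℝ) : v - proj M c β γ v ∈ Submodule.span ℝ {β, γ} := by
  rw [proj_apply, Submodule.mem_span_pair]
  refine ⟨1 / (1 - c ^ 2) * (bil M β v - c * bil M γ v),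
    1 / (1 - c ^ 2) * (bil M γ v - c * bil M β v), ?_⟩
  abel

lemma geo_rs_mem (hr : Rt cs r β) (hs : Rt cs s γ) {v : B →₀ ℝ}
    (hv : v ∈ Submodule.span ℝ {β, γ}) :
    geo cs (r * s) v ∈ Submodule.span ℝ {β, γ} ∧ geo cs (r * s)⁻¹ v ∈ Submodule.span ℝ {β, γ} := by
  have hβ : β ∈ Submodule.span ℝ ({β, γ} : Set (B →₀ ℝ)) := Submodule.subset_span (by simp)
  have hγ : γ ∈ Submodule.span ℝ ({β, γ} : Set (B →₀ ℝ)) := Submodule.subset_span (by simp)
  have h1 : ∀ v ∈ Submodule.span ℝ ({β, γ} : Set (B →₀ ℝ)),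
      geo cs r v ∈ Submodule.span ℝ ({β, γ} : Set (B →₀ ℝ)) := by
    intro v hv
    rw [hr.apply]
    exact Submodule.sub_mem _ hv (Submodule.smul_mem _ _ hβ)
  have h2 : ∀ v ∈ Submodule.span ℝ ({β, γ} : Set (B →₀ ℝ)),
      geo cs s v ∈ Submodule.span ℝ ({β, γ} : Set (B →₀ ℝ)) := by
    intro v hv
    rw [hs.apply]
    exact Submodule.sub_mem _ hv (Submodule.smul_mem _ _ hγ)
  constructor
  · rw [map_mul, Module.End.mul_apply]
    exact h1 _ (h2 _ hv)
  · rw [mul_inv_rev, hr.isReflection.inv, hs.isReflection.inv, map_mul, Module.End.mul_apply]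
    exact h2 _ (h1 _ hv)

lemma rot_trace (hr : Rt cs r β) (hs : Rt cs s γ) (hc : bil M β γ = c) {v : B →₀ ℝ}
    (hv : v ∈ Submodule.span ℝ {β, γ}) :
    geo cs (r * s) v + geo cs (r * s)⁻¹ v = (4 * c ^ 2 - 2) • v := by
  obtain ⟨a, b, rfl⟩ := Submodule.mem_span_pair.1 hv
  rw [mul_inv_rev, hr.isReflection.inv, hs.isReflection.inv, map_mul, map_mul,
    Module.End.mul_apply, Module.End.mul_apply]
  have e1 : geo cs r β = -β := hr.apply_self
  have e2 : geo cs s γ = -γ := hs.apply_self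
  have e3 : geo cs r γ = γ - (2 * c) • β := by rw [hr.apply, hc]
  have e4 : geo cs s β = β - (2 * c) • γ := by rw [hs.apply, bil_symm, hc]
  simp only [map_add, map_smul, map_sub, map_neg, e1, e2, e3, e4]
  module

lemma rot_pow (hr : Rt cs r β) (hs : Rt cs s γ) (hc : bil M β γ = c) (k : ℕ) :
    ∀ v ∈ Submodule.span ℝ ({β, γ} : Set (B →₀ ℝ)),
      (geo cs ((r * s) ^ (2 ^ k)) v ∈ Submodule.span ℝ ({β, γ} : Set (B →₀ ℝ)) ∧
        geo cs ((r * s) ^ (2 ^ k))⁻¹ v ∈ Submodule.span ℝ ({β, γ} : Set (B →₀ ℝ))) ∧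
      geo cs ((r * s) ^ (2 ^ k)) v + geo cs ((r * s) ^ (2 ^ k))⁻¹ v =
        tau (4 * c ^ 2 - 2) k • v := by
  induction k with
  | zero =>
    intro v hv
    rw [pow_zero, pow_one]
    exact ⟨geo_rs_mem hr hs hv, rot_trace hr hs hc hv⟩
  | succ k ih =>
    intro v hv
    set g := (r * s) ^ (2 ^ k) with hg
    have hgg : (r * s) ^ (2 ^ (k + 1)) = g * g := by
      rw [hg, ← pow_add, pow_succ, mul_two]
    rw [hgg, mul_inv_rev, map_mul, map_mul, Module.End.mul_apply, Module.End.mul_apply]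
    obtain ⟨⟨h1, h2⟩, h3⟩ := ih v hv
    obtain ⟨⟨h4, h5⟩, h6⟩ := ih _ h1
    obtain ⟨⟨h7, h8⟩, h9⟩ := ih _ h2
    refine ⟨⟨h4, h8⟩, ?_⟩
    rw [geo_inv_apply] at h6
    rw [geo_apply_inv] at h9
    have e1 : geo cs g (geo cs g v) = tau (4 * c ^ 2 - 2) k • geo cs g v - v := by
      rw [← h6]; abel
    have e2 : geo cs g⁻¹ (geo cs g⁻¹ v) = tau (4 * c ^ 2 - 2) k • geo cs g⁻¹ v - v := by
      rw [← h9]; abel
    have e3 : tau (4 * c ^ 2 - 2) (k + 1) = (tau (4 * c ^ 2 - 2) k) ^ 2 - 2 := rfl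
    rw [e1, e2, e3]
    calc tau (4 * c ^ 2 - 2) k • geo cs g v - v + (tau (4 * c ^ 2 - 2) k • geo cs g⁻¹ v - v)
        = tau (4 * c ^ 2 - 2) k • (geo cs g v + geo cs g⁻¹ v) - (2 : ℝ) • v := by module
      _ = _ := by rw [h3]; module

lemma proj_formula (hr : Rt cs r β) (hs : Rt cs s γ) (hc : bil M β γ = c) (hc1 : c ^ 2 < 1)
    (k : ℕ) (v : B →₀ ℝ) :
    (2 - tau (4 * c ^ 2 - 2) k) • proj M c β γ v = (-tau (4 * c ^ 2 - 2) k) • v +
      geo cs ((r * s) ^ (2 ^ k)) v + geo cs ((r * s) ^ (2 ^ k))⁻¹ v := by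
  have h1 := (rot_pow hr hs hc k _ (sub_proj_mem (M := M) (c := c) (β := β) (γ := γ) v)).2
  have hfix : geo cs (r * s) (proj M c β γ v) = proj M c β γ v := by
    rw [map_mul, Module.End.mul_apply, geo_s_proj hs hc hc1, geo_r_proj hr hc hc1]
  have h2 : geo cs ((r * s) ^ (2 ^ k)) (proj M c β γ v) = proj M c β γ v := geo_pow_fix hfix _
  have h3 := geo_fix h2
  rw [map_sub, map_sub, h2, h3] at h1
  have h4 : geo cs ((r * s) ^ (2 ^ k)) v + geo cs ((r * s) ^ (2 ^ k))⁻¹ v =
      tau (4 * c ^ 2 - 2) k • (v - proj M c β γ v) + (2 : ℝ) • proj M c β γ v := by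
    rw [← h1]; module
  rw [add_assoc, h4]
  module

/-- The positive roots `α` with `proj (w⁻¹ α)` lexicographically negative. -/
def NN (cs : CoxeterSystem M W) (c : ℝ) (β γ : B →₀ ℝ) (w : W) : Set (B →₀ ℝ) :=
  {α | (∃ t, Rt cs t α) ∧ 0 ≤ α ∧ LPos (-(proj M c β γ (geo cs w⁻¹ α)))}

lemma NN_finite (hr : Rt cs r β) (hs : Rt cs s γ) (hc : bil M β γ = c) (hc1 : c ^ 2 < 1) :
    (NN cs c β γ 1).Finite := by
  obtain ⟨k, hk⟩ := exists_tau_neg (t := 4 * c ^ 2 - 2) (by linarith)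
  refine ((finite_neg (cs := cs) ((r * s) ^ (2 ^ k))).union
    (finite_neg (cs := cs) ((r * s) ^ (2 ^ k))⁻¹)).subset ?_
  rintro α ⟨⟨t, ht⟩, h0, hp⟩
  rw [inv_one, map_one, Module.End.one_apply] at hp
  have h1 := (ht.conj ((r * s) ^ (2 ^ k))).sign
  have h2 := (ht.conj ((r * s) ^ (2 ^ k))⁻¹).sign
  rcases h1 with h1 | h1
  · rcases h2 with h2 | h2
    · exfalso
      have h3 : LNonneg ((2 - tau (4 * c ^ 2 - 2) k) • proj M c β γ α) := by
        rw [proj_formula hr hs hc hc1 k α]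
        exact (((lnonneg_of_nonneg h0).smul (by linarith)).add (lnonneg_of_nonneg h1)).add
          (lnonneg_of_nonneg h2)
      apply h3.not_neg
      rw [← smul_neg]
      exact hp.smul (by linarith)
    · right; exact ⟨⟨t, ht⟩, h0, h2⟩
  · left; exact ⟨⟨t, ht⟩, h0, h1⟩

/-- Descent to standard position. -/
lemma exists_std (hr : Rt cs r β) (hs : Rt cs s γ) (hc : bil M β γ = c) (hc1 : c ^ 2 < 1) :
    ∃ w : W, (∀ i, ¬ LPos (-(proj M c β γ (geo cs w⁻¹ (ee i))))) ∧
      (∀ t α, Rt cs t α → α ∈ Submodule.span ℝ ({β, γ} : Set (B →₀ ℝ)) → 0 ≤ α →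
        0 ≤ geo cs w α) := by
  have main : ∀ n : ℕ, ∀ w : W, (NN cs c β γ w).Finite → (NN cs c β γ w).ncard = n →
      (∀ t α, Rt cs t α → α ∈ Submodule.span ℝ ({β, γ} : Set (B →₀ ℝ)) → 0 ≤ α →
        0 ≤ geo cs w α) →
      ∃ w : W, (∀ i, ¬ LPos (-(proj M c β γ (geo cs w⁻¹ (ee i))))) ∧
      (∀ t α, Rt cs t α → α ∈ Submodule.span ℝ ({β, γ} : Set (B →₀ ℝ)) → 0 ≤ α →
        0 ≤ geo cs w α) := by
    intro n
    induction n using Nat.strong_induction_on with
    | _ n ih =>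
      intro w hfin hn hw
      by_cases hall : ∀ i, ¬ LPos (-(proj M c β γ (geo cs w⁻¹ (ee i))))
      · exact ⟨w, hall, hw⟩
      · push Not at hall
        obtain ⟨i, hi⟩ := hall
        have hinv : ∀ α, geo cs (cs.simple i * w)⁻¹ α = geo cs w⁻¹ (geo cs (cs.simple i) α) := by
          intro α
          rw [mul_inv_rev, cs.inv_simple, map_mul, Module.End.mul_apply]
        have hsi : ∀ α, geo cs (cs.simple i) (geo cs (cs.simple i) α) = α := by
          intro α
          rw [← Module.End.mul_apply, ← map_mul, cs.simple_mul_simple_self, map_one,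
            Module.End.one_apply]
        have hee : geo cs (cs.simple i) (ee i) = -ee i := (Rt.simple (cs := cs) i).apply_self
        have hmem : ee i ∈ NN cs c β γ w := ⟨⟨_, Rt.simple i⟩, ee_nonneg i, hi⟩
        have hmaps : ∀ α ∈ NN cs c β γ (cs.simple i * w),
            geo cs (cs.simple i) α ∈ NN cs c β γ w \ {ee i} := by
          rintro α ⟨⟨t, ht⟩, h0, hp⟩
          rw [hinv] at hp
          have hne : α ≠ ee i := by
            rintro rfl
            rw [hee, map_neg, map_neg] at hp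
            exact hi.not_neg hp
          have h1 : 0 ≤ geo cs (cs.simple i) α := by
            rcases (ht.conj (cs.simple i)).sign with h | h
            · exact h
            · exact (hne (ht.eq_ee h0 h)).elim
          refine ⟨⟨⟨_, ht.conj (cs.simple i)⟩, h1, hp⟩, ?_⟩
          intro h2
          rw [Set.mem_singleton_iff] at h2
          have h3 := hsi α
          rw [h2, hee] at h3
          rw [← h3] at h0
          exact (Rt.simple (cs := cs) i).not_both (ee_nonneg i) (neg_nonneg.1 h0)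
        have hinj : Set.InjOn (fun α => geo cs (cs.simple i) α) (NN cs c β γ (cs.simple i * w)) :=
          fun a _ b _ h => geo_injective_apply cs _ h
        have hfin' : (NN cs c β γ (cs.simple i * w)).Finite := by
          apply Set.Finite.of_finite_image _ hinj
          apply hfin.subset
          rintro _ ⟨α, hα, rfl⟩
          exact (hmaps α hα).1
        have hcard : (NN cs c β γ (cs.simple i * w)).ncard < n := by
          have h1 : (NN cs c β γ (cs.simple i * w)).ncard ≤ (NN cs c β γ w \ {ee i}).ncard :=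
            Set.ncard_le_ncard_of_injOn _ hmaps hinj (hfin.subset Set.sdiff_subset)
          have h2 := Set.ncard_sdiff_singleton_lt_of_mem hmem hfin
          omega
        refine ih _ hcard (cs.simple i * w) hfin' rfl ?_
        intro t α ht hα h0
        rw [map_mul, Module.End.mul_apply]
        have h1 := hw t α ht hα h0
        rcases ((ht.conj w).conj (cs.simple i)).sign with h | h
        · exact h
        · exfalso
          have h2 := (ht.conj w).eq_ee h1 h
          rw [← h2, geo_inv_apply, proj_of_mem hr hs hc hc1 hα] at hi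
          exact hi.ne_zero (by simp)
  refine main _ 1 (NN_finite hr hs hc hc1) rfl ?_
  intro t α ht hα h0
  simpa using h0

end plane

end Pool.Agent.Q87.Cox.Geo
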