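import Pool.Agent.Q87.Cox.Tits

set_option autoImplicit false

/-! Roots and reflections of a Coxeter system, through the geometric representation. -/

namespace Pool.Agent.Q87.Cox.Geo

open CoxeterSystem Pool.Agent.Q87.Cox

variable {B : Type*} {M : CoxeterMatrix B} {W : Type*} [Group W] (cs : CoxeterSystem M W)

/-- The invariant bilinear form. -/
noncomputable def bil (M : CoxeterMatrix B) : (B →₀ ℝ) →ₗ[ℝ] (B →₀ ℝ) →ₗ[ℝ] ℝ :=
  Finsupp.linearCombination ℝ (fun i => Finsupp.linearCombination ℝ (fun j => - cc M i j))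

lemma bil_ee (i j : B) : bil M (ee i) (ee j) = - cc M i j := by
  simp [bil, ee]

lemma bil_symm (v w : B →₀ ℝ) : bil M v w = bil M w v := by
  have h : bil M = (bil M).flip := by
    ext i j
    simp [bil, cc_symm M i j]
  conv_lhs => rw [h]
  rfl

lemma coroot_eq (i : B) (v : B →₀ ℝ) : coroot M i v = 2 * bil M (ee i) v := by
  have h : coroot M i = (2 : ℝ) • bil M (ee i) := by
    ext j
    simp [coroot, bil]
  rw [h]; simp

lemma sg_apply' (i : B) (v : B →₀ ℝ) : sg M i v = v - (2 * bil M (ee i) v) • ee i := by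
  rw [sg_apply, coroot_eq]

lemma bil_ee_self (i : B) : bil M (ee i) (ee i) = 1 := by
  rw [bil_ee, cc_self]; norm_num

lemma bil_sg (i : B) (v w : B →₀ ℝ) : bil M (sg M i v) (sg M i w) = bil M v w := by
  rw [sg_apply', sg_apply']
  simp only [map_sub, map_smul, LinearMap.sub_apply, LinearMap.smul_apply, smul_eq_mul]
  rw [bil_ee_self, bil_symm v (ee i)]
  ring

lemma bil_geo (w : W) (v v' : B →₀ ℝ) : bil M (geo cs w v) (geo cs w v') = bil M v v' := by
  induction w using cs.simple_induction_left generalizing v v' with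
  | one => simp
  | mul_simple_left w i ih =>
    rw [map_mul, Module.End.mul_apply, Module.End.mul_apply, geo_simple, bil_sg, ih]

/-- `v` is a root with reflection `t`. -/
def Rt (t : W) (v : B →₀ ℝ) : Prop := ∃ (w : W) (i : B), t = w * cs.simple i * w⁻¹ ∧
  v = geo cs w (ee i)

variable {cs}

lemma Rt.simple (i : B) : Rt cs (cs.simple i) (ee i) := ⟨1, i, by simp, by simp⟩

lemma Rt.isReflection {t : W} {v : B →₀ ℝ} (h : Rt cs t v) : cs.IsReflection t := by
  obtain ⟨w, i, rfl, -⟩ := h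
  exact ⟨w, i, rfl⟩

lemma Rt.mul_self {t : W} {v : B →₀ ℝ} (h : Rt cs t v) : t * t = 1 := h.isReflection.mul_self

lemma Rt.apply {t : W} {v : B →₀ ℝ} (h : Rt cs t v) (x : B →₀ ℝ) :
    geo cs t x = x - (2 * bil M v x) • v := by
  obtain ⟨w, i, rfl, rfl⟩ := h
  rw [map_mul, map_mul, Module.End.mul_apply, Module.End.mul_apply, geo_simple, sg_apply',
    map_sub, map_smul, geo_apply_inv]
  congr 3
  rw [← bil_geo cs w (ee i) (geo cs w⁻¹ x), geo_apply_inv]

lemma Rt.norm {t : W} {v : B →₀ ℝ} (h : Rt cs t v) : bil M v v = 1 := by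
  obtain ⟨w, i, rfl, rfl⟩ := h
  rw [bil_geo, bil_ee_self]

lemma Rt.conj {t : W} {v : B →₀ ℝ} (h : Rt cs t v) (w : W) :
    Rt cs (w * t * w⁻¹) (geo cs w v) := by
  obtain ⟨u, i, rfl, rfl⟩ := h
  refine ⟨w * u, i, by group, ?_⟩
  rw [map_mul, Module.End.mul_apply]

lemma Rt.apply_self {t : W} {v : B →₀ ℝ} (h : Rt cs t v) : geo cs t v = -v := by
  rw [h.apply, h.norm]; module

lemma Rt.neg {t : W} {v : B →₀ ℝ} (h : Rt cs t v) : Rt cs t (-v) := by
  have h2 := h.conj t
  rw [h.apply_self] at h2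
  have : t * t * t⁻¹ = t := by group
  rwa [this] at h2

lemma Rt.sign {t : W} {v : B →₀ ℝ} (h : Rt cs t v) : 0 ≤ v ∨ v ≤ 0 := by
  obtain ⟨w, i, rfl, rfl⟩ := h
  rcases cs.length_mul_simple w i with h | h
  · left; exact geo_nonneg cs w i (by omega)
  · right; exact geo_nonpos cs w i (by omega)

lemma Rt.ne_zero {t : W} {v : B →₀ ℝ} (h : Rt cs t v) : v ≠ 0 := by
  rintro rfl
  have := h.norm
  simp at this

lemma Rt.not_both {t : W} {v : B →₀ ℝ} (h : Rt cs t v) (h1 : 0 ≤ v) (h2 : v ≤ 0) : False :=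
  h.ne_zero (le_antisymm h2 h1)

lemma geo_faithful {w w' : W} (h : ∀ v, geo cs w v = geo cs w' v) : w = w' :=
  geo_injective cs (LinearMap.ext h)

lemma Rt.unique {t t' : W} {v : B →₀ ℝ} (h : Rt cs t v) (h' : Rt cs t' v) : t = t' := by
  apply geo_faithful (cs := cs)
  intro x
  rw [h.apply, h'.apply]

lemma Rt.unique_neg {t t' : W} {v : B →₀ ℝ} (h : Rt cs t v) (h' : Rt cs t' (-v)) : t = t' :=
  h.neg.unique h'

lemma Rt.root_unique {t : W} {v v' : B →₀ ℝ} (h : Rt cs t v) (h' : Rt cs t v') :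
    v' = v ∨ v' = -v := by
  have h1 := h'.apply v
  rw [h.apply_self] at h1
  have h2 : v = (bil M v' v) • v' := by
    have : (2 : ℝ) • v = (2 : ℝ) • ((bil M v' v) • v') := by
      have h3 : (2 : ℝ) • v = v - -v := by module
      rw [h3, h1, smul_smul]; abel
    exact smul_right_injective _ (two_ne_zero) this
  have h3 : bil M v v = (bil M v' v) * (bil M v' v) :=
    calc bil M v v = bil M ((bil M v' v) • v') v := by rw [← h2]
      _ = (bil M v' v) * (bil M v' v) := by
        rw [map_smul, LinearMap.smul_apply, smul_eq_mul]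
  rw [h.norm] at h3
  have h4 : bil M v' v = 1 ∨ bil M v' v = -1 := by
    have : (bil M v' v - 1) * (bil M v' v + 1) = 0 := by linarith [h3]
    rcases mul_eq_zero.1 this with h | h
    · left; linarith
    · right; linarith
  rcases h4 with h4 | h4
  · left; rw [h2, h4]; simp
  · right; rw [h2, h4]; simp

lemma Rt.pos_unique {t : W} {v v' : B →₀ ℝ} (h : Rt cs t v) (h' : Rt cs t v') (hv : 0 ≤ v)
    (hv' : 0 ≤ v') : v = v' := by
  rcases h.root_unique h' with rfl | rfl
  · rfl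
  · exact (h.not_both hv (neg_nonneg.1 hv')).elim

lemma exists_rt {t : W} (ht : cs.IsReflection t) : ∃ v, Rt cs t v ∧ 0 ≤ v := by
  obtain ⟨w, i, rfl⟩ := ht
  have h : Rt cs (w * cs.simple i * w⁻¹) (geo cs w (ee i)) := ⟨w, i, rfl, rfl⟩
  rcases h.sign with h1 | h1
  · exact ⟨_, h, h1⟩
  · exact ⟨_, h.neg, neg_nonneg.2 h1⟩

/-- A positive root made negative by `s_i` is `e_i`. -/
lemma Rt.eq_ee {t : W} {v : B →₀ ℝ} (h : Rt cs t v) (hv : 0 ≤ v) {i : B}
    (hi : geo cs (cs.simple i) v ≤ 0) : v = ee i := by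
  classical
  rw [geo_simple, sg_apply'] at hi
  have h1 : ∀ j, j ≠ i → v j = 0 := by
    intro j hj
    have h2 := hi j
    have h3 := hv j
    simp only [Finsupp.coe_sub, Finsupp.coe_smul, Pi.sub_apply, Pi.smul_apply, smul_eq_mul,
      Finsupp.coe_zero, Pi.zero_apply, ee, Finsupp.single_apply, if_neg (Ne.symm hj), mul_zero,
      sub_zero] at h2 h3
    linarith
  have h2 : v = (v i) • ee i := by
    ext j
    by_cases hj : j = i
    · subst hj; simp [ee]
    · rw [h1 j hj]; simp [ee, Ne.symm hj]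
  have h3 := h.norm
  rw [h2] at h3
  simp only [map_smul, LinearMap.smul_apply, smul_eq_mul, bil_ee_self, mul_one] at h3
  have h4 := hv i
  simp only [Finsupp.coe_zero, Pi.zero_apply] at h4
  have h5 : v i = 1 := by
    have : (v i - 1) * (v i + 1) = 0 := by linarith
    rcases mul_eq_zero.1 this with h | h
    · linarith
    · linarith
  rw [h2, h5, one_smul]

lemma Rt.erase (ω : List B) : ∀ {t : W} {v : B →₀ ℝ}, Rt cs t v → 0 ≤ v →
    geo cs (cs.wordProd ω) v ≤ 0 →
    ∃ j, j < ω.length ∧ cs.wordProd ω * t = cs.wordProd (ω.eraseIdx j) := by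
  induction ω with
  | nil =>
    intro t v h hv h0
    simp only [cs.wordProd_nil, map_one, Module.End.one_apply] at h0
    exact (h.not_both hv h0).elim
  | cons i ω ih =>
    intro t v h hv h0
    rw [cs.wordProd_cons, map_mul, Module.End.mul_apply] at h0
    have hu := h.conj (cs.wordProd ω)
    rcases hu.sign with h1 | h1
    · have h2 := hu.eq_ee h1 h0
      rw [h2] at hu
      have h3 := hu.unique (Rt.simple i)
      refine ⟨0, by simp, ?_⟩
      have h4 : cs.wordProd ω * t = cs.simple i * cs.wordProd ω := by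
        rw [← h3]; group
      rw [cs.wordProd_cons, mul_assoc, h4, ← mul_assoc, cs.simple_mul_simple_self, one_mul]
      simp
    · obtain ⟨j, hj, hp⟩ := ih h hv h1
      refine ⟨j + 1, by simpa using hj, ?_⟩
      rw [cs.wordProd_cons, mul_assoc, hp, List.eraseIdx_cons_succ, cs.wordProd_cons]

lemma Rt.length_of_neg {t : W} {v : B →₀ ℝ} (h : Rt cs t v) (hv : 0 ≤ v) {w : W}
    (hw : geo cs w v ≤ 0) : cs.length (w * t) < cs.length w := by
  obtain ⟨ω, r, rfl⟩ := exists_reduced (cs := cs) w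
  obtain ⟨j, hj, hp⟩ := Rt.erase ω h hv hw
  have h1 := cs.length_wordProd_le (ω.eraseIdx j)
  have h2 := List.length_eraseIdx_add_one hj
  have h3 := r.eq
  rw [hp]
  omega

lemma Rt.length_of_pos {t : W} {v : B →₀ ℝ} (h : Rt cs t v) (hv : 0 ≤ v) {w : W}
    (hw : 0 ≤ geo cs w v) : cs.length w < cs.length (w * t) := by
  have h1 : geo cs (w * t) v ≤ 0 := by
    rw [map_mul, Module.End.mul_apply, h.apply_self, map_neg]
    exact neg_nonpos.2 hw
  have h2 := h.length_of_neg hv h1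
  rwa [mul_assoc, h.mul_self, mul_one] at h2

lemma Rt.pos_iff {t : W} {v : B →₀ ℝ} (h : Rt cs t v) (hv : 0 ≤ v) {w : W} :
    0 ≤ geo cs w v ↔ cs.length w < cs.length (w * t) := by
  constructor
  · exact h.length_of_pos hv
  · intro hl
    rcases (h.conj w).sign with h1 | h1
    · exact h1
    · have := h.length_of_neg hv h1
      omega

/-- Finitely many positive roots are made negative by `w`. -/
lemma finite_neg (w : W) : {v : B →₀ ℝ | (∃ t, Rt cs t v) ∧ 0 ≤ v ∧ geo cs w v ≤ 0}.Finite := by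
  classical
  obtain ⟨ω, r, rfl⟩ := exists_reduced (cs := cs) w
  have hex : ∀ v : B →₀ ℝ, ∃ j : ℕ, ((∃ t, Rt cs t v) ∧ 0 ≤ v ∧ geo cs (cs.wordProd ω) v ≤ 0) →
      j < ω.length ∧ ∃ t, Rt cs t v ∧ cs.wordProd ω * t = cs.wordProd (ω.eraseIdx j) := by
    intro v
    by_cases h : (∃ t, Rt cs t v) ∧ 0 ≤ v ∧ geo cs (cs.wordProd ω) v ≤ 0
    · obtain ⟨⟨t, ht⟩, h1, h2⟩ := h
      obtain ⟨j, hj, hp⟩ := Rt.erase ω ht h1 h2
      exact ⟨j, fun _ => ⟨hj, t, ht, hp⟩⟩
    · exact ⟨0, fun h' => (h h').elim⟩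
  choose f hf using hex
  apply Set.Finite.of_finite_image (f := f)
  · apply (Finset.range ω.length).finite_toSet.subset
    rintro _ ⟨v, hv, rfl⟩
    simpa using (hf v hv).1
  · intro v hv v' hv' he
    obtain ⟨_, t, ht, hp⟩ := hf v hv
    obtain ⟨_, t', ht', hp'⟩ := hf v' hv'
    rw [he, ← hp'] at hp
    have := mul_left_cancel hp
    subst this
    exact ht.pos_unique ht' hv.2.1 hv'.2.1

end Pool.Agent.Q87.Cox.Geo
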