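import Pool.Agent.Q87.Cox.Bruhat

set_option autoImplicit false

/-! An energy formula for the escape speed of nearest neighbour walks on Coxeter groups. -/

set_option linter.unusedSectionVars false

namespace Pool.Agent.Q87.Cox.Speed

open CoxeterSystem Pool.Agent.Q87.Cox Filter Topology

variable {B : Type} {W : Type} [Group W] {M : CoxeterMatrix B} (cs : CoxeterSystem M W)

open Classical in
/-- The signed conjugation action of a simple reflection on finitely supported functions. -/
noncomputable def pis (i : B) : (W →₀ ℝ) →ₗ[ℝ] (W →₀ ℝ) :=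
  Finsupp.linearCombination ℝ (fun t => if t = cs.simple i then -(Finsupp.single t 1)
    else Finsupp.single (cs.simple i * t * cs.simple i) 1)

/-- Inner product. -/
noncomputable def ip : (W →₀ ℝ) →ₗ[ℝ] (W →₀ ℝ) →ₗ[ℝ] ℝ :=
  Finsupp.linearCombination ℝ (fun t => Finsupp.lapply t)

/-- Total mass. -/
noncomputable def tot : (W →₀ ℝ) →ₗ[ℝ] ℝ := Finsupp.linearCombination ℝ (fun _ => (1 : ℝ))

lemma conj_eq_iff (i : B) (t u : W) :
    cs.simple i * t * cs.simple i = u ↔ t = cs.simple i * u * cs.simple i := by
  constructor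
  · rintro rfl; simp [mul_assoc]
  · rintro rfl; simp [mul_assoc]

open Classical in
lemma pis_apply (i : B) (f : W →₀ ℝ) (u : W) :
    pis cs i f u = if u = cs.simple i then - f u else f (cs.simple i * u * cs.simple i) := by
  induction f using Finsupp.induction_linear with
  | zero => simp
  | add f g hf hg =>
    rw [map_add, Finsupp.add_apply, hf, hg]
    split_ifs <;> simp [add_comm]
  | single t a =>
    simp only [pis, Finsupp.linearCombination_single]
    by_cases ht : t = cs.simple i
    · subst ht
      rw [if_pos rfl]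
      by_cases hu : u = cs.simple i
      · subst hu; simp
      · rw [if_neg hu]
        have h2 : cs.simple i * u * cs.simple i ≠ cs.simple i := by
          intro h; apply hu
          rw [conj_eq_iff] at h
          rw [h]; simp
        simp [Ne.symm hu, Ne.symm h2]
    · rw [if_neg ht]
      by_cases hu : u = cs.simple i
      · subst hu
        rw [if_pos rfl]
        have h2 : cs.simple i * t * cs.simple i ≠ cs.simple i := by
          intro h; apply ht
          rw [conj_eq_iff] at h
          rw [h]; simp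
        simp [h2, ht]
      · rw [if_neg hu]
        simp only [Finsupp.smul_apply, Finsupp.single_apply, smul_eq_mul, mul_ite, mul_one,
          mul_zero]
        have : (cs.simple i * t * cs.simple i = u) ↔ (t = cs.simple i * u * cs.simple i) :=
          conj_eq_iff cs i t u
        simp [this]

lemma ip_single (t : W) (a : ℝ) (g : W →₀ ℝ) : ip (Finsupp.single t a) g = a * g t := by
  simp [ip]

lemma ip_symm (f g : W →₀ ℝ) : ip f g = ip g f := by
  induction f using Finsupp.induction_linear with
  | zero => simp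
  | add f₁ f₂ h₁ h₂ => rw [map_add, LinearMap.add_apply, h₁, h₂, map_add]
  | single t a =>
    rw [ip_single]
    induction g using Finsupp.induction_linear with
    | zero => simp
    | add g₁ g₂ h₁ h₂ => rw [Finsupp.add_apply, map_add, LinearMap.add_apply, ← h₁, ← h₂]; ring
    | single u b =>
      classical
      rw [ip_single, Finsupp.single_apply, Finsupp.single_apply]
      by_cases h : t = u
      · subst h; simp; ring
      · simp [h, Ne.symm h]

lemma ip_eq_sum (f g : W →₀ ℝ) : ip f g = ∑ t ∈ f.support, f t * g t := by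
  simp [ip, Finsupp.linearCombination_apply, Finsupp.sum]

lemma ip_self_nonneg (f : W →₀ ℝ) : 0 ≤ ip f f := by
  rw [ip_eq_sum]
  exact Finset.sum_nonneg (fun t _ => mul_self_nonneg _)

lemma ip_nonneg {f g : W →₀ ℝ} (hf : ∀ t, 0 ≤ f t) (hg : ∀ t, 0 ≤ g t) : 0 ≤ ip f g := by
  rw [ip_eq_sum]
  exact Finset.sum_nonneg (fun t _ => mul_nonneg (hf t) (hg t))

/-- `π_i` is self-adjoint. -/
lemma ip_pis (i : B) (f g : W →₀ ℝ) : ip (pis cs i f) g = ip f (pis cs i g) := by
  classical
  induction f using Finsupp.induction_linear with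
  | zero => simp
  | add f₁ f₂ h₁ h₂ => rw [map_add, map_add, LinearMap.add_apply, h₁, h₂, map_add,
      LinearMap.add_apply]
  | single t a =>
    rw [ip_single, pis_apply]
    simp only [pis, Finsupp.linearCombination_single]
    by_cases ht : t = cs.simple i
    · rw [if_pos ht, if_pos ht, smul_neg, map_neg, LinearMap.neg_apply, map_smul,
        LinearMap.smul_apply, ip_single]
      simp
    · rw [if_neg ht, if_neg ht, map_smul, LinearMap.smul_apply, ip_single]
      simp

lemma pis_pis (i : B) (f : W →₀ ℝ) : pis cs i (pis cs i f) = f := by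
  classical
  ext u
  rw [pis_apply, pis_apply]
  by_cases hu : u = cs.simple i
  · rw [if_pos hu, if_pos hu, neg_neg]
  · have h2 : cs.simple i * u * cs.simple i ≠ cs.simple i := by
      intro h; apply hu
      rw [conj_eq_iff] at h
      rw [h]; simp
    rw [if_neg hu, pis_apply, if_neg h2]
    simp [mul_assoc]

lemma tot_single (t : W) (a : ℝ) : tot (Finsupp.single t a) = a := by simp [tot]

lemma tot_pis (i : B) (f : W →₀ ℝ) : tot (pis cs i f) = tot f - 2 * f (cs.simple i) := by
  classical
  induction f using Finsupp.induction_linear with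
  | zero => simp
  | add f g hf hg => rw [map_add, map_add, hf, hg, map_add, Finsupp.add_apply]; ring
  | single t a =>
    simp only [pis, Finsupp.linearCombination_single, tot_single]
    by_cases ht : t = cs.simple i
    · subst ht
      rw [if_pos rfl, smul_neg, map_neg, map_smul, tot_single]
      simp; ring
    · rw [if_neg ht, map_smul, tot_single]
      simp [ht]

/-- `(1 - π_i)(1 - f)`. -/
noncomputable def DD (i : B) (f : W →₀ ℝ) : W →₀ ℝ :=
  Finsupp.single (cs.simple i) 2 + pis cs i f - f

lemma pis_single (i : B) (a : ℝ) :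
    pis cs i (Finsupp.single (cs.simple i) a) = -(Finsupp.single (cs.simple i) a) := by
  simp [pis]

lemma pis_DD (i : B) (f : W →₀ ℝ) : pis cs i (DD cs i f) = -(DD cs i f) := by
  unfold DD
  rw [map_sub, map_add, pis_single, pis_pis]
  abel

lemma DD_self (i : B) (f : W →₀ ℝ) : DD cs i f (cs.simple i) = 2 - 2 * f (cs.simple i) := by
  classical
  unfold DD
  rw [Finsupp.sub_apply, Finsupp.add_apply, pis_apply, if_pos rfl, Finsupp.single_eq_same]
  ring

lemma ip_DD (i : B) (f : W →₀ ℝ) :
    ip (DD cs i f) (DD cs i f) = 2 * ((2 - 2 * f (cs.simple i)) - ip (DD cs i f) f) := by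
  have h1 : ip (DD cs i f) (DD cs i f) = ip (DD cs i f) (Finsupp.single (cs.simple i) 2) +
      ip (DD cs i f) (pis cs i f) - ip (DD cs i f) f := by
    conv_lhs => rw [show ip (DD cs i f) (DD cs i f) =
      ip (DD cs i f) (Finsupp.single (cs.simple i) 2 + pis cs i f - f) from rfl]
    rw [map_sub, map_add]
  rw [h1, ← ip_pis, pis_DD, map_neg, LinearMap.neg_apply, ip_symm _ (Finsupp.single _ _),
    ip_single, DD_self]
  ring

lemma tot_DD (i : B) (f : W →₀ ℝ) : tot (DD cs i f) = 2 - 2 * f (cs.simple i) := by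
  unfold DD
  rw [map_sub, map_add, tot_single, tot_pis]
  ring

section finite

variable [Fintype B]

/-- Energy. -/
noncomputable def En (r : B → ℝ) (f : W →₀ ℝ) : ℝ :=
  (1 / 2) * ∑ i, r i * ip (DD cs i f) (DD cs i f)

/-- The generator part. -/
noncomputable def LL (r : B → ℝ) (f : W →₀ ℝ) : W →₀ ℝ := ∑ i, r i • DD cs i f

/-- The total rate. -/
def lam (r : B → ℝ) : ℝ := ∑ i, r i

/-- The uniformisation rate. -/
def KK (r : B → ℝ) : ℝ := 2 * lam r + 1

/-- `f_n = 1 - P^n 1`. -/
noncomputable def ff (r : B → ℝ) : ℕ → (W →₀ ℝ)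
  | 0 => 0
  | (n + 1) => ff r n + (1 / KK r) • LL cs r (ff r n)

/-- The linear part of the step. -/
noncomputable def TT (r : B → ℝ) : (W →₀ ℝ) →ₗ[ℝ] (W →₀ ℝ) :=
  LinearMap.id + (1 / KK r) • ∑ i, r i • (pis cs i - LinearMap.id)

/-- The inhomogeneous part of the step. -/
noncomputable def vv (r : B → ℝ) : W →₀ ℝ := (1 / KK r) • ∑ i, r i • Finsupp.single (cs.simple i) 2

lemma ff_succ (r : B → ℝ) (n : ℕ) : ff cs r (n + 1) = TT cs r (ff cs r n) + vv cs r := by
  simp only [ff, TT, vv, LL, DD, LinearMap.add_apply, LinearMap.id_apply, LinearMap.smul_apply,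
    LinearMap.sum_apply, LinearMap.sub_apply]
  rw [add_assoc, ← smul_add, ← Finset.sum_add_distrib]
  congr 2
  apply Finset.sum_congr rfl
  intro i _
  rw [← smul_add]
  congr 1
  abel

lemma uu_eq (r : B → ℝ) (n : ℕ) :
    ff cs r (n + 1) - ff cs r n = ((TT cs r) ^ n) (vv cs r) := by
  induction n with
  | zero => rw [pow_zero, Module.End.one_apply, ff_succ]; simp [ff]
  | succ n ih =>
    rw [pow_succ', Module.End.mul_apply, ← ih, map_sub, ff_succ cs r (n + 1)]
    conv_lhs => rw [ff_succ cs r n]
    rw [← ff_succ cs r n]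
    abel_nf
    rw [ff_succ cs r n]
    abel

lemma ip_TT (r : B → ℝ) (f g : W →₀ ℝ) : ip (TT cs r f) g = ip f (TT cs r g) := by
  simp only [TT, LinearMap.add_apply, LinearMap.id_apply, LinearMap.smul_apply,
    LinearMap.sum_apply, LinearMap.sub_apply, map_add, map_smul, map_sum, map_sub]
  congr 2
  apply Finset.sum_congr rfl
  intro i _
  rw [ip_pis]

lemma ip_TT_pow (r : B → ℝ) (n : ℕ) (f g : W →₀ ℝ) :
    ip (((TT cs r) ^ n) f) g = ip f (((TT cs r) ^ n) g) := by
  induction n generalizing f g with
  | zero => simp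
  | succ n ih =>
    rw [pow_succ, Module.End.mul_apply, ih, ip_TT, ← Module.End.mul_apply, ← pow_succ', pow_succ]

lemma ff_add (r : B → ℝ) (n m : ℕ) :
    ff cs r (n + m) = ((TT cs r) ^ n) (ff cs r m) + ff cs r n := by
  induction n with
  | zero => simp [ff]
  | succ n ih =>
    rw [show n + 1 + m = (n + m) + 1 by ring, ff_succ, ih, map_add, pow_succ', Module.End.mul_apply,
      ff_succ]
    abel

lemma LL_ff (r : B → ℝ) (hK : KK r ≠ 0) (n : ℕ) :
    LL cs r (ff cs r n) = KK r • (ff cs r (n + 1) - ff cs r n) := by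
  have : ff cs r (n + 1) = ff cs r n + (1 / KK r) • LL cs r (ff cs r n) := rfl
  rw [this, add_sub_cancel_left, smul_smul, mul_one_div_cancel hK, one_smul]

/-- The increments. -/
noncomputable def dd (r : B → ℝ) (n : ℕ) : ℝ := ∑ i, r i * (1 - ff cs r n (cs.simple i))

lemma En_eq (r : B → ℝ) (f : W →₀ ℝ) :
    En cs r f = ∑ i, r i * (2 - 2 * f (cs.simple i)) - ip (LL cs r f) f := by
  unfold En LL
  rw [map_sum, LinearMap.sum_apply, ← Finset.sum_sub_distrib, Finset.mul_sum]
  apply Finset.sum_congr rfl
  intro i _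
  rw [ip_DD, map_smul, LinearMap.smul_apply, smul_eq_mul]
  ring

lemma ip_vv (r : B → ℝ) (f : W →₀ ℝ) :
    ip (vv cs r) f = (1 / KK r) * ∑ i, r i * (2 * f (cs.simple i)) := by
  unfold vv
  rw [map_smul, LinearMap.smul_apply, smul_eq_mul, map_sum, LinearMap.sum_apply]
  congr 1
  apply Finset.sum_congr rfl
  intro i _
  rw [map_smul, LinearMap.smul_apply, smul_eq_mul, ip_single]

/-- The energy of `1 - f_n`. -/
lemma En_ff (r : B → ℝ) (hK : KK r ≠ 0) (n : ℕ) : En cs r (ff cs r n) = 2 * dd cs r (2 * n) := by
  rw [En_eq, LL_ff cs r hK, map_smul, LinearMap.smul_apply, smul_eq_mul, uu_eq, ip_TT_pow]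
  have h1 := ff_add cs r n n
  have h2 : ((TT cs r) ^ n) (ff cs r n) = ff cs r (2 * n) - ff cs r n := by
    rw [two_mul, h1]; abel
  rw [h2, ip_vv, ← mul_assoc, mul_one_div_cancel hK, one_mul, ← Finset.sum_sub_distrib]
  unfold dd
  rw [Finset.mul_sum]
  apply Finset.sum_congr rfl
  intro i _
  rw [Finsupp.sub_apply]
  ring

section pos

variable {r : B → ℝ} (hr : ∀ i, 0 < r i)

include hr

lemma lam_nonneg : 0 ≤ lam r := Finset.sum_nonneg (fun i _ => (hr i).le)

lemma KK_pos : 0 < KK r := by
  have := lam_nonneg hr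
  unfold KK; linarith

lemma TT_nonneg {f : W →₀ ℝ} (hf : ∀ t, 0 ≤ f t) (t : W) : 0 ≤ TT cs r f t := by
  classical
  have hK := KK_pos hr
  have h1 : TT cs r f t = f t + (1 / KK r) * ∑ i, r i * (pis cs i f t - f t) := by
    simp [TT]
  have h2 : -(2 * lam r * f t) ≤ ∑ i, r i * (pis cs i f t - f t) := by
    have : -(2 * lam r * f t) = ∑ i, r i * (-(2 * f t)) := by
      rw [← Finset.sum_mul]; unfold lam; ring
    rw [this]
    apply Finset.sum_le_sum
    intro i _
    apply mul_le_mul_of_nonneg_left _ (hr i).le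
    rw [pis_apply]
    split_ifs
    · have := hf t; linarith
    · have := hf t
      have := hf (cs.simple i * t * cs.simple i)
      linarith
  rw [h1]
  have h3 : (1 / KK r) * (-(2 * lam r * f t)) ≤ (1 / KK r) * ∑ i, r i * (pis cs i f t - f t) :=
    mul_le_mul_of_nonneg_left h2 (by positivity)
  have h4 : -(f t) ≤ (1 / KK r) * (-(2 * lam r * f t)) := by
    rw [one_div, inv_mul_eq_div, le_div_iff₀ hK]
    unfold KK
    have := hf t
    nlinarith
  linarith

lemma vv_nonneg (t : W) : 0 ≤ vv cs r t := by
  classical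
  have hK := KK_pos hr
  have h1 : vv cs r t = (1 / KK r) * ∑ i, r i * (Finsupp.single (cs.simple i) (2 : ℝ)) t := by
    simp only [vv, Finsupp.smul_apply, Finsupp.finsetSum_apply, smul_eq_mul]
  rw [h1]
  apply mul_nonneg (by positivity)
  apply Finset.sum_nonneg
  intro i _
  apply mul_nonneg (hr i).le
  rw [Finsupp.single_apply]
  split_ifs <;> norm_num

lemma uu_nonneg (n : ℕ) (t : W) : 0 ≤ (ff cs r (n + 1) - ff cs r n) t := by
  rw [uu_eq]
  induction n generalizing t with
  | zero => simpa using vv_nonneg cs hr t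
  | succ n ih =>
    rw [pow_succ', Module.End.mul_apply]
    exact TT_nonneg cs hr ih t

lemma ff_mono (t : W) : Monotone (fun n => ff cs r n t) := by
  apply monotone_nat_of_le_succ
  intro n
  have := uu_nonneg cs hr n t
  rw [Finsupp.sub_apply] at this
  linarith

lemma ff_nonneg (n : ℕ) (t : W) : 0 ≤ ff cs r n t := by
  have := ff_mono cs hr t (Nat.zero_le n)
  simpa [ff] using this

lemma ff_le_one (n : ℕ) (t : W) : ff cs r n t ≤ 1 := by
  classical
  induction n generalizing t with
  | zero => simp [ff]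
  | succ n ih =>
    have hK := KK_pos hr
    have h1 : ff cs r (n + 1) t = ff cs r n t + (1 / KK r) * ∑ i, r i * DD cs i (ff cs r n) t := by
      simp [ff, LL]
    have h2 : ∑ i, r i * DD cs i (ff cs r n) t ≤ 2 * lam r * (1 - ff cs r n t) := by
      have : 2 * lam r * (1 - ff cs r n t) = ∑ i, r i * (2 * (1 - ff cs r n t)) := by
        rw [← Finset.sum_mul]; unfold lam; ring
      rw [this]
      apply Finset.sum_le_sum
      intro i _
      apply mul_le_mul_of_nonneg_left _ (hr i).le
      by_cases ht : t = cs.simple i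
      · rw [ht, DD_self]; linarith
      · unfold DD
        rw [Finsupp.sub_apply, Finsupp.add_apply, pis_apply, if_neg ht,
          Finsupp.single_eq_of_ne ht]
        have := ih t
        have := ih (cs.simple i * t * cs.simple i)
        linarith
    have h3 : (1 / KK r) * ∑ i, r i * DD cs i (ff cs r n) t ≤
        (1 / KK r) * (2 * lam r * (1 - ff cs r n t)) :=
      mul_le_mul_of_nonneg_left h2 (by positivity)
    have h4 : (1 / KK r) * (2 * lam r * (1 - ff cs r n t)) ≤ 1 - ff cs r n t := by
      rw [one_div, inv_mul_eq_div, div_le_iff₀ hK]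
      unfold KK
      have := ih t
      nlinarith
    linarith

lemma dd_anti : Antitone (dd cs r) := by
  intro n m h
  unfold dd
  apply Finset.sum_le_sum
  intro i _
  apply mul_le_mul_of_nonneg_left _ (hr i).le
  have := ff_mono cs hr (cs.simple i) h
  simp only at this
  linarith

lemma dd_nonneg (n : ℕ) : 0 ≤ dd cs r n := by
  unfold dd
  apply Finset.sum_nonneg
  intro i _
  apply mul_nonneg (hr i).le
  have := ff_le_one cs hr n (cs.simple i)
  linarith

end pos

/-- The speed. -/
noncomputable def sig (r : B → ℝ) : ℝ := ⨅ n, dd cs r n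

section pos2

variable {r : B → ℝ} (hr : ∀ i, 0 < r i)

include hr

lemma dd_tendsto : Tendsto (dd cs r) atTop (𝓝 (sig cs r)) :=
  tendsto_atTop_ciInf (dd_anti cs hr) ⟨0, by rintro _ ⟨n, rfl⟩; exact dd_nonneg cs hr n⟩

lemma sig_le (n : ℕ) : sig cs r ≤ dd cs r n :=
  ciInf_le ⟨0, by rintro _ ⟨n, rfl⟩; exact dd_nonneg cs hr n⟩ n

/-- Lower bound for the energy. -/
lemma energy_ge (f : W →₀ ℝ) : 2 * sig cs r ≤ En cs r f := by
  have hK := KK_pos hr
  have key : ∀ n, 2 * sig cs r - 2 * KK r * ip (ff cs r (n + 1) - ff cs r n) f ≤ En cs r f := by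
    intro n
    have h1 : ∀ i, ip (DD cs i (ff cs r n)) (DD cs i (ff cs r n)) -
        4 * ip (DD cs i (ff cs r n)) (f - ff cs r n) ≤ ip (DD cs i f) (DD cs i f) := by
      intro i
      set w := f - ff cs r n with hw
      set D := DD cs i (ff cs r n) with hD
      have h2 : DD cs i f = D + (pis cs i w - w) := by
        rw [hD, hw]; unfold DD; rw [map_sub]; abel
      rw [h2]
      simp only [map_add, LinearMap.add_apply]
      rw [ip_symm (pis cs i w - w) D]
      have h3 : ip D (pis cs i w - w) = -(2 * ip D w) := by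
        rw [map_sub, ← ip_pis, hD, pis_DD, map_neg, LinearMap.neg_apply]; ring
      rw [h3]
      have h4 := ip_self_nonneg (pis cs i w - w)
      linarith
    have h5 : En cs r (ff cs r n) - 2 * ip (LL cs r (ff cs r n)) (f - ff cs r n) ≤ En cs r f := by
      unfold En LL
      rw [map_sum, LinearMap.sum_apply, Finset.mul_sum, Finset.mul_sum, Finset.mul_sum,
        ← Finset.sum_sub_distrib]
      apply Finset.sum_le_sum
      intro i _
      rw [map_smul, LinearMap.smul_apply, smul_eq_mul]
      have := mul_le_mul_of_nonneg_left (h1 i) (hr i).le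
      linarith
    rw [En_ff cs r hK.ne', LL_ff cs r hK.ne', map_smul, LinearMap.smul_apply, smul_eq_mul,
      map_sub (ip (ff cs r (n + 1) - ff cs r n)) f (ff cs r n)] at h5
    have h6 := sig_le cs hr (2 * n)
    have h7 : 0 ≤ ip (ff cs r (n + 1) - ff cs r n) (ff cs r n) :=
      ip_nonneg (uu_nonneg cs hr n) (ff_nonneg cs hr n)
    have h8 := mul_nonneg hK.le h7
    linarith
  have hlim : Tendsto (fun n => 2 * sig cs r - 2 * KK r * ip (ff cs r (n + 1) - ff cs r n) f)
      atTop (𝓝 (2 * sig cs r - 2 * KK r * 0)) := by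
    apply Tendsto.const_sub
    apply Tendsto.const_mul
    have h1 : ∀ t : W, Tendsto (fun n => (ff cs r (n + 1) - ff cs r n) t) atTop (𝓝 0) := by
      intro t
      have h2 : Tendsto (fun n => ff cs r n t) atTop (𝓝 (⨆ n, ff cs r n t)) :=
        tendsto_atTop_ciSup (ff_mono cs hr t) ⟨1, by rintro _ ⟨n, rfl⟩; exact ff_le_one cs hr n t⟩
      have h3 := (h2.comp (tendsto_add_atTop_nat 1)).sub h2
      simpa using h3
    have h4 : ∀ n, ip (ff cs r (n + 1) - ff cs r n) f =
        ∑ t ∈ f.support, f t * (ff cs r (n + 1) - ff cs r n) t := by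
      intro n
      rw [ip_symm, ip_eq_sum]
    simp only [h4]
    have h5 : (0 : ℝ) = ∑ t ∈ f.support, f t * 0 := by simp
    rw [h5]
    exact tendsto_finsetSum _ (fun t _ => (h1 t).const_mul _)
  have := le_of_tendsto hlim (Eventually.of_forall key)
  linarith

end pos2

lemma En_linear (a b : ℝ) (r r' : B → ℝ) (f : W →₀ ℝ) :
    En cs (a • r + b • r') f = a * En cs r f + b * En cs r' f := by
  unfold En
  simp only [Pi.add_apply, Pi.smul_apply, smul_eq_mul, Finset.mul_sum]
  rw [← Finset.sum_add_distrib]
  apply Finset.sum_congr rfl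
  intro i _
  ring

/-- Concavity. -/
theorem sig_concave : ConcaveOn ℝ {r : B → ℝ | ∀ i, 0 < r i} (sig cs) := by
  constructor
  · intro r hr r' hr' a b ha hb hab i
    simp only [Pi.add_apply, Pi.smul_apply, smul_eq_mul]
    have h1 := hr i
    have h2 := hr' i
    rcases ha.eq_or_lt with rfl | ha
    · have : b = 1 := by linarith
      subst this; simpa using h2
    · have := mul_pos ha h1
      have := mul_nonneg hb h2.le
      linarith
  · intro r hr r' hr' a b ha hb hab
    have hr : ∀ i, 0 < r i := hr
    have hr' : ∀ i, 0 < r' i := hr'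
    have hs : ∀ i, 0 < (a • r + b • r') i := by
      intro i
      simp only [Pi.add_apply, Pi.smul_apply, smul_eq_mul]
      have h1 := hr i
      have h2 := hr' i
      rcases ha.eq_or_lt with rfl | ha
      · have : b = 1 := by linarith
        subst this; simpa using h2
      · have := mul_pos ha h1
        have := mul_nonneg hb h2.le
        linarith
    have hK := KK_pos hs
    have hlim : Tendsto (fun n => 2 * dd cs (a • r + b • r') (2 * n)) atTop
        (𝓝 (2 * sig cs (a • r + b • r'))) := by
      apply Tendsto.const_mul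
      exact (dd_tendsto cs hs).comp (tendsto_id.const_mul_atTop' (by norm_num))
    have hge : ∀ n, 2 * (a * sig cs r + b * sig cs r') ≤ 2 * dd cs (a • r + b • r') (2 * n) := by
      intro n
      rw [← En_ff cs _ hK.ne', En_linear]
      have h1 := mul_le_mul_of_nonneg_left (energy_ge cs hr (ff cs (a • r + b • r') n)) ha
      have h2 := mul_le_mul_of_nonneg_left (energy_ge cs hr' (ff cs (a • r + b • r') n)) hb
      linarith
    have := ge_of_tendsto hlim (Eventually.of_forall hge)
    simp only [smul_eq_mul]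
    linarith

end finite

end Pool.Agent.Q87.Cox.Speed
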