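import Pool.Agent.Q87.Cox.Speed

set_option autoImplicit false
set_option linter.unusedSectionVars false

/-! The mean distance of the continuous-time walk in terms of the energy recursion. -/

namespace Pool.Agent.Q87.Cox.Speed

open CoxeterSystem Pool.Agent.Q87.Cox Filter Topology

variable {B : Type} {W : Type} [Group W] {M : CoxeterMatrix B} (cs : CoxeterSystem M W)

/-- The function recording the inversions of a word. -/
noncomputable def fword : List B → (W →₀ ℝ)
  | [] => 0
  | i :: ω => Finsupp.single (cs.simple i) 2 + pis cs i (fword ω)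

lemma par_lt {w t : W} (h : par cs w t ≠ 0) : cs.length (w * t) < cs.length w := by
  obtain ⟨ω, hω, hp⟩ := cs.exists_isReduced w
  rw [hp] at h ⊢
  exact (cs.isRightInversion_of_mem_rightInvSeq hω (mem_rightInvSeq_of_par cs ω t h)).2

lemma par_gt {w t : W} (ht : cs.IsReflection t) (h : par cs w t = 0) :
    cs.length w < cs.length (w * t) := by
  have h1 : par cs (w * t) t ≠ 0 := by
    have e : t * t * t⁻¹ = t := by group
    rw [par_mul, par_self cs ht, e, h]
    decide
  have h2 := par_lt cs h1
  rwa [mul_assoc, ht.mul_self, mul_one] at h2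

open Classical in
lemma fword_apply (ω : List B) (t : W) :
    fword cs ω t = if par cs (cs.wordProd ω)⁻¹ t = 0 then 0 else 2 := by
  induction ω generalizing t with
  | nil => simp [fword, par_one]
  | cons i ω ih =>
    have hpar : par cs (cs.wordProd (i :: ω))⁻¹ t = par cs (cs.simple i) t +
        par cs (cs.wordProd ω)⁻¹ (cs.simple i * t * cs.simple i) := by
      rw [cs.wordProd_cons, mul_inv_rev, cs.inv_simple, par_mul, cs.inv_simple]
    rw [hpar]
    simp only [fword]
    rw [Finsupp.add_apply, pis_apply, par_simple]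
    by_cases ht : t = cs.simple i
    · rw [if_pos ht, if_pos ht, ih, ht, Finsupp.single_eq_same]
      have e : cs.simple i * cs.simple i * cs.simple i = cs.simple i := by simp
      rw [e]
      have hz : ∀ z : ZMod 2, z = 0 ∨ z = 1 := by decide
      rcases hz (par cs (cs.wordProd ω)⁻¹ (cs.simple i)) with h | h
      · rw [h]; simp
      · rw [h]
        have : (1 : ZMod 2) + 1 = 0 := by decide
        simp [this]
    · rw [if_neg ht, if_neg ht, ih, Finsupp.single_eq_of_ne ht, zero_add, zero_add]

lemma tot_fword (ω : List B) : tot (fword cs ω) = 2 * cs.length (cs.wordProd ω) := by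
  classical
  induction ω with
  | nil => simp [fword]
  | cons i ω ih =>
    simp only [fword]
    rw [map_add, tot_single, tot_pis, ih, fword_apply, cs.wordProd_cons]
    have hrefl := cs.isReflection_simple i
    have e : (cs.wordProd ω)⁻¹ * cs.simple i = (cs.simple i * cs.wordProd ω)⁻¹ := by
      rw [mul_inv_rev, cs.inv_simple]
    by_cases h : par cs (cs.wordProd ω)⁻¹ (cs.simple i) = 0
    · rw [if_pos h]
      have h1 := par_gt cs hrefl h
      rw [e, cs.length_inv, cs.length_inv] at h1
      have h2 : cs.length (cs.simple i * cs.wordProd ω) = cs.length (cs.wordProd ω) + 1 := by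
        have := cs.length_simple_mul (cs.wordProd ω) i
        omega
      rw [h2]; push_cast; ring
    · rw [if_neg h]
      have h1 := par_lt cs h
      rw [e, cs.length_inv, cs.length_inv] at h1
      have h2 : cs.length (cs.simple i * cs.wordProd ω) + 1 = cs.length (cs.wordProd ω) := by
        have := cs.length_simple_mul (cs.wordProd ω) i
        omega
      rw [← h2]; push_cast; ring

variable [Fintype B]

/-- The sum over words of length `n` of the product of the rates times the length of the
product of the word. -/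
noncomputable def wordSum (r : B → ℝ) (n : ℕ) : ℝ :=
  ∑ ω : Fin n → B, (∏ k, r (ω k)) * cs.length (cs.wordProd (List.ofFn ω))

/-- `E|Z_t|`, by conditioning on the number of jumps. -/
noncomputable def meanDist (r : B → ℝ) (t : ℝ) : ℝ :=
  Real.exp (-(∑ i, r i) * t) * ∑' n : ℕ, t ^ n / (n.factorial : ℝ) * wordSum cs r n

/-- One affine step, linearised. -/
noncomputable def AA (i : B) : Module.End ℝ ((W →₀ ℝ) × ℝ) :=
  LinearMap.prod ((pis cs i).comp (LinearMap.fst ℝ (W →₀ ℝ) ℝ) +
    (LinearMap.snd ℝ (W →₀ ℝ) ℝ).smulRight (Finsupp.single (cs.simple i) (2 : ℝ)))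
    (LinearMap.snd ℝ (W →₀ ℝ) ℝ)

lemma AA_apply (i : B) (f : W →₀ ℝ) (c : ℝ) :
    AA cs i (f, c) = (pis cs i f + c • Finsupp.single (cs.simple i) (2 : ℝ), c) := rfl

/-- The weighted sum of the affine steps. -/
noncomputable def XX (r : B → ℝ) : Module.End ℝ ((W →₀ ℝ) × ℝ) := ∑ i, r i • AA cs i

lemma XX_apply (r : B → ℝ) (f : W →₀ ℝ) (c : ℝ) :
    XX cs r (f, c) = (∑ i, r i • (pis cs i f + c • Finsupp.single (cs.simple i) (2 : ℝ)),
      lam r * c) := by
  unfold XX
  rw [LinearMap.sum_apply]
  simp only [LinearMap.smul_apply, AA_apply, Prod.smul_mk]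
  rw [Prod.ext_iff]
  constructor
  · rw [Prod.fst_sum]
  · rw [Prod.snd_sum]
    simp only [smul_eq_mul]
    rw [← Finset.sum_mul]; rfl

lemma sum_prod_words (r : B → ℝ) (n : ℕ) : ∑ ω : Fin n → B, ∏ k, r (ω k) = lam r ^ n := by
  induction n with
  | zero => simp
  | succ n ih =>
    rw [← (Fin.consEquiv (fun _ => B)).sum_comp, Fintype.sum_prod_type]
    simp only [Fin.consEquiv, Equiv.coe_fn_mk, Fin.prod_univ_succ, Fin.cons_zero, Fin.cons_succ]
    simp only [← Finset.mul_sum, ih]
    rw [← Finset.sum_mul, pow_succ']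
    rfl

lemma XX_pow (r : B → ℝ) (n : ℕ) : ((XX cs r) ^ n) (0, 1) =
    (∑ ω : Fin n → B, (∏ k, r (ω k)) • fword cs (List.ofFn ω), lam r ^ n) := by
  induction n with
  | zero => simp [fword]
  | succ n ih =>
    rw [pow_succ', Module.End.mul_apply, ih, XX_apply, Prod.ext_iff]
    constructor
    · simp only
      rw [← (Fin.consEquiv (fun _ => B)).sum_comp, Fintype.sum_prod_type]
      apply Finset.sum_congr rfl
      intro i _
      simp only [Fin.consEquiv, Equiv.coe_fn_mk, Fin.prod_univ_succ, Fin.cons_zero, Fin.cons_succ,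
        List.ofFn_cons, fword]
      rw [map_sum, ← sum_prod_words, Finset.sum_smul, ← Finset.sum_add_distrib, Finset.smul_sum]
      apply Finset.sum_congr rfl
      intro ω _
      rw [map_smul, ← smul_add, smul_smul, add_comm]
    · simp only
      rw [pow_succ']

lemma shift_pow (r : B → ℝ) (hK : KK r ≠ 0) (n : ℕ) :
    ((XX cs r + (KK r - lam r) • (1 : Module.End ℝ ((W →₀ ℝ) × ℝ))) ^ n) (0, 1) =
      (KK r ^ n • ff cs r n, KK r ^ n) := by
  induction n with
  | zero => simp [ff]
  | succ n ih =>
    rw [pow_succ', Module.End.mul_apply, ih, LinearMap.add_apply, XX_apply, LinearMap.smul_apply,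
      Module.End.one_apply, Prod.smul_mk, Prod.mk_add_mk, Prod.ext_iff]
    constructor
    · simp only
      have h1 : ff cs r (n + 1) = ff cs r n + (1 / KK r) • LL cs r (ff cs r n) := rfl
      have h2 : KK r ^ (n + 1) * (1 / KK r) = KK r ^ n := by
        rw [pow_succ]; field_simp
      rw [h1, smul_add, smul_smul (KK r ^ (n + 1)) (1 / KK r), h2, pow_succ]
      unfold LL DD
      have h3 : ∑ i, r i • (Finsupp.single (cs.simple i) (2 : ℝ) + pis cs i (ff cs r n) -
          ff cs r n) = ∑ i, r i • (pis cs i (ff cs r n) + Finsupp.single (cs.simple i) (2 : ℝ)) -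
          lam r • ff cs r n := by
        unfold lam
        rw [Finset.sum_smul, ← Finset.sum_sub_distrib]
        apply Finset.sum_congr rfl
        intro i _
        rw [← smul_sub]
        congr 1
        abel
      rw [h3, smul_sub, Finset.smul_sum]
      have h4 : ∑ i, r i • (pis cs i (KK r ^ n • ff cs r n) +
          KK r ^ n • Finsupp.single (cs.simple i) (2 : ℝ)) = ∑ i, KK r ^ n •
          (r i • (pis cs i (ff cs r n) + Finsupp.single (cs.simple i) (2 : ℝ))) := by
        apply Finset.sum_congr rfl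
        intro i _
        rw [map_smul, ← smul_add, smul_smul, smul_smul, mul_comm]
      rw [h4]
      module
    · simp only [smul_eq_mul]
      ring

/-- Half the total mass of `f_n`: the mean distance of the lazy chain. -/
noncomputable def gg (r : B → ℝ) (n : ℕ) : ℝ := (1 / 2) * tot (ff cs r n)

lemma wordSum_eq (r : B → ℝ) (n : ℕ) :
    wordSum cs r n = (1 / 2) * tot (((XX cs r) ^ n) (0, 1)).1 := by
  rw [XX_pow]
  simp only
  rw [map_sum, Finset.mul_sum]
  unfold wordSum
  apply Finset.sum_congr rfl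
  intro ω _
  rw [map_smul, tot_fword, smul_eq_mul]
  ring

lemma gg_eq (r : B → ℝ) (hK : KK r ≠ 0) (n : ℕ) : KK r ^ n * gg cs r n =
    ∑ m ∈ Finset.range (n + 1), (n.choose m : ℝ) * (KK r - lam r) ^ (n - m) * wordSum cs r m := by
  have h1 := shift_pow cs r hK n
  have hcomm : Commute (XX cs r) ((KK r - lam r) • (1 : Module.End ℝ ((W →₀ ℝ) × ℝ))) :=
    (Commute.one_right _).smul_right _
  rw [hcomm.add_pow] at h1
  have h2 := congrArg (fun z : (W →₀ ℝ) × ℝ => (1 / 2) * tot z.1) h1
  simp only at h2
  rw [map_smul, smul_eq_mul, LinearMap.sum_apply, Prod.fst_sum, map_sum, Finset.mul_sum] at h2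
  unfold gg
  rw [show KK r ^ n * ((1 / 2) * tot (ff cs r n)) = 1 / 2 * (KK r ^ n * tot (ff cs r n)) by ring,
    ← h2]
  apply Finset.sum_congr rfl
  intro m _
  rw [wordSum_eq]
  have h3 : (XX cs r ^ m * ((KK r - lam r) • (1 : Module.End ℝ ((W →₀ ℝ) × ℝ))) ^ (n - m) *
      ((n.choose m : ℕ) : Module.End ℝ ((W →₀ ℝ) × ℝ))) (0, 1) =
      ((n.choose m : ℝ) * (KK r - lam r) ^ (n - m)) • (XX cs r ^ m) (0, 1) := by
    rw [smul_pow, one_pow, Module.End.mul_apply, Module.End.mul_apply, LinearMap.smul_apply,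
      Module.End.one_apply, Module.End.natCast_apply, map_smul]
    rw [← Nat.cast_smul_eq_nsmul ℝ, map_smul, smul_smul, mul_comm]
  rw [h3, Prod.smul_fst, map_smul, smul_eq_mul]
  ring

lemma wordSum_nonneg {r : B → ℝ} (hr : ∀ i, 0 < r i) (n : ℕ) : 0 ≤ wordSum cs r n := by
  unfold wordSum
  apply Finset.sum_nonneg
  intro ω _
  apply mul_nonneg (Finset.prod_nonneg (fun k _ => (hr _).le))
  positivity

lemma wordSum_le {r : B → ℝ} (hr : ∀ i, 0 < r i) (n : ℕ) : wordSum cs r n ≤ n * lam r ^ n := by
  unfold wordSum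
  rw [← sum_prod_words, Finset.mul_sum]
  apply Finset.sum_le_sum
  intro ω _
  rw [mul_comm (n : ℝ)]
  apply mul_le_mul_of_nonneg_left _ (Finset.prod_nonneg (fun k _ => (hr _).le))
  have := cs.length_wordProd_le (List.ofFn ω)
  rw [List.length_ofFn] at this
  exact_mod_cast this

lemma summable_mul_pow (x : ℝ) : Summable (fun n : ℕ => x ^ n / (n.factorial : ℝ) * n) := by
  rw [← summable_nat_add_iff 1]
  have h := (Real.summable_pow_div_factorial x).mul_left x
  refine h.congr ?_
  intro n
  rw [Nat.factorial_succ, pow_succ]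
  have h1 : (n.factorial : ℝ) ≠ 0 := by exact_mod_cast n.factorial_ne_zero
  have h2 : ((n : ℝ) + 1) ≠ 0 := by positivity
  push_cast
  field_simp

lemma tsum_mul_pow (x : ℝ) : ∑' n : ℕ, x ^ n / (n.factorial : ℝ) * n = x * Real.exp x := by
  rw [(summable_mul_pow x).tsum_eq_zero_add]
  simp only [Nat.cast_zero, mul_zero, zero_add]
  have h1 : ∀ n : ℕ, x ^ (n + 1) / ((n + 1).factorial : ℝ) * ((n + 1 : ℕ) : ℝ) =
      x * (x ^ n / (n.factorial : ℝ)) := by
    intro n
    rw [Nat.factorial_succ, pow_succ]
    have h1 : (n.factorial : ℝ) ≠ 0 := by exact_mod_cast n.factorial_ne_zero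
    have h2 : ((n : ℝ) + 1) ≠ 0 := by positivity
    push_cast
    field_simp
  simp only [h1]
  rw [tsum_mul_left, Real.exp_eq_exp_ℝ, NormedSpace.exp_eq_tsum_div]

lemma tsum_exp (x : ℝ) : ∑' n : ℕ, x ^ n / (n.factorial : ℝ) = Real.exp x := by
  rw [Real.exp_eq_exp_ℝ, NormedSpace.exp_eq_tsum_div]

/-- The mean distance through the lazy chain. -/
lemma meanDist_eq {r : B → ℝ} (hr : ∀ i, 0 < r i) {t : ℝ} (ht : 0 ≤ t) :
    meanDist cs r t = Real.exp (-(KK r * t)) *
      ∑' n : ℕ, (KK r * t) ^ n / (n.factorial : ℝ) * gg cs r n := by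
  have hK := KK_pos hr
  have hlam := lam_nonneg hr
  have hKl : 0 ≤ KK r - lam r := by unfold KK; linarith
  -- the two series
  set a : ℕ → ℝ := fun n => t ^ n / (n.factorial : ℝ) * wordSum cs r n with ha
  set b : ℕ → ℝ := fun n => ((KK r - lam r) * t) ^ n / (n.factorial : ℝ) with hb
  have ha0 : ∀ n, 0 ≤ a n := fun n => mul_nonneg (by positivity) (wordSum_nonneg cs hr n)
  have hb0 : ∀ n, 0 ≤ b n := fun n => by
    have : 0 ≤ (KK r - lam r) * t := mul_nonneg hKl ht
    positivity
  have hasum : Summable a := by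
    apply Summable.of_nonneg_of_le ha0 _ (summable_mul_pow (lam r * t))
    intro n
    have h1 := wordSum_le cs hr n
    have h2 : 0 ≤ t ^ n / (n.factorial : ℝ) := by positivity
    calc a n ≤ t ^ n / (n.factorial : ℝ) * (n * lam r ^ n) := mul_le_mul_of_nonneg_left h1 h2
      _ = (lam r * t) ^ n / (n.factorial : ℝ) * n := by rw [mul_pow]; ring
  have hbsum : Summable b := Real.summable_pow_div_factorial _
  have hprod := tsum_mul_tsum_eq_tsum_sum_antidiagonal_of_summable_norm
    (f := a) (g := b) (by simpa [Real.norm_eq_abs, abs_of_nonneg (ha0 _)] using hasum)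
    (by simpa [Real.norm_eq_abs, abs_of_nonneg (hb0 _)] using hbsum)
  have hterm : ∀ n : ℕ, ∑ kl ∈ Finset.HasAntidiagonal.antidiagonal n, a kl.1 * b kl.2 =
      (KK r * t) ^ n / (n.factorial : ℝ) * gg cs r n := by
    intro n
    have h1 : (KK r * t) ^ n / (n.factorial : ℝ) * gg cs r n =
        t ^ n / (n.factorial : ℝ) * (KK r ^ n * gg cs r n) := by rw [mul_pow]; ring
    rw [h1, gg_eq cs r hK.ne' n, Finset.mul_sum, Finset.Nat.sum_antidiagonal_eq_sum_range_succ_mk]
    apply Finset.sum_congr rfl
    intro m hm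
    have hm' : m ≤ n := by
      have := Finset.mem_range.1 hm
      omega
    simp only [ha, hb]
    rw [mul_pow, Nat.choose_eq_factorial_div_factorial hm',
      Nat.cast_div (Nat.factorial_mul_factorial_dvd_factorial hm')
        (by positivity)]
    have e1 : t ^ n = t ^ m * t ^ (n - m) := by rw [← pow_add]; congr 1; omega
    rw [e1]
    have h1 : (n.factorial : ℝ) ≠ 0 := by exact_mod_cast n.factorial_ne_zero
    have h2 : (m.factorial : ℝ) ≠ 0 := by exact_mod_cast m.factorial_ne_zero
    have h3 : ((n - m).factorial : ℝ) ≠ 0 := by exact_mod_cast (n - m).factorial_ne_zero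
    push_cast
    field_simp
  simp only [hterm] at hprod
  rw [← hprod]
  unfold meanDist
  change Real.exp (-(lam r) * t) * ∑' n, a n = _
  have hbexp : ∑' n, b n = Real.exp ((KK r - lam r) * t) := tsum_exp _
  rw [hbexp]
  have : Real.exp (-(lam r) * t) = Real.exp (-(KK r * t)) * Real.exp ((KK r - lam r) * t) := by
    rw [← Real.exp_add]; congr 1; ring
  rw [this]; ring

lemma gg_succ {r : B → ℝ} (n : ℕ) : gg cs r (n + 1) = gg cs r n + (1 / KK r) * dd cs r n := by
  have h1 : ff cs r (n + 1) = ff cs r n + (1 / KK r) • LL cs r (ff cs r n) := rfl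
  unfold gg
  rw [h1, map_add, map_smul, smul_eq_mul]
  unfold LL dd
  rw [map_sum]
  have h2 : ∑ i, tot (r i • DD cs i (ff cs r n)) =
      2 * ∑ i, r i * (1 - ff cs r n (cs.simple i)) := by
    rw [Finset.mul_sum]
    apply Finset.sum_congr rfl
    intro i _
    rw [map_smul, tot_DD, smul_eq_mul]; ring
  rw [h2]; ring

lemma gg_zero (r : B → ℝ) : gg cs r 0 = 0 := by simp [gg, ff]

lemma gg_lower {r : B → ℝ} (hr : ∀ i, 0 < r i) (n : ℕ) : sig cs r / KK r * n ≤ gg cs r n := by
  have hK := KK_pos hr
  induction n with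
  | zero => simp [gg_zero]
  | succ n ih =>
    rw [gg_succ]
    have h1 := sig_le cs hr n
    have h2 : sig cs r / KK r ≤ 1 / KK r * dd cs r n := by
      rw [div_eq_mul_one_div, mul_comm]
      exact mul_le_mul_of_nonneg_left h1 (by positivity)
    push_cast
    linarith

lemma gg_upper {r : B → ℝ} (hr : ∀ i, 0 < r i) {δ : ℝ} (hδ : 0 < δ) :
    ∃ C : ℝ, 0 ≤ C ∧ ∀ n, gg cs r n ≤ (sig cs r + δ) / KK r * n + C := by
  have hK := KK_pos hr
  have hsig : 0 ≤ sig cs r := le_ciInf (fun n => dd_nonneg cs hr n)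
  have hev : ∀ᶠ n in atTop, dd cs r n < sig cs r + δ :=
    (dd_tendsto cs hr).eventually (gt_mem_nhds (by linarith))
  obtain ⟨N, hN⟩ := eventually_atTop.1 hev
  have hmono : Monotone (gg cs r) := by
    apply monotone_nat_of_le_succ
    intro n
    rw [gg_succ]
    have := dd_nonneg cs hr n
    have : 0 ≤ 1 / KK r * dd cs r n := by positivity
    linarith
  refine ⟨gg cs r N, ?_, ?_⟩
  · have := hmono (Nat.zero_le N)
    rwa [gg_zero] at this
  · intro n
    have hc : 0 ≤ (sig cs r + δ) / KK r := by positivity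
    rcases le_total n N with h | h
    · have h1 := hmono h
      have h2 : 0 ≤ (sig cs r + δ) / KK r * n := by positivity
      linarith
    · induction n, h using Nat.le_induction with
      | base =>
        have h2 : 0 ≤ (sig cs r + δ) / KK r * N := by positivity
        linarith
      | succ n hn ih =>
        rw [gg_succ]
        have h1 := hN n hn
        have h2 : 1 / KK r * dd cs r n ≤ (sig cs r + δ) / KK r := by
          rw [div_eq_mul_one_div (sig cs r + δ), mul_comm]
          exact mul_le_mul_of_nonneg_right h1.le (by positivity)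
        push_cast
        linarith

/-- The mean distance grows linearly with rate `sig`. -/
theorem meanDist_tendsto {r : B → ℝ} (hr : ∀ i, 0 < r i) :
    Tendsto (fun t => meanDist cs r t / t) atTop (𝓝 (sig cs r)) := by
  have hK := KK_pos hr
  have hsig : 0 ≤ sig cs r := le_ciInf (fun n => dd_nonneg cs hr n)
  have hgg0 : ∀ n, 0 ≤ gg cs r n := by
    intro n
    have h1 := gg_lower cs hr n
    have h2 : 0 ≤ sig cs r / KK r * n := by positivity
    linarith
  have hsummable : ∀ t : ℝ, 0 ≤ t → Summable (fun n : ℕ => (KK r * t) ^ n / (n.factorial : ℝ) *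
      gg cs r n) := by
    intro t ht
    obtain ⟨C, hC, h1⟩ := gg_upper cs hr one_pos
    have h2 : Summable (fun n : ℕ => (sig cs r + 1) / KK r * ((KK r * t) ^ n / (n.factorial : ℝ) * n)
      + C * ((KK r * t) ^ n / (n.factorial : ℝ))) :=
      ((summable_mul_pow _).mul_left _).add ((Real.summable_pow_div_factorial _).mul_left _)
    apply Summable.of_nonneg_of_le _ _ h2
    · intro n
      exact mul_nonneg (by positivity) (hgg0 n)
    · intro n
      have h3 : 0 ≤ (KK r * t) ^ n / (n.factorial : ℝ) := by positivity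
      have h4 := mul_le_mul_of_nonneg_left (h1 n) h3
      linarith
  have hlow : ∀ t : ℝ, 0 ≤ t → sig cs r * t ≤ meanDist cs r t := by
    intro t ht
    rw [meanDist_eq cs hr ht]
    have h1 : ∑' n : ℕ, sig cs r / KK r * ((KK r * t) ^ n / (n.factorial : ℝ) * n) ≤
        ∑' n : ℕ, (KK r * t) ^ n / (n.factorial : ℝ) * gg cs r n := by
      apply Summable.tsum_le_tsum _ ((summable_mul_pow _).mul_left _) (hsummable t ht)
      intro n
      have h3 : 0 ≤ (KK r * t) ^ n / (n.factorial : ℝ) := by positivity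
      have h4 := mul_le_mul_of_nonneg_left (gg_lower cs hr n) h3
      linarith
    rw [tsum_mul_left, tsum_mul_pow] at h1
    have h2 := mul_le_mul_of_nonneg_left h1 (Real.exp_pos (-(KK r * t))).le
    calc sig cs r * t = Real.exp (-(KK r * t)) * (sig cs r / KK r * (KK r * t *
          Real.exp (KK r * t))) := by
          rw [Real.exp_neg]
          have := Real.exp_pos (KK r * t)
          field_simp
      _ ≤ _ := h2
  have hup : ∀ δ : ℝ, 0 < δ → ∃ C : ℝ, ∀ t : ℝ, 0 ≤ t →
      meanDist cs r t ≤ (sig cs r + δ) * t + C := by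
    intro δ hδ
    obtain ⟨C, hC, hgu⟩ := gg_upper cs hr hδ
    refine ⟨C, fun t ht => ?_⟩
    rw [meanDist_eq cs hr ht]
    have hs1 : Summable (fun n : ℕ => (sig cs r + δ) / KK r * ((KK r * t) ^ n /
        (n.factorial : ℝ) * n)) := (summable_mul_pow _).mul_left _
    have hs2 : Summable (fun n : ℕ => C * ((KK r * t) ^ n / (n.factorial : ℝ))) :=
      (Real.summable_pow_div_factorial _).mul_left _
    have h1 : ∑' n : ℕ, (KK r * t) ^ n / (n.factorial : ℝ) * gg cs r n ≤
        ∑' n : ℕ, ((sig cs r + δ) / KK r * ((KK r * t) ^ n / (n.factorial : ℝ) * n) +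
          C * ((KK r * t) ^ n / (n.factorial : ℝ))) := by
      apply Summable.tsum_le_tsum _ (hsummable t ht) (hs1.add hs2)
      intro n
      have h3 : 0 ≤ (KK r * t) ^ n / (n.factorial : ℝ) := by positivity
      have h4 := mul_le_mul_of_nonneg_left (hgu n) h3
      linarith
    rw [hs1.tsum_add hs2, tsum_mul_left, tsum_mul_left, tsum_mul_pow, tsum_exp] at h1
    have h2 := mul_le_mul_of_nonneg_left h1 (Real.exp_pos (-(KK r * t))).le
    calc _ ≤ _ := h2
      _ = (sig cs r + δ) * t + C := by
          rw [Real.exp_neg]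
          have := Real.exp_pos (KK r * t)
          field_simp
  rw [tendsto_order]
  constructor
  · intro a ha
    filter_upwards [eventually_gt_atTop 0] with t ht
    have := hlow t ht.le
    rw [lt_div_iff₀ ht]
    nlinarith
  · intro a ha
    obtain ⟨C, hC⟩ := hup ((a - sig cs r) / 2) (by linarith)
    filter_upwards [eventually_gt_atTop 0, eventually_gt_atTop (2 * C / (a - sig cs r))] with t ht ht2
    have h1 := hC t ht.le
    rw [div_lt_iff₀ ht]
    rw [div_lt_iff₀ (by linarith)] at ht2
    nlinarith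

end Pool.Agent.Q87.Cox.Speed
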