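import Pool.Agent.Q87.Cox.Proj

set_option autoImplicit false

/-! Rank two standard parabolic subgroups and the definite case. -/

namespace Pool.Agent.Q87.Cox.Geo

open CoxeterSystem Pool.Agent.Q87.Cox Real

variable {B : Type*} {M : CoxeterMatrix B} {W : Type*} [Group W] {cs : CoxeterSystem M W}

/-- The rank two set of simple reflections. -/
def J2 (cs : CoxeterSystem M W) (a b : B) : Set W := {cs.simple a, cs.simple b}

lemma J2_sub (a b : B) : J2 cs a b ⊆ Set.range cs.simple := by
  rintro x (rfl | rfl)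
  · exact ⟨a, rfl⟩
  · exact ⟨b, rfl⟩

lemma parity_word (ω : List B) : cs.length (cs.wordProd ω) % 2 = ω.length % 2 := by
  induction ω with
  | nil => simp
  | cons i ω ih =>
    rw [cs.wordProd_cons, List.length_cons]
    rcases cs.length_simple_mul (cs.wordProd ω) i with h | h <;> omega

lemma dihedral_words (a b : B) (ω : List B) (h : ∀ i ∈ ω, cs.simple i ∈ J2 cs a b) :
    (ω.length % 2 = 0 → ∃ k : ℤ, cs.wordProd ω = (cs.simple a * cs.simple b) ^ k) ∧
    (ω.length % 2 = 1 → ∃ k : ℤ, cs.wordProd ω = (cs.simple a * cs.simple b) ^ k * cs.simple a) := by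
  have hconj : ∀ k : ℤ, cs.simple a * (cs.simple a * cs.simple b) ^ k =
      (cs.simple a * cs.simple b) ^ (-k) * cs.simple a := by
    intro k
    have h1 : cs.simple a * (cs.simple a * cs.simple b) * (cs.simple a)⁻¹ =
        (cs.simple a * cs.simple b)⁻¹ := by
      simp [mul_inv_rev]
    have h2 : cs.simple a * (cs.simple a * cs.simple b) ^ k * (cs.simple a)⁻¹ =
        (cs.simple a * cs.simple b) ^ (-k) := by
      rw [← conj_zpow, h1, inv_zpow, zpow_neg]
    rw [← h2]; group
  induction ω with
  | nil => exact ⟨fun _ => ⟨0, by simp⟩, fun h => by simp at h⟩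
  | cons i ω ih =>
    have ih' := ih (fun j hj => h j (by simp [hj]))
    have hi : cs.simple i = cs.simple a ∨ cs.simple i = cs.simple b := h i (by simp)
    have hb : cs.simple b = (cs.simple a * cs.simple b)⁻¹ * cs.simple a := by
      simp [mul_inv_rev]
    rw [cs.wordProd_cons, List.length_cons]
    constructor
    · intro hl
      obtain ⟨k, hk⟩ := ih'.2 (by omega)
      rcases hi with hi | hi
      · refine ⟨-k, ?_⟩
        rw [hk, hi, ← mul_assoc, hconj, mul_assoc, cs.simple_mul_simple_self, mul_one]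
      · refine ⟨-1 - k, ?_⟩
        rw [hk, hi, hb, ← mul_assoc, mul_assoc _ (cs.simple a), ← hb, hconj, ← mul_assoc, mul_assoc,
          cs.simple_mul_simple_self, mul_one, ← zpow_neg_one, ← zpow_add]
        congr 1
    · intro hl
      obtain ⟨k, hk⟩ := ih'.1 (by omega)
      rcases hi with hi | hi
      · refine ⟨-k, ?_⟩
        rw [hk, hi, hconj]
      · refine ⟨-1 - k, ?_⟩
        rw [hk, hi]
        have e1 : cs.simple b * (cs.simple a * cs.simple b) ^ k =
            (cs.simple a * cs.simple b)⁻¹ * cs.simple a * (cs.simple a * cs.simple b) ^ k :=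
          congrArg (· * (cs.simple a * cs.simple b) ^ k) hb
        rw [e1, mul_assoc, hconj, ← mul_assoc, ← zpow_neg_one, ← zpow_add]
        congr 1

lemma odd_isReflection {a b : B} {z : W} (hz : z ∈ Subgroup.closure (J2 cs a b))
    (hodd : cs.length z % 2 = 1) : cs.IsReflection z := by
  obtain ⟨ω, hω, rfl⟩ := exists_word_of_mem (J2_sub (cs := cs) a b) hz
  rw [parity_word] at hodd
  obtain ⟨k, hk⟩ := (dihedral_words a b ω hω).2 hodd
  have hconj : ∀ k : ℤ, cs.simple a * (cs.simple a * cs.simple b) ^ k =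
      (cs.simple a * cs.simple b) ^ (-k) * cs.simple a := by
    intro k
    have h1 : cs.simple a * (cs.simple a * cs.simple b) * (cs.simple a)⁻¹ =
        (cs.simple a * cs.simple b)⁻¹ := by
      simp [mul_inv_rev]
    have h2 : cs.simple a * (cs.simple a * cs.simple b) ^ k * (cs.simple a)⁻¹ =
        (cs.simple a * cs.simple b) ^ (-k) := by
      rw [← conj_zpow, h1, inv_zpow, zpow_neg]
    rw [← h2]; group
  set ρ := cs.simple a * cs.simple b with hρ
  rw [hk]
  rcases Int.even_or_odd' k with ⟨j, hj | hj⟩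
  · have h1 : ρ ^ k * cs.simple a = ρ ^ j * cs.simple a * (ρ ^ j)⁻¹ := by
      rw [mul_assoc, ← zpow_neg, hconj, neg_neg, ← mul_assoc, ← zpow_add, hj, two_mul]
    rw [h1]
    exact (cs.isReflection_simple a).conj _
  · have h1 : ρ ^ k * cs.simple a = ρ ^ j * (ρ * cs.simple a) * (ρ ^ j)⁻¹ := by
      rw [mul_assoc, mul_assoc, ← zpow_neg, hconj, neg_neg, ← mul_assoc ρ, ← zpow_one_add,
        ← mul_assoc, ← zpow_add, hj]
      congr 2
      ring
    rw [h1]
    apply IsReflection.conj
    have h2 : ρ * cs.simple a = cs.simple a * cs.simple b * (cs.simple a)⁻¹ := by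
      rw [hρ]; simp
    rw [h2]
    exact (cs.isReflection_simple b).conj _

/-- A chain of length two in a rank two parabolic coset. -/
lemma std_chain {a b : B} {x g : W} (hg : g ∈ Subgroup.closure (J2 cs a b))
    (hpar : cs.length (g * x) % 2 = cs.length x % 2) (hl : cs.length x < cs.length (g * x)) :
    ∃ t₁ t₂ : W, t₁ ∈ Subgroup.closure (J2 cs a b) ∧ t₂ ∈ Subgroup.closure (J2 cs a b) ∧
      cs.IsReflection t₁ ∧ cs.IsReflection t₂ ∧ t₂ * (t₁ * x) = g * x ∧
      cs.length x < cs.length (t₁ * x) ∧ cs.length (t₁ * x) < cs.length (t₂ * (t₁ * x)) := by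
  have hJ := J2_sub (cs := cs) a b
  obtain ⟨v, z, hv, hz, hp⟩ := exists_fact (cs := cs) hJ x⁻¹
  have hx : x = z⁻¹ * v⁻¹ := by rw [← mul_inv_rev, hp, inv_inv]
  have hz' := Subgroup.inv_mem _ hz
  set d := z⁻¹ with hd
  have hlen : ∀ e ∈ Subgroup.closure (J2 cs a b), cs.length (e * v⁻¹) =
      cs.length v + cs.length e := by
    intro e he
    have h1 : e * v⁻¹ = (v * e⁻¹)⁻¹ := by rw [mul_inv_rev, inv_inv]
    rw [h1, cs.length_inv, hv.length_mul hJ (Subgroup.inv_mem _ he), cs.length_inv]
  have hlx : cs.length x = cs.length v + cs.length d := by rw [hx, hlen d hz']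
  have hgd : g * d ∈ Subgroup.closure (J2 cs a b) := Subgroup.mul_mem _ hg hz'
  have hlgx : cs.length (g * x) = cs.length v + cs.length (g * d) := by
    rw [hx, ← mul_assoc, hlen _ hgd]
  have hex : ∃ i, cs.simple i ∈ J2 cs a b ∧ cs.length d < cs.length (cs.simple i * d) := by
    by_contra hcon
    push Not at hcon
    have hdesc : ∀ i, cs.simple i ∈ J2 cs a b → cs.length (cs.simple i * d) < cs.length d := by
      intro i hi
      have := cs.length_simple_mul d i
      have := hcon i hi
      omega
    obtain ⟨ω, hω, hωp⟩ := exists_word_of_mem hJ hgd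
    have hbr : ∀ ω : List B, (∀ i ∈ ω, cs.simple i ∈ J2 cs a b) → Br cs (cs.wordProd ω) d := by
      intro ω
      induction ω with
      | nil => intro _; simpa using br_one (cs := cs) d
      | cons i ω ih =>
        intro h
        rw [cs.wordProd_cons]
        exact (ih (fun j hj => h j (by simp [hj]))).simple_mul_of_gt (hdesc i (h i (by simp)))
    have := (hbr ω hω).length_le
    rw [hωp] at this
    omega
  obtain ⟨i, hiJ, hi⟩ := hex
  have hi1 : cs.length (cs.simple i * d) = cs.length d + 1 := by
    have := cs.length_simple_mul d i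
    omega
  have hmem := Subgroup.subset_closure hiJ
  have hsx : cs.length (cs.simple i * x) = cs.length v + cs.length (cs.simple i * d) := by
    rw [hx, ← mul_assoc, hlen _ (Subgroup.mul_mem _ hmem hz')]
  have ht₂ : g * cs.simple i ∈ Subgroup.closure (J2 cs a b) := Subgroup.mul_mem _ hg hmem
  have heq : g * cs.simple i * (cs.simple i * x) = g * x := by
    rw [mul_assoc, cs.simple_mul_simple_cancel_left]
  have hodd : cs.length (g * cs.simple i) % 2 = 1 := by
    have h1 := cs.length_mul_mod_two g x
    have h2 := cs.length_mul_mod_two g (cs.simple i)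
    rw [cs.length_simple] at h2
    omega
  refine ⟨cs.simple i, g * cs.simple i, hmem, ht₂, cs.isReflection_simple i,
    odd_isReflection ht₂ hodd, heq, by omega, ?_⟩
  rw [heq]
  omega

lemma sub_mem_of_closure {a b : B} {z : W} (hz : z ∈ Subgroup.closure (J2 cs a b)) :
    ∀ v : B →₀ ℝ, geo cs z v - v ∈ Submodule.span ℝ ({ee a, ee b} : Set (B →₀ ℝ)) := by
  induction hz using Subgroup.closure_induction with
  | mem x hx =>
    intro v
    rcases hx with rfl | rfl
    · rw [(Rt.simple a).apply]
      have : v - (2 * bil M (ee a) v) • ee a - v = -((2 * bil M (ee a) v) • ee a) := by abel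
      rw [this]
      exact Submodule.neg_mem _ (Submodule.smul_mem _ _ (Submodule.subset_span (by simp)))
    · rw [(Rt.simple b).apply]
      have : v - (2 * bil M (ee b) v) • ee b - v = -((2 * bil M (ee b) v) • ee b) := by abel
      rw [this]
      exact Submodule.neg_mem _ (Submodule.smul_mem _ _ (Submodule.subset_span (by simp)))
  | one => intro v; simp
  | mul x y _ _ ihx ihy =>
    intro v
    rw [map_mul, Module.End.mul_apply]
    have := Submodule.add_mem _ (ihx (geo cs y v)) (ihy v)
    simpa using this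
  | inv x _ ih =>
    intro v
    have h1 := ih (geo cs x⁻¹ v)
    rw [geo_apply_inv] at h1
    have := Submodule.neg_mem _ h1
    simpa using this

lemma mem_of_closure {a b : B} {z : W} (hz : z ∈ Subgroup.closure (J2 cs a b)) {v : B →₀ ℝ}
    (hv : v ∈ Submodule.span ℝ ({ee a, ee b} : Set (B →₀ ℝ))) :
    geo cs z v ∈ Submodule.span ℝ ({ee a, ee b} : Set (B →₀ ℝ)) := by
  have := Submodule.add_mem _ (sub_mem_of_closure hz v) hv
  simpa using this

lemma root_mem_of_refl {a b : B} {t : W} {ρ : B →₀ ℝ} (ht : Rt cs t ρ)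
    (h : t ∈ Subgroup.closure (J2 cs a b)) :
    ρ ∈ Submodule.span ℝ ({ee a, ee b} : Set (B →₀ ℝ)) := by
  have h1 := sub_mem_of_closure h ρ
  rw [ht.apply_self] at h1
  have h2 : ρ = (-(1 / 2 : ℝ)) • (-ρ - ρ) := by module
  rw [h2]
  exact Submodule.smul_mem _ _ h1

lemma refl_mem_of_root {a b : B} {t : W} {ρ : B →₀ ℝ} (ht : Rt cs t ρ)
    (h : ρ ∈ Submodule.span ℝ ({ee a, ee b} : Set (B →₀ ℝ))) :
    t ∈ Subgroup.closure (J2 cs a b) := by
  have hJ := J2_sub (cs := cs) a b
  obtain ⟨v, z, hv, hz, hp⟩ := exists_fact (cs := cs) hJ t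
  have hv1 : v = 1 := by
    apply eq_one_of_geo cs
    intro i
    by_cases hi : cs.simple i ∈ J2 cs a b
    · exact geo_nonneg cs v i (hv _ hi)
    · have hia : i ≠ a := by rintro rfl; exact hi (Or.inl rfl)
      have hib : i ≠ b := by rintro rfl; exact hi (Or.inr rfl)
      have hvt : v = t * z⁻¹ := by rw [← hp]; simp
      have h1 : geo cs v (ee i) - ee i ∈ Submodule.span ℝ ({ee a, ee b} : Set (B →₀ ℝ)) := by
        rw [hvt, map_mul, Module.End.mul_apply]
        have e1 := sub_mem_of_closure (Subgroup.inv_mem _ hz) (ee i)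
        have e2 : geo cs t (geo cs z⁻¹ (ee i)) - geo cs z⁻¹ (ee i) ∈
            Submodule.span ℝ ({ee a, ee b} : Set (B →₀ ℝ)) := by
          rw [ht.apply]
          have : geo cs z⁻¹ (ee i) - (2 * bil M ρ (geo cs z⁻¹ (ee i))) • ρ - geo cs z⁻¹ (ee i) =
            -((2 * bil M ρ (geo cs z⁻¹ (ee i))) • ρ) := by abel
          rw [this]
          exact Submodule.neg_mem _ (Submodule.smul_mem _ _ h)
        have := Submodule.add_mem _ e2 e1
        simpa using this
      obtain ⟨p, q, hpq⟩ := Submodule.mem_span_pair.1 h1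
      have h2 : (geo cs v (ee i)) i = 1 := by
        have h3 := DFunLike.congr_fun hpq i
        simp only [Finsupp.coe_add, Finsupp.coe_smul, Pi.add_apply, Pi.smul_apply, ee,
          Finsupp.single_eq_of_ne hia, Finsupp.single_eq_of_ne hib,
          smul_zero, add_zero, Finsupp.coe_sub, Pi.sub_apply, Finsupp.single_eq_same] at h3
        simp only [ee]
        linarith
      have hroot : Rt cs (v * cs.simple i * v⁻¹) (geo cs v (ee i)) := (Rt.simple i).conj v
      rcases hroot.sign with h3 | h3
      · exact h3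
      · exfalso
        have := h3 i
        rw [h2] at this
        simp at this
        linarith
  rw [← hp, hv1, one_mul]
  exact hz

end Pool.Agent.Q87.Cox.Geo
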