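import Pool.Agent.Q87.Cox.Std

set_option autoImplicit false

/-! Comparability of `x` and `r x r` for twisted involutions. -/

namespace Pool.Agent.Q87.Cox.Geo

open CoxeterSystem Pool.Agent.Q87.Cox Real

variable {B : Type*} {M : CoxeterMatrix B} {W : Type*} [Group W] {cs : CoxeterSystem M W}

/-- If `v ≥ 0` and `proj (w⁻¹ v) = 0` at a standard position, the letters of `v` are in the
plane. -/
lemma support_plane {β γ : B →₀ ℝ} {c : ℝ} {w : W}
    (hw : ∀ i, ¬ LPos (-(proj M c β γ (geo cs w⁻¹ (ee i))))) {v : B →₀ ℝ} (hv : 0 ≤ v)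
    (h0 : proj M c β γ (geo cs w⁻¹ v) = 0) (i : B) (hi : v i ≠ 0) :
    geo cs w⁻¹ (ee i) ∈ Submodule.span ℝ ({β, γ} : Set (B →₀ ℝ)) := by
  have h1 : v = ∑ j ∈ v.support, (v j) • ee j := by
    conv_lhs => rw [← Finsupp.sum_single v]
    rw [Finsupp.sum]
    apply Finset.sum_congr rfl
    intro j _
    simp [ee]
  have h2 : ∑ j ∈ v.support, (v j) • proj M c β γ (geo cs w⁻¹ (ee j)) = 0 := by
    rw [← h0]
    conv_rhs => rw [h1]
    rw [map_sum, map_sum]
    apply Finset.sum_congr rfl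
    intro j _
    rw [map_smul, map_smul]
  have h3 := eq_zero_of_sum v.support _ (fun j _ => (lnonneg_of_not_neg (hw j)).smul
    (by simpa using hv j)) h2 i (Finsupp.mem_support_iff.2 hi)
  apply mem_of_proj (M := M) (c := c)
  exact (smul_eq_zero.1 h3).resolve_left hi

namespace Tw

variable (T : Tw cs)

/-- Transport of an ascending step from standard position. -/
lemma transport {a b : B} {β γ : B →₀ ℝ} {w : W}
    (hPQ : ∀ v : B →₀ ℝ, v ∈ Submodule.span ℝ ({β, γ} : Set (B →₀ ℝ)) ↔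
      geo cs w v ∈ Submodule.span ℝ ({ee a, ee b} : Set (B →₀ ℝ)))
    (hw : ∀ t α, Rt cs t α → α ∈ Submodule.span ℝ ({β, γ} : Set (B →₀ ℝ)) → 0 ≤ α →
        0 ≤ geo cs w α)
    {u t : W} (hU : ∀ v ∈ Submodule.span ℝ ({ee a, ee b} : Set (B →₀ ℝ)),
      T.Th (geo cs u⁻¹ v) ∈ Submodule.span ℝ ({ee a, ee b} : Set (B →₀ ℝ)))
    (ht : cs.IsReflection t) (htJ : t ∈ Subgroup.closure (J2 cs a b))
    (hl : cs.length u < cs.length (t * u)) :
    Step cs (w⁻¹ * u * T.θ w) (w⁻¹ * (t * u) * T.θ w) := by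
  obtain ⟨ρ, hρ, hρ0⟩ := exists_rt ht
  have hρQ := root_mem_of_refl hρ htJ
  have back : ∀ t' ζ, Rt cs t' ζ → ζ ∈ Submodule.span ℝ ({ee a, ee b} : Set (B →₀ ℝ)) → 0 ≤ ζ →
      0 ≤ geo cs w⁻¹ ζ := by
    intro t' ζ hζ hζQ hζ0
    rcases (hζ.conj w⁻¹).sign with h | h
    · exact h
    · exfalso
      have hP : -(geo cs w⁻¹ ζ) ∈ Submodule.span ℝ ({β, γ} : Set (B →₀ ℝ)) := by
        rw [hPQ, map_neg, geo_apply_inv]
        exact Submodule.neg_mem _ hζQ
      have h1 := hw _ _ (hζ.conj w⁻¹).neg hP (neg_nonneg.2 h)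
      rw [map_neg, geo_apply_inv] at h1
      exact hζ.not_both hζ0 (neg_nonneg.1 h1)
  have h1 : 0 ≤ geo cs u⁻¹ ρ := hρ.nonneg_of_length hρ0 hl
  have h2 : 0 ≤ T.Th (geo cs u⁻¹ ρ) := T.Th_nonneg h1
  have h3 := back _ _ (T.rt (hρ.conj u⁻¹)) (hU ρ hρQ) h2
  have h4 := back _ _ hρ hρQ hρ0
  have hrt : Rt cs (w⁻¹ * t * w) (geo cs w⁻¹ ρ) := by
    have := hρ.conj w⁻¹
    rwa [inv_inv] at this
  have h5 : w⁻¹ * (t * u) * T.θ w = (w⁻¹ * t * w) * (w⁻¹ * u * T.θ w) := by group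
  rw [h5]
  apply hrt.step_left h4
  have h6 : geo cs (w⁻¹ * u * T.θ w)⁻¹ (geo cs w⁻¹ ρ) = T.Th (geo cs w⁻¹ (T.Th (geo cs u⁻¹ ρ))) := by
    have hθi : T.θ w⁻¹ = (T.θ w)⁻¹ := map_inv T.θ w
    rw [T.Th_geo, T.Th_Th, hθi, mul_inv_rev, mul_inv_rev, inv_inv, map_mul, map_mul,
      Module.End.mul_apply, Module.End.mul_apply, geo_apply_inv]
  rw [h6]
  exact T.Th_nonneg h3

/-- The definite case. -/
lemma definite {x : W} (hx : T.θ x = x⁻¹) {r s : W} {β γ : B →₀ ℝ} {ε : ℝ}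
    (hr : Rt cs r β) (hβ : 0 ≤ β) (hs : Rt cs s γ) (hγ : 0 ≤ γ) (hε : ε = 1 ∨ ε = -1)
    (hX : T.X x β = ε • γ) (hc1 : (bil M β γ) ^ 2 < 1) (hne : γ ≠ β)
    (QP : ∀ u : W, cs.length (u * (r * x * T.θ r) * (T.θ u)⁻¹) = cs.length (u * x * (T.θ u)⁻¹) →
      u * (r * x * T.θ r) * (T.θ u)⁻¹ = u * x * (T.θ u)⁻¹) :
    Br cs x (r * x * T.θ r) ∨ Br cs (r * x * T.θ r) x := by
  set c := bil M β γ with hcdef
  have hc : bil M β γ = c := rfl
  have hεε : ε * ε = 1 := by rcases hε with rfl | rfl <;> norm_num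
  have hs' : s = x * T.θ r * x⁻¹ := by
    have h1 := T.X_rt (x := x) hr
    rw [hX] at h1
    rcases hε with rfl | rfl
    · rw [one_smul] at h1; exact hs.unique h1
    · rw [neg_one_smul] at h1; exact hs.unique_neg h1
  have hy : r * x * T.θ r = r * s * x := by rw [hs']; group
  have hXγ : T.X x γ = ε • β := by
    have h1 := T.X_X hx β
    rw [hX, map_smul] at h1
    calc T.X x γ = (ε * ε) • T.X x γ := by rw [hεε, one_smul]
      _ = ε • β := by rw [mul_smul, h1]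
  obtain ⟨w, hstd, hw⟩ := exists_std hr hs hc hc1
  have hβP : β ∈ Submodule.span ℝ ({β, γ} : Set (B →₀ ℝ)) := Submodule.subset_span (by simp)
  have hγP : γ ∈ Submodule.span ℝ ({β, γ} : Set (B →₀ ℝ)) := Submodule.subset_span (by simp)
  have hrβ' := hr.conj w
  have hsγ' := hs.conj w
  have hβ' := hw r β hr hβP hβ
  have hγ' := hw s γ hs hγP hγ
  have hsuppβ := support_plane hstd hβ' (by rw [geo_inv_apply]; exact proj_left hr hc hc1)
  have hsuppγ := support_plane hstd hγ' (by rw [geo_inv_apply]; exact proj_right hs hc hc1)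
  -- two distinct letters
  obtain ⟨a, ha⟩ : ∃ a, (geo cs w β) a ≠ 0 := by
    by_contra hcon
    push Not at hcon
    exact hrβ'.ne_zero (Finsupp.ext hcon)
  obtain ⟨b, hba, hb⟩ : ∃ b, b ≠ a ∧ ((geo cs w β) b ≠ 0 ∨ (geo cs w γ) b ≠ 0) := by
    by_contra hcon
    push Not at hcon
    have key : ∀ {t : W} {v : B →₀ ℝ}, Rt cs t v → 0 ≤ v → (∀ b, b ≠ a → v b = 0) → v = ee a := by
      intro t v ht hv h
      have h1 : v = (v a) • ee a := by
        ext j
        by_cases hj : j = a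
        · subst hj; simp [ee]
        · rw [h j hj]; simp [ee, Ne.symm hj]
      have h2 := ht.norm
      rw [h1] at h2
      simp only [map_smul, LinearMap.smul_apply, smul_eq_mul, bil_ee_self, mul_one] at h2
      have h3 : 0 ≤ v a := by simpa using hv a
      have h4 : v a = 1 := by
        have : (v a - 1) * (v a + 1) = 0 := by linarith
        rcases mul_eq_zero.1 this with h | h <;> linarith
      rw [h1, h4, one_smul]
    have e1 := key hrβ' hβ' (fun b hb => (hcon b hb).1)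
    have e2 := key hsγ' hγ' (fun b hb => (hcon b hb).2)
    rw [← e1] at e2
    exact hne (geo_injective_apply cs w e2)
  have hA := hsuppβ a ha
  have hB : geo cs w⁻¹ (ee b) ∈ Submodule.span ℝ ({β, γ} : Set (B →₀ ℝ)) := by
    rcases hb with hb | hb
    · exact hsuppβ b hb
    · exact hsuppγ b hb
  obtain ⟨a₁, a₂, hAe⟩ := Submodule.mem_span_pair.1 hA
  obtain ⟨b₁, b₂, hBe⟩ := Submodule.mem_span_pair.1 hB
  have hlin : ∀ p q : ℝ, p • geo cs w⁻¹ (ee a) + q • geo cs w⁻¹ (ee b) = 0 → p = 0 ∧ q = 0 := by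
    intro p q hpq
    have h1 := congrArg (geo cs w) hpq
    rw [map_add, map_smul, map_smul, geo_apply_inv, geo_apply_inv, map_zero] at h1
    have h2 := DFunLike.congr_fun h1 a
    have h3 := DFunLike.congr_fun h1 b
    simp only [Finsupp.coe_add, Finsupp.coe_smul, Pi.add_apply, Pi.smul_apply, ee,
      Finsupp.single_eq_same, Finsupp.single_eq_of_ne hba, Finsupp.single_eq_of_ne hba.symm,
      smul_eq_mul, mul_one, mul_zero, add_zero, zero_add, Finsupp.coe_zero, Pi.zero_apply] at h2 h3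
    exact ⟨h2, h3⟩
  have hD : a₁ * b₂ - a₂ * b₁ ≠ 0 := by
    intro hD
    have h1 := hlin b₂ (-a₂) (by
      rw [← hAe, ← hBe]
      calc b₂ • (a₁ • β + a₂ • γ) + -a₂ • (b₁ • β + b₂ • γ) = (a₁ * b₂ - a₂ * b₁) • β := by module
        _ = 0 := by rw [hD, zero_smul])
    have h2 := hlin b₁ (-a₁) (by
      rw [← hAe, ← hBe]
      calc b₁ • (a₁ • β + a₂ • γ) + -a₁ • (b₁ • β + b₂ • γ) = (-(a₁ * b₂ - a₂ * b₁)) • γ := by
            module
        _ = 0 := by rw [hD, neg_zero, zero_smul])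
    have h3 : a₁ = 0 := by linarith [h2.2]
    have h4 : a₂ = 0 := by linarith [h1.2]
    rw [h3, h4] at hAe
    have h5 := hlin 1 0 (by rw [← hAe]; simp)
    exact one_ne_zero h5.1
  have hPQ : ∀ v : B →₀ ℝ, v ∈ Submodule.span ℝ ({β, γ} : Set (B →₀ ℝ)) ↔
      geo cs w v ∈ Submodule.span ℝ ({ee a, ee b} : Set (B →₀ ℝ)) := by
    intro v
    constructor
    · intro hv
      obtain ⟨p, q, rfl⟩ := Submodule.mem_span_pair.1 hv
      rw [Submodule.mem_span_pair]
      refine ⟨(p * b₂ - q * b₁) / (a₁ * b₂ - a₂ * b₁), (q * a₁ - p * a₂) / (a₁ * b₂ - a₂ * b₁), ?_⟩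
      apply geo_injective_apply cs w⁻¹
      rw [geo_inv_apply, map_add, map_smul, map_smul, ← hAe, ← hBe]
      have e1 : (p * b₂ - q * b₁) / (a₁ * b₂ - a₂ * b₁) * a₁ +
          (q * a₁ - p * a₂) / (a₁ * b₂ - a₂ * b₁) * b₁ = p := by
        rw [div_mul_eq_mul_div, div_mul_eq_mul_div, ← add_div, div_eq_iff hD]; ring
      have e2 : (p * b₂ - q * b₁) / (a₁ * b₂ - a₂ * b₁) * a₂ +
          (q * a₁ - p * a₂) / (a₁ * b₂ - a₂ * b₁) * b₂ = q := by
        rw [div_mul_eq_mul_div, div_mul_eq_mul_div, ← add_div, div_eq_iff hD]; ring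
      conv_rhs => rw [← e1, ← e2]
      module
    · intro hv
      obtain ⟨p, q, hpq⟩ := Submodule.mem_span_pair.1 hv
      have h1 := congrArg (geo cs w⁻¹) hpq
      rw [map_add, map_smul, map_smul, geo_inv_apply] at h1
      rw [← h1]
      exact Submodule.add_mem _ (Submodule.smul_mem _ _ hA) (Submodule.smul_mem _ _ hB)
  have hr'J : w * r * w⁻¹ ∈ Subgroup.closure (J2 cs a b) :=
    refl_mem_of_root hrβ' ((hPQ β).1 hβP)
  have hs'J : w * s * w⁻¹ ∈ Subgroup.closure (J2 cs a b) :=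
    refl_mem_of_root hsγ' ((hPQ γ).1 hγP)
  set x' := w * x * (T.θ w)⁻¹ with hx'
  set y' := w * (r * x * T.θ r) * (T.θ w)⁻¹ with hy'
  set g := w * r * w⁻¹ * (w * s * w⁻¹) with hg
  have hgJ : g ∈ Subgroup.closure (J2 cs a b) := Subgroup.mul_mem _ hr'J hs'J
  have hgy : g * x' = y' := by rw [hg, hx', hy', hy]; group
  have hx'θ : T.θ x' = x'⁻¹ := by
    rw [hx', map_mul, map_mul, map_inv, T.θθ, hx]; group
  have hXP : ∀ v ∈ Submodule.span ℝ ({β, γ} : Set (B →₀ ℝ)),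
      T.X x v ∈ Submodule.span ℝ ({β, γ} : Set (B →₀ ℝ)) := by
    intro v hv
    obtain ⟨p, q, rfl⟩ := Submodule.mem_span_pair.1 hv
    rw [map_add, map_smul, map_smul, hX, hXγ]
    exact Submodule.add_mem _ (Submodule.smul_mem _ _ (Submodule.smul_mem _ _ hγP))
      (Submodule.smul_mem _ _ (Submodule.smul_mem _ _ hβP))
  have hX'Q : ∀ v ∈ Submodule.span ℝ ({ee a, ee b} : Set (B →₀ ℝ)),
      T.Th (geo cs x'⁻¹ v) ∈ Submodule.span ℝ ({ee a, ee b} : Set (B →₀ ℝ)) := by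
    intro v hv
    rw [T.geo_inv_eq hx'θ, T.Th_Th]
    have h1 : T.X x' v = geo cs w (T.X x (geo cs w⁻¹ v)) := by
      have hθi : T.θ w⁻¹ = (T.θ w)⁻¹ := map_inv T.θ w
      rw [T.X_apply, T.X_apply, T.Th_geo, hx', map_mul, map_mul, Module.End.mul_apply,
        Module.End.mul_apply, hθi]
    rw [h1, ← hPQ]
    apply hXP
    rw [hPQ, geo_apply_inv]
    exact hv
  have hUQ : ∀ h ∈ Subgroup.closure (J2 cs a b), ∀ v ∈ Submodule.span ℝ ({ee a, ee b} : Set (B →₀ ℝ)),
      T.Th (geo cs (h * x')⁻¹ v) ∈ Submodule.span ℝ ({ee a, ee b} : Set (B →₀ ℝ)) := by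
    intro h hh v hv
    rw [mul_inv_rev, map_mul, Module.End.mul_apply]
    exact hX'Q _ (mem_of_closure (Subgroup.inv_mem _ hh) hv)
  have hxx : w⁻¹ * x' * T.θ w = x := by rw [hx']; group
  have hyy : w⁻¹ * y' * T.θ w = r * x * T.θ r := by rw [hy']; group
  have hgpar : cs.length g % 2 = 0 := by
    have h1 := hrβ'.isReflection.odd_length
    have h2 := hsγ'.isReflection.odd_length
    have h3 := cs.length_mul_mod_two (w * r * w⁻¹) (w * s * w⁻¹)
    rw [Nat.odd_iff] at h1 h2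
    rw [← hg] at h3
    omega
  rcases lt_trichotomy (cs.length x') (cs.length y') with hlt | heq | hgt
  · left
    obtain ⟨t₁, t₂, m₁, m₂, i₁, i₂, e, l₁, l₂⟩ := std_chain (x := x') hgJ
      (by have := cs.length_mul_mod_two g x'; omega) (by rw [hgy]; exact hlt)
    have s1 := T.transport hPQ hw hX'Q i₁ m₁ l₁
    have s2 := T.transport hPQ hw (hUQ t₁ m₁) i₂ m₂ l₂
    rw [e, hgy, hyy] at s2
    rw [hxx] at s1
    exact s1.br.trans s2.br
  · left
    have h1 := QP w heq.symm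
    have h2 : r * x * T.θ r = x := by
      have h3 := mul_right_cancel h1
      exact mul_left_cancel h3
    rw [h2]
    exact Br.refl _
  · right
    have hgx : g⁻¹ * y' = x' := by rw [← hgy]; simp
    have hginv : cs.length g⁻¹ % 2 = 0 := by rw [cs.length_inv]; exact hgpar
    obtain ⟨t₁, t₂, m₁, m₂, i₁, i₂, e, l₁, l₂⟩ := std_chain (x := y')
      (Subgroup.inv_mem _ hgJ)
      (by have := cs.length_mul_mod_two g⁻¹ y'; omega) (by rw [hgx]; exact hgt)
    have hU1 : ∀ v ∈ Submodule.span ℝ ({ee a, ee b} : Set (B →₀ ℝ)),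
      T.Th (geo cs y'⁻¹ v) ∈ Submodule.span ℝ ({ee a, ee b} : Set (B →₀ ℝ)) := by
      rw [← hgy]; exact hUQ g hgJ
    have hU2 : ∀ v ∈ Submodule.span ℝ ({ee a, ee b} : Set (B →₀ ℝ)),
      T.Th (geo cs (t₁ * y')⁻¹ v) ∈ Submodule.span ℝ ({ee a, ee b} : Set (B →₀ ℝ)) := by
      rw [← hgy, ← mul_assoc]; exact hUQ (t₁ * g) (Subgroup.mul_mem _ m₁ hgJ)
    have s1 := T.transport hPQ hw hU1 i₁ m₁ l₁
    have s2 := T.transport hPQ hw hU2 i₂ m₂ l₂
    rw [e, hgx, hxx] at s2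
    rw [hyy] at s1
    exact s1.br.trans s2.br

/-- Main comparability theorem. -/
theorem comparable {x : W} (hx : T.θ x = x⁻¹) {r : W} (hr : cs.IsReflection r)
    (QP : ∀ u : W, cs.length (u * (r * x * T.θ r) * (T.θ u)⁻¹) = cs.length (u * x * (T.θ u)⁻¹) →
      u * (r * x * T.θ r) * (T.θ u)⁻¹ = u * x * (T.θ u)⁻¹) :
    Br cs x (r * x * T.θ r) ∨ Br cs (r * x * T.θ r) x := by
  obtain ⟨β, hrβ, hβ⟩ := exists_rt hr
  have hrr : r * r = 1 := hr.mul_self
  -- the root `γ = ± X β`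
  obtain ⟨γ, ε, hε, hX, hγ⟩ : ∃ (γ : B →₀ ℝ) (ε : ℝ), (ε = 1 ∨ ε = -1) ∧ T.X x β = ε • γ ∧
      0 ≤ γ := by
    rcases (T.X_rt (x := x) hrβ).sign with h | h
    · exact ⟨T.X x β, 1, Or.inl rfl, by simp, h⟩
    · exact ⟨-(T.X x β), -1, Or.inr rfl, by simp, neg_nonneg.2 h⟩
  have hsγ : Rt cs (x * T.θ r * x⁻¹) γ := by
    have h1 := T.X_rt (x := x) hrβ
    rw [hX] at h1
    rcases hε with rfl | rfl
    · rwa [one_smul] at h1
    · rw [neg_one_smul] at h1
      have := h1.neg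
      rwa [neg_neg] at this
  set s := x * T.θ r * x⁻¹ with hs
  have hy : r * x * T.θ r = r * s * x := by rw [hs]; group
  by_cases hne : γ = β
  · left
    have h1 : r = s := by
      rw [hne] at hsγ
      exact hrβ.unique hsγ
    rw [hy, ← h1, hrr, one_mul]
    exact Br.refl _
  rcases (hsγ.conj r).sign with hpos | hneg
  · -- both steps in the same direction
    have up : ∀ {z : W} {δ : B →₀ ℝ}, T.θ z = z⁻¹ → 0 ≤ δ → T.X z β = δ → 0 ≤ geo cs r δ →
        Br cs z (r * z * T.θ r) := by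
      intro z δ hz hδ hXz hrδ
      have s1 : Step cs z (r * z) := by
        apply hrβ.step_left hβ
        rw [T.geo_inv_eq hz, hXz]
        exact T.Th_nonneg hδ
      have s2 : Step cs (r * z) (r * z * T.θ r) := by
        refine ⟨T.θ r, (T.rt hrβ).isReflection, rfl, ?_⟩
        apply (T.rt hrβ).length_of_pos (T.Th_nonneg hβ)
        rw [map_mul, Module.End.mul_apply, ← T.X_apply, hXz]
        exact hrδ
      exact s1.br.trans s2.br
    rcases hε with hε | hε
    · left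
      rw [hε, one_smul] at hX
      exact up hx hγ hX hpos
    · right
      rw [hε, neg_one_smul] at hX
      have hyθ := T.θ_conj hx hrr
      have hXy : T.X (r * x * T.θ r) β = geo cs r γ := by
        rw [T.X_conj, hrβ.apply_self, map_neg, hX, neg_neg]
      have hrrγ : geo cs r (geo cs r γ) = γ := by
        rw [← Module.End.mul_apply, ← map_mul, hrr, map_one, Module.End.one_apply]
      have h1 := up hyθ hpos hXy (by rw [hrrγ]; exact hγ)
      have e : r * (r * x * T.θ r) * T.θ r = x := by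
        have h1 : T.θ r * T.θ r = 1 := by rw [← map_mul, hrr, map_one]
        calc r * (r * x * T.θ r) * T.θ r = (r * r) * x * (T.θ r * T.θ r) := by group
          _ = x := by rw [hrr, h1]; simp
      rwa [e] at h1
  · -- ambiguous case
    have hcpos : 0 ≤ bil M β γ := by
      by_contra hcon
      push Not at hcon
      rw [hrβ.apply] at hneg
      have h1 : 0 ≤ γ - (2 * bil M β γ) • β := by
        have : γ - (2 * bil M β γ) • β = γ + (-(2 * bil M β γ)) • β := by module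
        rw [this]
        intro i
        have e1 : 0 ≤ γ i := by simpa using hγ i
        have e2 : 0 ≤ β i := by simpa using hβ i
        simp only [Finsupp.coe_zero, Pi.zero_apply, Finsupp.coe_add, Finsupp.coe_smul, Pi.add_apply,
          Pi.smul_apply, smul_eq_mul]
        have : 0 ≤ -(2 * bil M β γ) * β i := by
          apply mul_nonneg _ e2
          linarith
        linarith
      have hroot := hsγ.conj r
      rw [hrβ.apply] at hroot
      exact hroot.not_both h1 hneg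
    by_cases hc : 1 ≤ bil M β γ
    · exact T.chain hx hrβ hβ hsγ hγ hε hX hc hneg hne
    · push Not at hc
      exact T.definite hx hrβ hβ hsγ hγ hε hX (by nlinarith) hne QP

end Tw

end Pool.Agent.Q87.Cox.Geo
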