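import Pool.Agent.Q87.Cox.Roots

set_option autoImplicit false

/-! Diagram automorphisms and twisted involutions. -/

namespace Pool.Agent.Q87.Cox.Geo

open CoxeterSystem Pool.Agent.Q87.Cox Real

variable {B : Type*} {M : CoxeterMatrix B} {W : Type*} [Group W] (cs : CoxeterSystem M W)

lemma dvd_of_pow_eq_one {i j : B} {k : ℕ} (h : (cs.simple i * cs.simple j) ^ k = 1) :
    M i j ∣ k := by
  by_cases hij : i = j
  · subst hij
    rw [M.diagonal]; exact one_dvd k
  have h1 := congrArg (fun w => geo cs w (ee i)) h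
  simp only [map_pow, map_mul, geo_simple, map_one, Module.End.one_apply] at h1
  rw [← prod_alt_eq_pow, prod_alt_ee, if_pos (even_two_mul k)] at h1
  have h2 := DFunLike.congr_fun h1 j
  have h3 := DFunLike.congr_fun h1 i
  simp only [Finsupp.coe_add, Finsupp.coe_smul, Pi.add_apply, Pi.smul_apply, ee,
    Finsupp.single_eq_same, smul_eq_mul, mul_one, Finsupp.single_eq_of_ne hij,
    Finsupp.single_eq_of_ne (Ne.symm hij), mul_zero, zero_add, add_zero] at h2 h3
  by_cases h0 : M i j = 0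
  · rw [cc_of_zero M h0, qs_of_one] at h2
    have : k = 0 := by
      have h4 : ((2 * k : ℕ) : ℝ) = ((0 : ℕ) : ℝ) := by simpa using h2
      have := Nat.cast_injective h4
      omega
    rw [this]; exact dvd_zero _
  · have hm : (0 : ℝ) < (M i j : ℝ) := by
      exact_mod_cast Nat.pos_of_ne_zero h0
    have hs := sin_pos_of_ne M hij h0
    have e1 := qs_sin (π / (M i j : ℝ)) (2 * k)
    have e2 := qs_sin (π / (M i j : ℝ)) (2 * k + 1)
    change qs (cos (π / (M i j : ℝ))) (2 * k) = 0 at h2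
    change qs (cos (π / (M i j : ℝ))) (2 * k + 1) = 1 at h3
    rw [h2, zero_mul] at e1
    rw [h3, one_mul] at e2
    have h5 : ((2 * k + 1 : ℕ) : ℝ) * (π / (M i j : ℝ)) =
        ((2 * k : ℕ) : ℝ) * (π / (M i j : ℝ)) + π / (M i j : ℝ) := by push_cast; ring
    rw [h5, sin_add, ← e1, zero_mul, zero_add] at e2
    have h6 : cos (((2 * k : ℕ) : ℝ) * (π / (M i j : ℝ))) = 1 := by
      have : (cos (((2 * k : ℕ) : ℝ) * (π / (M i j : ℝ))) - 1) * sin (π / (M i j : ℝ)) = 0 := by
        rw [sub_mul, one_mul, ← e2, sub_self]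
      have := (mul_eq_zero.1 this).resolve_right hs.ne'
      linarith
    rw [cos_eq_one_iff] at h6
    obtain ⟨n, hn⟩ := h6
    have h7 : (n : ℝ) * (M i j : ℝ) = (k : ℝ) := by
      have hpi := pi_pos.ne'
      field_simp at hn
      push_cast at hn
      linarith
    have h8 : (n : ℤ) * (M i j : ℤ) = (k : ℤ) := by exact_mod_cast h7
    have h9 : (M i j : ℤ) ∣ (k : ℤ) := ⟨n, by rw [← h8]; ring⟩
    exact_mod_cast h9

/-- A diagram automorphism of order dividing two, with its action on the simple reflections. -/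
structure Tw where
  θ : W ≃* W
  σ : B → B
  hθ : ∀ i, θ (cs.simple i) = cs.simple (σ i)
  hcc : ∀ i j, cc M (σ i) (σ j) = cc M i j
  invol : ∀ i, σ (σ i) = i

variable {cs}

theorem exists_tw (θ : W ≃* W) (h : θ '' Set.range cs.simple = Set.range cs.simple)
    (h2 : ∀ w, θ (θ w) = w) : ∃ T : Tw cs, T.θ = θ := by
  have h3 : ∀ i, ∃ j, cs.simple j = θ (cs.simple i) := by
    intro i
    have : θ (cs.simple i) ∈ Set.range cs.simple := by
      rw [← h]; exact ⟨_, ⟨i, rfl⟩, rfl⟩
    exact this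
  choose σ hσ using h3
  have hinv : ∀ i, σ (σ i) = i := by
    intro i
    apply simple_injective cs
    rw [hσ, hσ, h2]
  have hd : ∀ i j, M (σ i) (σ j) ∣ M i j := by
    intro i j
    apply dvd_of_pow_eq_one cs
    rw [hσ, hσ, ← map_mul, ← map_pow, cs.simple_mul_simple_pow, map_one]
  refine ⟨⟨θ, σ, fun i => (hσ i).symm, ?_, hinv⟩, rfl⟩
  intro i j
  have h4 : M (σ i) (σ j) = M i j := by
    apply Nat.dvd_antisymm (hd i j)
    have := hd (σ i) (σ j)
    rwa [hinv, hinv] at this
  unfold cc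
  rw [h4]

namespace Tw

variable (T : Tw cs)

/-- The linear action. -/
noncomputable def Th : (B →₀ ℝ) →ₗ[ℝ] (B →₀ ℝ) := Finsupp.lmapDomain ℝ ℝ T.σ

lemma Th_ee (i : B) : T.Th (ee i) = ee (T.σ i) := by
  simp [Th, ee]

lemma sig_inj : Function.Injective T.σ := Function.Involutive.injective T.invol

lemma Th_apply (v : B →₀ ℝ) (i : B) : T.Th v (T.σ i) = v i := by
  unfold Th
  rw [Finsupp.lmapDomain_apply, Finsupp.mapDomain_apply T.sig_inj]

lemma Th_Th (v : B →₀ ℝ) : T.Th (T.Th v) = v := by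
  ext i
  conv_lhs => rw [← T.invol i]
  rw [Th_apply, Th_apply]

lemma Th_apply' (v : B →₀ ℝ) (i : B) : T.Th v i = v (T.σ i) := by
  conv_lhs => rw [← T.invol i]
  rw [Th_apply]

lemma Th_nonneg {v : B →₀ ℝ} (h : 0 ≤ v) : 0 ≤ T.Th v := by
  intro i
  rw [Th_apply']
  simpa using h (T.σ i)

lemma Th_nonpos {v : B →₀ ℝ} (h : v ≤ 0) : T.Th v ≤ 0 := by
  intro i
  rw [Th_apply']
  simpa using h (T.σ i)

lemma bil_Th (v w : B →₀ ℝ) : bil M (T.Th v) (T.Th w) = bil M v w := by
  have h : (bil M).compl₁₂ T.Th T.Th = bil M := by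
    ext i j
    have h1 := T.Th_ee i
    have h2 := T.Th_ee j
    simp only [ee] at h1 h2
    simp only [LinearMap.coe_comp, Function.comp_apply, LinearMap.compl₁₂_apply,
      Finsupp.lsingle_apply, h1, h2]
    have h3 := bil_ee (M := M) (T.σ i) (T.σ j)
    have h4 := bil_ee (M := M) i j
    simp only [ee] at h3 h4
    rw [h3, h4, T.hcc]
  have := congrArg (fun f => f v w) h
  simpa using this

lemma Th_geo (w : W) (v : B →₀ ℝ) : T.Th (geo cs w v) = geo cs (T.θ w) (T.Th v) := by
  induction w using cs.simple_induction_left generalizing v with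
  | one => simp
  | mul_simple_left w i ih =>
    rw [map_mul, Module.End.mul_apply, geo_simple, sg_apply', map_sub, map_smul, ih, T.Th_ee,
      map_mul, T.hθ, map_mul, Module.End.mul_apply, geo_simple, sg_apply']
    congr 3
    rw [← T.Th_ee, ← ih, T.bil_Th]

lemma θθ (w : W) : T.θ (T.θ w) = w := by
  induction w using cs.simple_induction_left with
  | one => simp
  | mul_simple_left w i ih => rw [map_mul, map_mul, ih, T.hθ, T.hθ, T.invol]

lemma length_θ (w : W) : cs.length (T.θ w) = cs.length w := by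
  have h : ∀ w, cs.length (T.θ w) ≤ cs.length w := by
    intro w
    obtain ⟨ω, r, rfl⟩ := exists_reduced (cs := cs) w
    have : T.θ (cs.wordProd ω) = cs.wordProd (ω.map T.σ) := by
      clear r
      induction ω with
      | nil => simp
      | cons i ω ih => rw [cs.wordProd_cons, map_mul, ih, T.hθ, List.map_cons, cs.wordProd_cons]
    rw [this]
    have h2 := cs.length_wordProd_le (ω.map T.σ)
    rw [List.length_map] at h2
    rw [r.eq]; exact h2
  apply le_antisymm (h w)
  conv_lhs => rw [← T.θθ w]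
  exact h _

lemma rt {t : W} {v : B →₀ ℝ} (h : Rt cs t v) : Rt cs (T.θ t) (T.Th v) := by
  obtain ⟨w, i, rfl, rfl⟩ := h
  refine ⟨T.θ w, T.σ i, ?_, ?_⟩
  · rw [map_mul, map_mul, map_inv, T.hθ]
  · rw [T.Th_geo, T.Th_ee]

end Tw

/-- Left multiplication by a reflection going up. -/
lemma Rt.step_left {t : W} {v : B →₀ ℝ} (h : Rt cs t v) (hv : 0 ≤ v) {u : W}
    (hu : 0 ≤ geo cs u⁻¹ v) : Step cs u (t * u) := by
  have h1 := h.length_of_pos hv hu
  have h2 : u⁻¹ * t = (t * u)⁻¹ := by rw [mul_inv_rev, h.isReflection.inv]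
  rw [h2, cs.length_inv, cs.length_inv] at h1
  refine ⟨u⁻¹ * t * u, ?_, by group, h1⟩
  have := h.isReflection.conj u⁻¹
  simpa using this

lemma Rt.nonneg_of_length {t : W} {v : B →₀ ℝ} (h : Rt cs t v) (hv : 0 ≤ v) {u : W}
    (hu : cs.length u < cs.length (t * u)) : 0 ≤ geo cs u⁻¹ v := by
  have h2 : u⁻¹ * t = (t * u)⁻¹ := by rw [mul_inv_rev, h.isReflection.inv]
  rw [h.pos_iff hv, h2, cs.length_inv, cs.length_inv]
  exact hu

end Pool.Agent.Q87.Cox.Geo
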